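import Mathlib
import Pool.Agent.Lib.MP_0016c7_nt.Rz.Defs

set_option autoImplicit false

open Finset MeasureTheory Filter Topology
open scoped Real

namespace Pool.Agent.MP0016c7.Rz

theorem jr_of_odd (k : ℤ) {n : ℕ} (hn : Odd n) : jr k n = ((jacobiSym k n : ℤ) : ℝ) := by
  simp [jr, hn]

theorem jr_mul (k : ℤ) (m n : ℕ) : jr k (m * n) = jr k m * jr k n := by
  unfold jr
  by_cases hm : Odd m
  · by_cases hn : Odd n
    · have : NeZero m := ⟨by rintro rfl; simp at hm⟩
      have : NeZero n := ⟨by rintro rfl; simp at hn⟩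
      rw [if_pos hm, if_pos hn, if_pos (hm.mul hn), jacobiSym.mul_right]
      push_cast
      ring
    · rw [if_neg hn, if_neg (fun h => hn (Nat.odd_mul.mp h).2), mul_zero]
  · rw [if_neg hm, if_neg (fun h => hm (Nat.odd_mul.mp h).1), zero_mul]

theorem jr_mul_left (k l : ℤ) (n : ℕ) : jr (k * l) n = jr k n * jr l n := by
  unfold jr
  by_cases hn : Odd n
  · rw [if_pos hn, if_pos hn, if_pos hn, jacobiSym.mul_left]
    push_cast
    ring
  · simp [hn]

theorem abs_jr_le (k : ℤ) (n : ℕ) : |jr k n| ≤ 1 := by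
  unfold jr
  split_ifs
  · rcases jacobiSym.trichotomy k n with h | h | h <;> rw [h] <;> norm_num
  · norm_num

theorem jr_one_right (k : ℤ) : jr k 1 = 1 := by
  simp [jr]

theorem jr_one_left {n : ℕ} (hn : Odd n) : jr 1 n = 1 := by
  simp [jr, hn]

theorem jr_sq_one {k : ℤ} {n : ℕ} (hn : Odd n) (h : IsCoprime k (n : ℤ)) : jr k n ^ 2 = 1 := by
  rw [jr_of_odd k hn]
  have := jacobiSym.sq_one (a := k) (b := n) (by
    rw [← Int.isCoprime_iff_gcd_eq_one]; exact h)
  exact_mod_cast this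

theorem jr_eq_zero {k : ℤ} {n : ℕ} (hn : n ≠ 0) (h : ¬ IsCoprime k (n : ℤ)) : jr k n = 0 := by
  unfold jr
  split_ifs
  · have : NeZero n := ⟨hn⟩
    rw [(jacobiSym.eq_zero_iff_not_coprime (a := k) (b := n)).2
      (fun h' => h (Int.isCoprime_iff_gcd_eq_one.2 h'))]
    norm_num
  · rfl

/-- The symbol at `k t²`. -/
theorem jr_mul_sq (k : ℤ) (t : ℕ) {n : ℕ} (hn : Odd n) :
    jr (k * (t : ℤ) ^ 2) n = if Nat.Coprime t n then jr k n else 0 := by
  have hn0 : n ≠ 0 := by rintro rfl; simp at hn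
  rw [jr_mul_left, sq, jr_mul_left, ← sq]
  split_ifs with h
  · rw [jr_sq_one hn (by exact_mod_cast Nat.isCoprime_iff_coprime.2 h), mul_one]
  · rw [jr_eq_zero hn0 (fun h' => h (Nat.isCoprime_iff_coprime.1 h'))]
    ring

theorem jr_zero_left {n : ℕ} (hn : n ≠ 1) : jr 0 n = 0 := by
  by_cases h0 : n = 0
  · subst h0
    simp [jr]
  · apply jr_eq_zero h0
    intro h
    rw [isCoprime_zero_left, Int.isUnit_iff] at h
    omega

/-- Periodicity in the upper argument. -/
theorem jr_emod (k : ℤ) (n : ℕ) : jr (k % n) n = jr k n := by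
  unfold jr
  rw [← jacobiSym.mod_left]

end Pool.Agent.MP0016c7.Rz
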