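import Mathlib
import Pool.Agent.Lib.MP_0016c7_nt.Rz.Defs

set_option autoImplicit false

open Finset MeasureTheory Filter Topology
open scoped Real

namespace Pool.Agent.MP0016c7.Rz

/-- Odd squarefree numbers up to `N`. -/
def os (N : ℕ) : Finset ℕ := (Icc 1 N).filter (fun n => Odd n ∧ Squarefree n)

/-- Squarefree numbers up to `N`. -/
def sf (N : ℕ) : Finset ℕ := (Icc 1 N).filter Squarefree

/-- The quadratic large sieve inequality, rows `m ≤ M`, columns `n ≤ N`, constant `D`. -/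
def QL (M N : ℕ) (D : ℝ) : Prop :=
  ∀ a : ℕ → ℝ, ∑ m ∈ os M, (∑ n ∈ os N, a n * jr m n) ^ 2 ≤ D * ∑ n ∈ os N, a n ^ 2

/-- Coefficients supported on odd squarefree `n` in `(N/2, N]`, in the class `j` modulo `4`. -/
def Blk (N j : ℕ) (a : ℕ → ℝ) : Prop := ∀ n, a n ≠ 0 → n ∈ os N ∧ N < 2 * n ∧ n % 4 = j

/-- The inequality for coefficients in a block. -/
def QB (M N : ℕ) (D : ℝ) : Prop :=
  ∀ (j : ℕ) (a : ℕ → ℝ), Blk N j a →
    ∑ m ∈ os M, (∑ n ∈ os N, a n * jr m n) ^ 2 ≤ D * ∑ n ∈ os N, a n ^ 2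

/-- `∑_{t ≥ 1} exp (-π t⁴ y²)`. -/
noncomputable def Th (y : ℝ) : ℝ := ∑' t : ℕ, Real.exp (-π * (((t : ℝ) + 1) ^ 4 * y ^ 2))

noncomputable def cE : ℝ := ∫ t in Set.Ioi (0 : ℝ), Real.exp (-π * t ^ 4)

/-- The remainder `Th y - cE y^{-1/2}`, bounded by `C min (1, y^{-1/2})`. -/
noncomputable def EE (y : ℝ) : ℝ := Th y - cE / √y

/-- Mellin representation of the remainder on the line `σ`, with density `f`. -/
def MelE (σ : ℝ) (f : ℝ → ℂ) : Prop :=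
  Integrable f ∧ ∀ y : ℝ, 0 < y →
    (EE y : ℂ) = ∫ τ : ℝ, f τ * (y : ℂ) ^ (-((σ : ℂ) + Complex.I * τ))

/-- The dual (right) remainder term of a pair with `gcd` equal to `g`, `q = n₁ n₂ / g²`. -/
noncomputable def Rt (M k g q : ℕ) : ℝ :=
  jr k q * ((M : ℝ) / √(q : ℝ)) * ∑ e ∈ g.divisors, (ArithmeticFunction.moebius e : ℝ) / e *
    ∑ d ∈ q.divisors, (ArithmeticFunction.moebius d : ℝ) *
      EE ((k : ℝ) * M * (d : ℝ) ^ 2 / ((Nat.gcd e k : ℝ) ^ 2 * q))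

/-- The left remainder term of a pair `n₁, n₂`. -/
noncomputable def Lt (M k n₁ n₂ : ℕ) : ℝ :=
  jr k (n₁ * n₂) * ∑ d ∈ (Nat.lcm n₁ n₂).divisors, (ArithmeticFunction.moebius d : ℝ) *
    EE ((k : ℝ) * (d : ℝ) ^ 2 / M)

/-- The tail of the dual sum. -/
noncomputable def Tl (M K e q : ℕ) : ℝ :=
  ∑' h : ℕ, if K < e * (h + 1) then
    Real.exp (-π * ((((h : ℝ) + 1) * M / ((e : ℝ) * q)) ^ 2)) else 0

end Pool.Agent.MP0016c7.Rz
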