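import Mathlib
import Pool.Agent.Lib.MP_0016c7_nt.Rz.Defs
import Pool.Agent.Lib.MP_0016c7_nt.Qls.QDefs
import Pool.Agent.Lib.MP_0016c7_nt.Qls.QJr

set_option autoImplicit false

open Finset MeasureTheory Filter Topology
open scoped Real

namespace Pool.Agent.MP0016c7.Rz

private theorem qa1_os_mono {N N' : ℕ} (h : N' ≤ N) : os N' ⊆ os N := by
  unfold os
  exact Finset.filter_subset_filter _ (Finset.Icc_subset_Icc_right h)

private theorem qa1_card (N : ℕ) : (os N).card ≤ N := by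
  unfold os
  refine (Finset.card_filter_le _ _).trans ?_
  simp

theorem QL_mono {M N M' N' : ℕ} {D D' : ℝ} (h : QL M N D) (hM : M' ≤ M) (hN : N' ≤ N)
    (hD : D ≤ D') : QL M' N' D' := by
  classical
  intro a
  set a' : ℕ → ℝ := fun n => if n ∈ os N' then a n else 0 with ha'
  have e1 : ∀ m : ℕ, ∑ n ∈ os N', a n * jr m n = ∑ n ∈ os N, a' n * jr m n := by
    intro m
    rw [← Finset.sum_subset (qa1_os_mono hN) (fun n _ hn => by
      simp only [ha', if_neg hn, zero_mul])]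
    refine Finset.sum_congr rfl fun n hn => ?_
    simp only [ha', if_pos hn]
  have e2 : ∑ n ∈ os N, a' n ^ 2 = ∑ n ∈ os N', a n ^ 2 := by
    rw [← Finset.sum_subset (qa1_os_mono hN) (fun n _ hn => by
      simp only [ha', if_neg hn]
      norm_num)]
    refine Finset.sum_congr rfl fun n hn => ?_
    simp only [ha', if_pos hn]
  calc ∑ m ∈ os M', (∑ n ∈ os N', a n * jr m n) ^ 2
      = ∑ m ∈ os M', (∑ n ∈ os N, a' n * jr m n) ^ 2 := by
        refine Finset.sum_congr rfl fun m _ => ?_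
        rw [e1 m]
    _ ≤ ∑ m ∈ os M, (∑ n ∈ os N, a' n * jr m n) ^ 2 :=
        Finset.sum_le_sum_of_subset_of_nonneg (qa1_os_mono hM) fun _ _ _ => sq_nonneg _
    _ ≤ D * ∑ n ∈ os N, a' n ^ 2 := h a'
    _ = D * ∑ n ∈ os N', a n ^ 2 := by rw [e2]
    _ ≤ D' * ∑ n ∈ os N', a n ^ 2 :=
        mul_le_mul_of_nonneg_right hD (Finset.sum_nonneg fun _ _ => sq_nonneg _)

theorem QL_trivial (M N : ℕ) : QL M N ((M : ℝ) * N) := by
  intro a
  have h1 : ∀ m ∈ os M, (∑ n ∈ os N, a n * jr m n) ^ 2 ≤ (N : ℝ) * ∑ n ∈ os N, a n ^ 2 := by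
    intro m _
    have hcs := Finset.sum_mul_sq_le_sq_mul_sq (os N) a (fun n => jr m n)
    have hj : ∑ n ∈ os N, (jr m n) ^ 2 ≤ (N : ℝ) := by
      calc ∑ n ∈ os N, (jr m n) ^ 2 ≤ ∑ n ∈ os N, (1 : ℝ) := by
            refine Finset.sum_le_sum fun n _ => ?_
            have := abs_jr_le (m : ℤ) n
            rw [← sq_abs]
            exact pow_le_one₀ (abs_nonneg _) this
        _ = ((os N).card : ℝ) := by simp
        _ ≤ N := by exact_mod_cast qa1_card N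
    calc (∑ n ∈ os N, a n * jr m n) ^ 2 ≤ (∑ n ∈ os N, a n ^ 2) * ∑ n ∈ os N, (jr m n) ^ 2 := hcs
      _ ≤ (∑ n ∈ os N, a n ^ 2) * N :=
          mul_le_mul_of_nonneg_left hj (Finset.sum_nonneg fun _ _ => sq_nonneg _)
      _ = (N : ℝ) * ∑ n ∈ os N, a n ^ 2 := mul_comm _ _
  have hS : 0 ≤ (N : ℝ) * ∑ n ∈ os N, a n ^ 2 :=
    mul_nonneg (Nat.cast_nonneg N) (Finset.sum_nonneg fun _ _ => sq_nonneg _)
  calc ∑ m ∈ os M, (∑ n ∈ os N, a n * jr m n) ^ 2
      ≤ ∑ m ∈ os M, ((N : ℝ) * ∑ n ∈ os N, a n ^ 2) := Finset.sum_le_sum h1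
    _ = ((os M).card : ℝ) * ((N : ℝ) * ∑ n ∈ os N, a n ^ 2) := by
        rw [Finset.sum_const, nsmul_eq_mul]
    _ ≤ (M : ℝ) * ((N : ℝ) * ∑ n ∈ os N, a n ^ 2) :=
        mul_le_mul_of_nonneg_right (by exact_mod_cast qa1_card M) hS
    _ = (M : ℝ) * N * ∑ n ∈ os N, a n ^ 2 := by ring

private theorem qa1_cx {M N : ℕ} {D : ℝ} (h : QL M N D) (b : ℕ → ℂ) :
    ∑ k ∈ os M, ‖∑ n ∈ os N, b n * (jr k n : ℂ)‖ ^ 2 ≤ D * ∑ n ∈ os N, ‖b n‖ ^ 2 := by
  have e : ∀ k : ℕ, ‖∑ n ∈ os N, b n * (jr k n : ℂ)‖ ^ 2 =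
      (∑ n ∈ os N, (b n).re * jr k n) ^ 2 + (∑ n ∈ os N, (b n).im * jr k n) ^ 2 := by
    intro k
    rw [Complex.sq_norm, Complex.normSq_apply, Complex.re_sum, Complex.im_sum]
    simp only [Complex.re_mul_ofReal, Complex.im_mul_ofReal]
    ring
  have e' : ∀ n : ℕ, ‖b n‖ ^ 2 = (b n).re ^ 2 + (b n).im ^ 2 := by
    intro n
    rw [Complex.sq_norm, Complex.normSq_apply]
    ring
  simp_rw [e, e']
  rw [Finset.sum_add_distrib, Finset.sum_add_distrib, mul_add]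
  exact add_le_add (h fun n => (b n).re) (h fun n => (b n).im)

theorem QL_complex {M N : ℕ} {D : ℝ} (hD : 0 ≤ D) (h : QL M N D) (b : ℕ → ℂ) :
    ∑ k ∈ sf M, ‖∑ n ∈ os N, b n * (jr k n : ℂ)‖ ^ 2 ≤ 2 * D * ∑ n ∈ os N, ‖b n‖ ^ 2 := by
  classical
  have hsub : sf M ⊆ os M ∪ (os M).image (fun k => 2 * k) := by
    intro k hk
    unfold sf at hk
    rw [Finset.mem_filter, Finset.mem_Icc] at hk
    rw [Finset.mem_union]
    rcases Nat.even_or_odd k with hev | hodd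
    · right
      obtain ⟨j, hj⟩ := hev
      have hj2 : k = 2 * j := by omega
      rw [Finset.mem_image]
      refine ⟨j, ?_, hj2.symm⟩
      unfold os
      rw [Finset.mem_filter, Finset.mem_Icc]
      refine ⟨⟨by omega, by omega⟩, ?_, ?_⟩
      · by_contra hne
        rw [Nat.not_odd_iff_even] at hne
        obtain ⟨i, hi⟩ := hne
        have hd : 2 * 2 ∣ k := ⟨i, by omega⟩
        have := hk.2 2 hd
        rw [Nat.isUnit_iff] at this
        omega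
      · exact hk.2.squarefree_of_dvd ⟨2, by omega⟩
    · left
      unfold os
      rw [Finset.mem_filter, Finset.mem_Icc]
      exact ⟨hk.1, hodd, hk.2⟩
  set F : ℕ → ℝ := fun k => ‖∑ n ∈ os N, b n * (jr k n : ℂ)‖ ^ 2 with hF
  have hF0 : ∀ k, 0 ≤ F k := fun k => sq_nonneg _
  have h1 : ∑ k ∈ sf M, F k ≤ ∑ k ∈ os M, F k + ∑ k ∈ os M, F (2 * k) := by
    calc ∑ k ∈ sf M, F k ≤ ∑ k ∈ os M ∪ (os M).image (fun k => 2 * k), F k :=
          Finset.sum_le_sum_of_subset_of_nonneg hsub fun _ _ _ => hF0 _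
      _ ≤ ∑ k ∈ os M, F k + ∑ k ∈ (os M).image (fun k => 2 * k), F k := by
          have := Finset.sum_union_inter (s₁ := os M) (s₂ := (os M).image (fun k => 2 * k)) (f := F)
          have h0 : 0 ≤ ∑ k ∈ os M ∩ (os M).image (fun k => 2 * k), F k :=
            Finset.sum_nonneg fun _ _ => hF0 _
          linarith
      _ = ∑ k ∈ os M, F k + ∑ k ∈ os M, F (2 * k) := by
          rw [Finset.sum_image]
          intro x _ y _ hxy
          exact Nat.eq_of_mul_eq_mul_left (by norm_num) hxy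
  have h2 : ∑ k ∈ os M, F k ≤ D * ∑ n ∈ os N, ‖b n‖ ^ 2 := qa1_cx h b
  have h3 : ∑ k ∈ os M, F (2 * k) ≤ D * ∑ n ∈ os N, ‖b n‖ ^ 2 := by
    have h4 := qa1_cx h fun n => b n * (jr 2 n : ℂ)
    have h5 : ∑ k ∈ os M, F (2 * k) =
        ∑ k ∈ os M, ‖∑ n ∈ os N, b n * (jr 2 n : ℂ) * (jr k n : ℂ)‖ ^ 2 := by
      refine Finset.sum_congr rfl fun k _ => ?_
      simp only [hF]
      have h6 : ∀ n : ℕ, (jr ((2 * k : ℕ) : ℤ) n : ℂ) = (jr 2 n : ℂ) * (jr k n : ℂ) := by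
        intro n
        rw [Nat.cast_mul, jr_mul_left]
        push_cast
        rfl
      congr 2
      refine Finset.sum_congr rfl fun n _ => ?_
      rw [h6 n, mul_assoc]
    rw [h5]
    refine h4.trans (mul_le_mul_of_nonneg_left ?_ hD)
    refine Finset.sum_le_sum fun n _ => ?_
    rw [norm_mul, mul_pow, Complex.norm_real, Real.norm_eq_abs]
    have h7 : |jr 2 n| ^ 2 ≤ 1 := pow_le_one₀ (abs_nonneg _) (abs_jr_le 2 n)
    calc ‖b n‖ ^ 2 * |jr 2 n| ^ 2 ≤ ‖b n‖ ^ 2 * 1 := mul_le_mul_of_nonneg_left h7 (sq_nonneg _)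
      _ = ‖b n‖ ^ 2 := mul_one _
  linarith

private theorem qa1_block {N n : ℕ} (hn : n ∈ os N) :
    n ∈ os (N / 2 ^ Nat.log 2 (N / n)) ∧ N / 2 ^ Nat.log 2 (N / n) < 2 * n ∧
      Nat.log 2 (N / n) ≤ Nat.log 2 N := by
  unfold os at hn ⊢
  rw [Finset.mem_filter, Finset.mem_Icc] at hn ⊢
  obtain ⟨⟨h1, h2⟩, h3⟩ := hn
  have hq : N / n ≠ 0 := (Nat.div_pos h2 h1).ne'
  refine ⟨⟨⟨h1, ?_⟩, h3⟩, ?_, ?_⟩
  · rw [Nat.le_div_iff_mul_le (by positivity)]
    have := Nat.pow_log_le_self 2 hq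
    calc n * 2 ^ Nat.log 2 (N / n) ≤ n * (N / n) := Nat.mul_le_mul_left _ this
      _ ≤ N := Nat.mul_div_le N n
  · rw [Nat.div_lt_iff_lt_mul (by positivity)]
    have := Nat.lt_pow_succ_log_self (b := 2) (by norm_num) (N / n)
    rw [Nat.div_lt_iff_lt_mul h1] at this
    calc N < 2 ^ (Nat.log 2 (N / n) + 1) * n := this
      _ = 2 * n * 2 ^ Nat.log 2 (N / n) := by rw [pow_succ]; ring
  · exact Nat.log_mono_right (Nat.div_le_self N n)

theorem QL_of_QB {M N : ℕ} {D : ℝ} (hD : 0 ≤ D) (h : ∀ N', 1 ≤ N' → N' ≤ N → QB M N' D) :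
    QL M N (2 * ((Nat.log 2 N : ℝ) + 1) * D) := by
  classical
  intro a
  set I : Finset (ℕ × ℕ) := Finset.range (Nat.log 2 N + 1) ×ˢ ({1, 3} : Finset ℕ) with hI
  set c : ℕ × ℕ → ℕ → ℝ := fun p n =>
    if n ∈ os N ∧ Nat.log 2 (N / n) = p.1 ∧ n % 4 = p.2 then a n else 0 with hc
  have hcard : (I.card : ℝ) = 2 * ((Nat.log 2 N : ℝ) + 1) := by
    rw [hI, Finset.card_product, Finset.card_range]
    rw [show ({1, 3} : Finset ℕ).card = 2 from rfl]
    push_cast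
    ring
  have hmem : ∀ n ∈ os N, (Nat.log 2 (N / n), n % 4) ∈ I := by
    intro n hn
    have hb := qa1_block hn
    unfold os at hn
    rw [Finset.mem_filter] at hn
    have ho := Nat.odd_iff.1 hn.2.1
    rw [hI, Finset.mem_product, Finset.mem_range, Finset.mem_insert, Finset.mem_singleton]
    refine ⟨by omega, ?_⟩
    simp only
    omega
  have hsum : ∀ n ∈ os N, ∑ p ∈ I, c p n = a n := by
    intro n hn
    rw [Finset.sum_eq_single_of_mem _ (hmem n hn)]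
    · exact if_pos ⟨hn, rfl, rfl⟩
    · intro p _ hp
      simp only [hc]
      rw [if_neg]
      rintro ⟨_, h1, h2⟩
      exact hp (Prod.ext h1.symm h2.symm)
  have hsum2 : ∀ n ∈ os N, ∑ p ∈ I, c p n ^ 2 = a n ^ 2 := by
    intro n hn
    rw [Finset.sum_eq_single_of_mem _ (hmem n hn)]
    · have h0 : c (Nat.log 2 (N / n), n % 4) n = a n := if_pos ⟨hn, rfl, rfl⟩
      rw [h0]
    · intro p _ hp
      simp only [hc]
      rw [if_neg]
      · norm_num
      rintro ⟨_, h1, h2⟩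
      exact hp (Prod.ext h1.symm h2.symm)
  have hblk : ∀ p : ℕ × ℕ, Blk (N / 2 ^ p.1) p.2 (c p) := by
    intro p n hn
    simp only [hc] at hn
    split_ifs at hn with hcond
    · obtain ⟨h1, h2, h3⟩ := hcond
      have hb := qa1_block h1
      rw [h2] at hb
      exact ⟨hb.1, hb.2.1, h3⟩
    · exact absurd rfl hn
  have hp : ∀ p ∈ I, ∑ m ∈ os M, (∑ n ∈ os N, c p n * jr m n) ^ 2 ≤
      D * ∑ n ∈ os N, c p n ^ 2 := by
    intro p _
    have hle : N / 2 ^ p.1 ≤ N := Nat.div_le_self _ _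
    have hz : ∀ n ∈ os N, n ∉ os (N / 2 ^ p.1) → c p n = 0 := by
      intro n _ hn
      by_contra hne
      exact hn (hblk p n hne).1
    have e1 : ∀ m : ℕ, ∑ n ∈ os N, c p n * jr m n = ∑ n ∈ os (N / 2 ^ p.1), c p n * jr m n := by
      intro m
      exact (Finset.sum_subset (qa1_os_mono hle) fun n hn hn' => by
        rw [hz n hn hn', zero_mul]).symm
    have e2 : ∑ n ∈ os N, c p n ^ 2 = ∑ n ∈ os (N / 2 ^ p.1), c p n ^ 2 :=
      (Finset.sum_subset (qa1_os_mono hle) fun n hn hn' => by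
        rw [hz n hn hn']; norm_num).symm
    rw [e2]
    simp_rw [e1]
    rcases Nat.eq_zero_or_pos (N / 2 ^ p.1) with h0 | h0
    · rw [h0]
      have : os 0 = ∅ := by
        unfold os
        simp
      rw [this]
      simp
    · exact h _ h0 hle p.2 (c p) (hblk p)
  calc ∑ m ∈ os M, (∑ n ∈ os N, a n * jr m n) ^ 2
      = ∑ m ∈ os M, (∑ p ∈ I, ∑ n ∈ os N, c p n * jr m n) ^ 2 := by
        refine Finset.sum_congr rfl fun m _ => ?_
        congr 1
        rw [Finset.sum_comm]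
        refine Finset.sum_congr rfl fun n hn => ?_
        rw [← Finset.sum_mul, hsum n hn]
    _ ≤ ∑ m ∈ os M, (I.card : ℝ) * ∑ p ∈ I, (∑ n ∈ os N, c p n * jr m n) ^ 2 :=
        Finset.sum_le_sum fun m _ => sq_sum_le_card_mul_sum_sq
    _ = (I.card : ℝ) * ∑ p ∈ I, ∑ m ∈ os M, (∑ n ∈ os N, c p n * jr m n) ^ 2 := by
        rw [← Finset.mul_sum, Finset.sum_comm]
    _ ≤ (I.card : ℝ) * ∑ p ∈ I, D * ∑ n ∈ os N, c p n ^ 2 :=
        mul_le_mul_of_nonneg_left (Finset.sum_le_sum hp) (Nat.cast_nonneg _)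
    _ = (I.card : ℝ) * (D * ∑ n ∈ os N, a n ^ 2) := by
        rw [← Finset.mul_sum, Finset.sum_comm]
        congr 2
        exact Finset.sum_congr rfl hsum2
    _ = 2 * ((Nat.log 2 N : ℝ) + 1) * D * ∑ n ∈ os N, a n ^ 2 := by
        rw [hcard]; ring

end Pool.Agent.MP0016c7.Rz
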