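import Mathlib
import Pool.Agent.Lib.MP_0016c7_nt.Rz.Defs
import Pool.Agent.Lib.MP_0016c7_nt.Qls.QDefs
import Pool.Agent.Lib.MP_0016c7_nt.Qls.QJr

set_option autoImplicit false

open Finset MeasureTheory Filter Topology
open scoped Real

namespace Pool.Agent.MP0016c7.Rz

/-- Duality for real coefficients. -/
private theorem ql_dual_real {M N : ℕ} {D : ℝ} (hD : 0 ≤ D) (h : QL M N D) (b : ℕ → ℝ) :
    ∑ n ∈ os N, (∑ m ∈ os M, b m * jr m n) ^ 2 ≤ D * ∑ m ∈ os M, b m ^ 2 := by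
  set t : ℕ → ℝ := fun n => ∑ m ∈ os M, b m * jr m n with ht
  set S := ∑ n ∈ os N, t n ^ 2 with hS
  have h1 := h t
  have h2 : S = ∑ m ∈ os M, b m * ∑ n ∈ os N, t n * jr m n := by
    rw [hS]
    simp only [Finset.mul_sum]
    rw [Finset.sum_comm]
    apply Finset.sum_congr rfl
    intro n _
    calc t n ^ 2 = t n * ∑ m ∈ os M, b m * jr m n := by rw [sq]
      _ = ∑ m ∈ os M, t n * (b m * jr m n) := Finset.mul_sum _ _ _
      _ = _ := Finset.sum_congr rfl fun m _ => by ring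
  have h3 : S ^ 2 ≤ (∑ m ∈ os M, b m ^ 2) * ∑ m ∈ os M, (∑ n ∈ os N, t n * jr m n) ^ 2 := by
    rw [h2]
    exact Finset.sum_mul_sq_le_sq_mul_sq _ _ _
  have hb : 0 ≤ ∑ m ∈ os M, b m ^ 2 := Finset.sum_nonneg fun _ _ => sq_nonneg _
  have hSnn : 0 ≤ S := Finset.sum_nonneg fun _ _ => sq_nonneg _
  have h4 : S ^ 2 ≤ (∑ m ∈ os M, b m ^ 2) * (D * S) := h3.trans (mul_le_mul_of_nonneg_left h1 hb)
  rcases hSnn.eq_or_lt with h0 | h0
  · rw [← h0]
    exact mul_nonneg hD hb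
  · have h5 : S * S ≤ (D * ∑ m ∈ os M, b m ^ 2) * S := by nlinarith
    exact le_of_mul_le_mul_right h5 h0

private theorem mem_os' {N n : ℕ} (h : n ∈ os N) : Odd n := by
  simp only [os, Finset.mem_filter] at h
  exact h.2.1

/-- the sign of an odd number modulo four -/
private def sg4 (n : ℕ) : ℝ := (-1) ^ (n / 2)

private theorem sg4_sq (n : ℕ) : sg4 n ^ 2 = 1 := by
  unfold sg4
  rw [← pow_mul, mul_comm, pow_mul]
  norm_num

private theorem jr_recip' {m n : ℕ} (hm : Odd m) (hn : Odd n) :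
    jr m n = (if Even (m / 2) then 1 else sg4 n) * jr n m := by
  rw [jr_of_odd _ hn, jr_of_odd _ hm, jacobiSym.quadratic_reciprocity hm hn]
  push_cast
  congr 1
  unfold sg4
  split_ifs with h
  · rw [pow_mul, h.neg_one_pow, one_pow]
  · rw [Nat.not_even_iff_odd] at h
    rw [pow_mul, h.neg_one_pow]

theorem QL_symm {M N : ℕ} {D : ℝ} (hD : 0 ≤ D) (h : QL M N D) : QL N M (2 * D) := by
  intro a
  have h1 := ql_dual_real hD h a
  have h2 := ql_dual_real hD h (fun n => a n * sg4 n)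
  have h3 : ∑ n ∈ os M, (a n * sg4 n) ^ 2 = ∑ n ∈ os M, a n ^ 2 :=
    Finset.sum_congr rfl fun n _ => by rw [mul_pow, sg4_sq, mul_one]
  rw [h3] at h2
  have h4 : ∀ m ∈ os N, (∑ n ∈ os M, a n * jr m n) ^ 2 ≤
      (∑ n ∈ os M, a n * jr n m) ^ 2 + (∑ n ∈ os M, a n * sg4 n * jr n m) ^ 2 := by
    intro m hm
    by_cases he : Even (m / 2)
    · have : ∑ n ∈ os M, a n * jr m n = ∑ n ∈ os M, a n * jr n m :=
        Finset.sum_congr rfl fun n hn => by
          rw [jr_recip' (mem_os' hm) (mem_os' hn), if_pos he, one_mul]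
      rw [this]
      have := sq_nonneg (∑ n ∈ os M, a n * sg4 n * jr n m)
      linarith
    · have : ∑ n ∈ os M, a n * jr m n = ∑ n ∈ os M, a n * sg4 n * jr n m :=
        Finset.sum_congr rfl fun n hn => by
          rw [jr_recip' (mem_os' hm) (mem_os' hn), if_neg he, mul_assoc]
      rw [this]
      have := sq_nonneg (∑ n ∈ os M, a n * jr n m)
      linarith
  have h5 := Finset.sum_le_sum h4
  rw [Finset.sum_add_distrib] at h5
  linarith

/-- Duality, complex coefficients, the symbol `(n / m)`. -/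
theorem QL_dual_complex {M N : ℕ} {D : ℝ} (hD : 0 ≤ D) (h : QL N M D) (a : ℕ → ℂ) :
    ∑ m ∈ os M, ‖∑ n ∈ os N, a n * (jr n m : ℂ)‖ ^ 2 ≤ D * ∑ n ∈ os N, ‖a n‖ ^ 2 := by
  have h1 := ql_dual_real hD h (fun n => (a n).re)
  have h2 := ql_dual_real hD h (fun n => (a n).im)
  have h3 : ∀ m, ‖∑ n ∈ os N, a n * (jr n m : ℂ)‖ ^ 2 =
      (∑ n ∈ os N, (a n).re * jr n m) ^ 2 + (∑ n ∈ os N, (a n).im * jr n m) ^ 2 := by
    intro m
    rw [← Complex.normSq_eq_norm_sq, Complex.normSq_apply, Complex.re_sum, Complex.im_sum]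
    simp only [Complex.re_mul_ofReal, Complex.im_mul_ofReal]
    ring
  have h4 : ∀ n, ‖a n‖ ^ 2 = (a n).re ^ 2 + (a n).im ^ 2 := by
    intro n
    rw [← Complex.normSq_eq_norm_sq, Complex.normSq_apply]
    ring
  simp only [h3, h4]
  rw [Finset.sum_add_distrib, Finset.sum_add_distrib]
  linarith

end Pool.Agent.MP0016c7.Rz
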