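import Mathlib
import Pool.Agent.Lib.MP_0016c7_nt.Rz.Defs
import Pool.Agent.Lib.MP_0016c7_nt.Qls.QDefs

set_option autoImplicit false

open Finset MeasureTheory Filter Topology
open scoped Real

namespace Pool.Agent.MP0016c7.Rz

private theorem qe1_decay (ψ : SchwartzMap ℝ ℝ) (B : ℕ) : ∃ C : ℝ, 0 < C ∧ ∀ t : ℝ, 0 < t →
    |ψ t| ≤ C / t ^ B := by
  obtain ⟨C, hC, h⟩ := ψ.decay B 0
  refine ⟨C, hC, fun t ht => ?_⟩
  have h1 := h t
  rw [norm_iteratedFDeriv_zero, Real.norm_of_nonneg ht.le, Real.norm_eq_abs] at h1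
  rw [le_div_iff₀ (by positivity), mul_comm]
  exact h1

private theorem qe1_sum : Summable fun j : ℕ => 1 / ((j : ℝ) + 1) ^ 2 := by
  have h1 := (summable_nat_add_iff 1).2 (Real.summable_one_div_nat_pow.2 (one_lt_two))
  refine h1.congr fun j => ?_
  push_cast
  rfl

theorem plain_sum_deriv (ψ ψ₁ : SchwartzMap ℝ ℝ) (h : ∀ t, ψ₁ t = t / 2 * deriv ψ t) (x : ℝ) :
    Summable (fun j : ℕ => |ψ (((j : ℝ) + 1) * Real.exp (x / 2))|) ∧
    HasDerivAt (fun x : ℝ => ∑' j : ℕ, ψ (((j : ℝ) + 1) * Real.exp (x / 2)))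
      (∑' j : ℕ, ψ₁ (((j : ℝ) + 1) * Real.exp (x / 2))) x := by
  obtain ⟨C, hC, hd⟩ := qe1_decay ψ 2
  obtain ⟨C₁, hC₁, hd₁⟩ := qe1_decay ψ₁ 2
  have hs : Summable (fun j : ℕ => |ψ (((j : ℝ) + 1) * Real.exp (x / 2))|) := by
    refine Summable.of_nonneg_of_le (fun j => abs_nonneg _) (fun j => ?_)
      (qe1_sum.mul_left (C / Real.exp (x / 2) ^ 2))
    refine (hd _ (by positivity)).trans (le_of_eq ?_)
    rw [mul_pow]
    field_simp
  refine ⟨hs, ?_⟩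
  have hxm : x ∈ Set.Ioo (x - 1) (x + 1) := ⟨by linarith, by linarith⟩
  refine hasDerivAt_tsum_of_isPreconnected (t := Set.Ioo (x - 1) (x + 1))
    (g := fun (j : ℕ) (x : ℝ) => ψ (((j : ℝ) + 1) * Real.exp (x / 2)))
    (g' := fun (j : ℕ) (x : ℝ) => ψ₁ (((j : ℝ) + 1) * Real.exp (x / 2)))
    (u := fun j : ℕ => C₁ / Real.exp ((x - 1) / 2) ^ 2 * (1 / ((j : ℝ) + 1) ^ 2)) (y₀ := x)
    (qe1_sum.mul_left _) isOpen_Ioo isPreconnected_Ioo ?_ ?_
    hxm ?_ hxm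
  · intro j y _
    have h1 : HasDerivAt (fun y : ℝ => ((j : ℝ) + 1) * Real.exp (y / 2))
        (((j : ℝ) + 1) * (Real.exp (y / 2) * (1 / 2))) y :=
      (((hasDerivAt_id y).div_const 2).exp).const_mul _
    have h2 : HasDerivAt (fun y : ℝ => ψ (((j : ℝ) + 1) * Real.exp (y / 2)))
        (deriv ψ (((j : ℝ) + 1) * Real.exp (y / 2)) *
          (((j : ℝ) + 1) * (Real.exp (y / 2) * (1 / 2)))) y :=
      HasDerivAt.comp y (ψ.differentiableAt.hasDerivAt) h1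
    have h4 : ψ₁ (((j : ℝ) + 1) * Real.exp (y / 2)) =
        (deriv ψ (((j : ℝ) + 1) * Real.exp (y / 2)) *
          (((j : ℝ) + 1) * (Real.exp (y / 2) * (1 / 2)))) := by
      rw [h]
      ring
    rw [h4]
    exact h2
  · intro j y hy
    rw [Real.norm_eq_abs]
    refine (hd₁ _ (by positivity)).trans ?_
    have h1 : Real.exp ((x - 1) / 2) ≤ Real.exp (y / 2) := by
      rw [Real.exp_le_exp]
      have := hy.1
      linarith
    rw [mul_pow]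
    calc C₁ / (((j : ℝ) + 1) ^ 2 * Real.exp (y / 2) ^ 2)
        ≤ C₁ / (((j : ℝ) + 1) ^ 2 * Real.exp ((x - 1) / 2) ^ 2) := by gcongr
      _ = _ := by field_simp
  · exact Summable.of_norm_bounded hs fun j => by rw [Real.norm_eq_abs]

theorem plain_sum_bound (ψ : SchwartzMap ℝ ℝ) (A : ℝ) : ∃ C : ℝ, ∀ x : ℝ, 0 ≤ x →
    |∑' j : ℕ, ψ (((j : ℝ) + 1) * Real.exp (x / 2))| ≤ C * Real.exp (-A * x) := by
  obtain ⟨n, hn⟩ := exists_nat_ge (2 * A)
  obtain ⟨C, hC, hd⟩ := qe1_decay ψ (n + 2)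
  refine ⟨C * ∑' j : ℕ, 1 / ((j : ℝ) + 1) ^ 2, fun x hx => ?_⟩
  have hb : ∀ j : ℕ, |ψ (((j : ℝ) + 1) * Real.exp (x / 2))| ≤
      C * Real.exp (-A * x) * (1 / ((j : ℝ) + 1) ^ 2) := by
    intro j
    refine (hd _ (by positivity)).trans ?_
    have h1 : (1 : ℝ) ≤ (j : ℝ) + 1 := by
      have : (0 : ℝ) ≤ j := Nat.cast_nonneg j
      linarith
    have h2 : ((j : ℝ) + 1) ^ 2 ≤ ((j : ℝ) + 1) ^ (n + 2) := pow_le_pow_right₀ h1 (by omega)
    have h3 : Real.exp (A * x) ≤ Real.exp (x / 2) ^ (n + 2) := by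
      rw [← Real.exp_nat_mul, Real.exp_le_exp]
      push_cast
      nlinarith
    rw [mul_pow]
    calc C / (((j : ℝ) + 1) ^ (n + 2) * Real.exp (x / 2) ^ (n + 2))
        ≤ C / (((j : ℝ) + 1) ^ 2 * Real.exp (A * x)) := by gcongr
      _ = _ := by
        rw [neg_mul, Real.exp_neg]
        field_simp
  have hs : Summable fun j : ℕ => C * Real.exp (-A * x) * (1 / ((j : ℝ) + 1) ^ 2) :=
    qe1_sum.mul_left _
  have h1 := tsum_of_norm_bounded (f := fun j : ℕ =>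
    ψ (((j : ℝ) + 1) * Real.exp (x / 2))) hs.hasSum hb
  rw [Real.norm_eq_abs] at h1
  refine h1.trans (le_of_eq ?_)
  rw [tsum_mul_left]
  ring

open FourierTransform SchwartzMap

/-- scaling of a Schwartz function -/
private noncomputable def qe1_sc {F : Type*} [NormedAddCommGroup F] [NormedSpace ℝ F]
    (c : ℝ) (hc : c ≠ 0) (f : SchwartzMap ℝ F) : SchwartzMap ℝ F :=
  SchwartzMap.compCLMOfContinuousLinearEquiv ℝ
    (ContinuousLinearEquiv.unitsEquivAut ℝ (Units.mk0 c hc)) f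

private lemma qe1_sc_apply {F : Type*} [NormedAddCommGroup F] [NormedSpace ℝ F]
    (c : ℝ) (hc : c ≠ 0) (f : SchwartzMap ℝ F) (x : ℝ) : qe1_sc c hc f x = f (x * c) := rfl

private lemma qe1_summable {F : Type*} [NormedAddCommGroup F] [NormedSpace ℝ F]
    (f : SchwartzMap ℝ F) : Summable fun n : ℤ => ‖f n‖ := by
  have h1 := ((f.isBigO_cocompact_rpow (-2)).comp_tendsto Int.tendsto_coe_cofinite).norm_left
  exact summable_of_isBigO (Real.summable_abs_int_rpow one_lt_two) h1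

private lemma qe1_poisson (ψ : SchwartzMap ℝ ℝ) : ∃ g : SchwartzMap ℝ ℂ,
    g 0 = ((∫ t, ψ t : ℝ) : ℂ) ∧ ∀ l : ℝ, 0 < l →
    ∑' n : ℤ, (ψ (l * n) : ℂ) = ∑' n : ℤ, ((l⁻¹ : ℝ) : ℂ) * g (n * l⁻¹) := by
  set ψc : SchwartzMap ℝ ℂ := ψ.postcompCLM Complex.ofRealCLM with hψc
  refine ⟨𝓕⁻ ψc, ?_, fun l hl => ?_⟩
  · rw [SchwartzMap.fourierInv_coe, Real.fourierInv_eq']
    simp only [inner_zero_right, mul_zero, Complex.ofReal_zero, zero_mul, Complex.exp_zero,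
      one_smul]
    rw [← integral_complex_ofReal]
    rfl
  set g : SchwartzMap ℝ ℂ := 𝓕⁻ ψc with hg
  have hgF : 𝓕 g = ψc := fourier_fourierInv_eq ψc
  set f : SchwartzMap ℝ ℂ := (l⁻¹ : ℝ) • qe1_sc l⁻¹ (inv_ne_zero hl.ne') g with hf
  have hfa : ∀ x, f x = ((l⁻¹ : ℝ) : ℂ) * g (x * l⁻¹) := fun x => by
    rw [hf, smul_apply, qe1_sc_apply]
    exact Complex.real_smul
  have h := SchwartzMap.tsum_eq_tsum_fourier f 0
  have e1 : ∀ n : ℤ, (𝓕 f) (n : ℝ) = (ψ (l * n) : ℂ) := by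
    intro n
    have e2 : (𝓕 g) (l * n : ℝ) = (ψ (l * n) : ℂ) := by
      rw [hgF]
      rfl
    rw [← e2, SchwartzMap.fourier_coe, SchwartzMap.fourier_coe,
      Real.fourier_real_eq_integral_exp_smul, Real.fourier_real_eq_integral_exp_smul]
    have e3 := Measure.integral_comp_mul_right (fun v : ℝ =>
      Complex.exp (↑(-2 * π * v * (l * n)) * Complex.I) • g v) l⁻¹
    rw [inv_inv, abs_of_pos hl] at e3
    have e4 : ∀ v : ℝ, Complex.exp (↑(-2 * π * v * (n : ℝ)) * Complex.I) • f v =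
        ((l⁻¹ : ℝ) : ℂ) * (Complex.exp (↑(-2 * π * (v * l⁻¹) * (l * n)) * Complex.I) •
          g (v * l⁻¹)) := by
      intro v
      rw [hfa]
      have e5 : -2 * π * (v * l⁻¹) * (l * (n : ℝ)) = -2 * π * v * n := by
        field_simp
      rw [e5]
      simp only [smul_eq_mul]
      ring
    simp only [e4]
    rw [integral_const_mul, e3, Complex.real_smul, ← mul_assoc, ← Complex.ofReal_mul,
      inv_mul_cancel₀ hl.ne', Complex.ofReal_one, one_mul]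
  have e0 : ∀ n : ℤ, fourier n ((0 : ℝ) : UnitAddCircle) = (1 : ℂ) := by
    intro n
    rw [fourier_coe_apply]
    simp
  simp only [e0, hfa, e1, zero_add, mul_one] at h
  exact h.symm

theorem plain_sum_bound_neg (ψ : SchwartzMap ℝ ℝ) (he : ∀ t, ψ (-t) = ψ t) :
    ∃ C : ℝ, ∀ x : ℝ, x ≤ 0 →
    |∑' j : ℕ, ψ (((j : ℝ) + 1) * Real.exp (x / 2)) - 1 / 2 * Real.exp (-(x / 2)) * ∫ t, ψ t| ≤
      C := by
  obtain ⟨g, hg0, hg⟩ := qe1_poisson ψ
  obtain ⟨C, hC0, hC⟩ := g.decay 2 0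
  have hC' : ∀ t : ℝ, |t| ^ 2 * ‖g t‖ ≤ C := by
    intro t
    have := hC t
    rwa [norm_iteratedFDeriv_zero, Real.norm_eq_abs] at this
  have hsum : Summable fun n : ℤ => 1 / (n : ℝ) ^ 2 :=
    Real.summable_one_div_int_pow.2 one_lt_two
  set S : ℝ := ∑' n : ℤ, 1 / (n : ℝ) ^ 2 with hS
  refine ⟨|ψ 0| / 2 + C * S / 2, fun x hx => ?_⟩
  set l : ℝ := Real.exp (x / 2) with hl
  have hl0 : 0 < l := Real.exp_pos _
  have hl1 : l ≤ 1 := by
    rw [hl, Real.exp_le_one_iff]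
    linarith
  have hli : Real.exp (-(x / 2)) = l⁻¹ := by
    rw [hl, Real.exp_neg]
  rw [hli]
  -- the left side as a sum over the integers
  set F : ℤ → ℂ := fun n => (ψ (l * n) : ℂ) with hF
  have hFn : ∀ n : ℤ, ‖F n‖ = ‖qe1_sc l hl0.ne' ψ n‖ := by
    intro n
    rw [hF, qe1_sc_apply, Complex.norm_real, mul_comm]
  have hFs : Summable F := by
    refine Summable.of_norm ?_
    simp only [hFn]
    exact qe1_summable _
  have hFe : Function.Even F := by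
    intro n
    simp only [hF]
    have h1 : l * ((-n : ℤ) : ℝ) = -(l * n) := by push_cast; ring
    rw [h1, he]
  have h1 : ∑' n : ℤ, F n = F 0 + 2 * ∑' n : ℕ+, F n := by
    have := tsum_int_eq_zero_add_two_mul_tsum_pnat hFe hFs
    rwa [two_nsmul, ← two_mul] at this
  have h2 : ∑' n : ℕ+, F n = ∑' j : ℕ, F ((j : ℤ) + 1) := by
    have := tsum_pnat_eq_tsum_succ (f := fun n : ℕ => F (n : ℤ))
    push_cast at this
    exact this
  have h3 : ∀ j : ℕ, F ((j : ℤ) + 1) = ((ψ (((j : ℝ) + 1) * l) : ℝ) : ℂ) := by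
    intro j
    simp only [hF]
    push_cast
    rw [mul_comm l]
  have h4 : F 0 = ((ψ 0 : ℝ) : ℂ) := by
    simp [hF]
  have h5 : ((ψ 0 + 2 * ∑' j : ℕ, ψ (((j : ℝ) + 1) * l) : ℝ) : ℂ) =
      ∑' n : ℤ, ((l⁻¹ : ℝ) : ℂ) * g (n * l⁻¹) := by
    rw [← hg l hl0]
    change _ = ∑' n : ℤ, F n
    rw [h1, h2, h4]
    simp only [h3]
    push_cast
    rfl
  -- the dual side
  set G : ℤ → ℂ := fun n => ((l⁻¹ : ℝ) : ℂ) * g (n * l⁻¹) with hG
  have hGb : ∀ n : ℤ, n ≠ 0 → ‖G n‖ ≤ C * (1 / (n : ℝ) ^ 2) := by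
    intro n hn
    have hn0 : (n : ℝ) ≠ 0 := by exact_mod_cast hn
    simp only [hG]
    rw [norm_mul, Complex.norm_real, Real.norm_eq_abs, abs_of_pos (inv_pos.2 hl0)]
    have h8 := hC' (n * l⁻¹)
    rw [abs_mul, abs_of_pos (inv_pos.2 hl0), mul_pow, sq_abs] at h8
    have hnp : 0 < (n : ℝ) ^ 2 := by positivity
    rw [mul_one_div, le_div_iff₀ hnp]
    have h9 : l⁻¹ * ‖g (n * l⁻¹)‖ * (n : ℝ) ^ 2 = l * ((n : ℝ) ^ 2 * l⁻¹ ^ 2 * ‖g (n * l⁻¹)‖) := by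
      field_simp
    rw [h9]
    calc l * ((n : ℝ) ^ 2 * l⁻¹ ^ 2 * ‖g (n * l⁻¹)‖) ≤ 1 * C :=
          mul_le_mul hl1 h8 (by positivity) zero_le_one
      _ = C := one_mul C
  have hGs : Summable G := by
    have : Summable fun n : ℤ => ‖qe1_sc l⁻¹ (inv_ne_zero hl0.ne') g n‖ := qe1_summable _
    refine Summable.of_norm ?_
    refine (this.mul_left l⁻¹).congr fun n => ?_
    simp only [hG]
    rw [norm_mul, Complex.norm_real, Real.norm_eq_abs, abs_of_pos (inv_pos.2 hl0), qe1_sc_apply]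
  have h6 : ∑' n : ℤ, G n = G 0 + ∑' n : ℤ, (if n = 0 then 0 else G n) :=
    hGs.tsum_eq_add_tsum_ite 0
  have h7 : ‖∑' n : ℤ, (if n = 0 then 0 else G n)‖ ≤ C * S := by
    rw [hS, ← tsum_mul_left]
    refine tsum_of_norm_bounded (hsum.mul_left _).hasSum fun n => ?_
    by_cases hn : n = 0
    · simp [hn]
    · rw [if_neg hn]
      exact hGb n hn
  have h8 : G 0 = ((l⁻¹ * ∫ t, ψ t : ℝ) : ℂ) := by
    simp only [hG]
    rw [Int.cast_zero, zero_mul, hg0]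
    push_cast
    rfl
  have h9 : ((ψ 0 + 2 * ∑' j : ℕ, ψ (((j : ℝ) + 1) * l) - l⁻¹ * ∫ t, ψ t : ℝ) : ℂ) =
      ∑' n : ℤ, (if n = 0 then 0 else G n) := by
    rw [Complex.ofReal_sub, h5, h6, h8]
    ring
  have h10 : |ψ 0 + 2 * ∑' j : ℕ, ψ (((j : ℝ) + 1) * l) - l⁻¹ * ∫ t, ψ t| ≤ C * S := by
    rw [← Real.norm_eq_abs, ← Complex.norm_real, h9]
    exact h7
  have h11 : ∑' j : ℕ, ψ (((j : ℝ) + 1) * l) - 1 / 2 * l⁻¹ * ∫ t, ψ t =
      (ψ 0 + 2 * ∑' j : ℕ, ψ (((j : ℝ) + 1) * l) - l⁻¹ * ∫ t, ψ t) / 2 - ψ 0 / 2 := by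
    ring
  rw [h11]
  refine (abs_sub _ _).trans ?_
  rw [abs_div, abs_div, abs_of_pos (two_pos : (0 : ℝ) < 2)]
  linarith

end Pool.Agent.MP0016c7.Rz
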