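import Mathlib
import Pool.Agent.Lib.MP_0016c7_nt.Rz.Defs
import Pool.Agent.Lib.MP_0016c7_nt.Qls.QDefs

set_option autoImplicit false

open Finset MeasureTheory Filter Topology
open scoped Real

namespace Pool.Agent.MP0016c7.Rz

private theorem qg1_mono (m : ℕ) (x : ℝ) :
    |x| ^ m * Real.exp (-π * x ^ 4) ≤ m.factorial * Real.exp 1 := by
  have h1 : Real.exp (-π * x ^ 4) ≤ Real.exp 1 * Real.exp (-|x|) := by
    rw [← Real.exp_add]
    refine Real.exp_le_exp.2 ?_
    have hpi := Real.pi_gt_three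
    have h4 : x ^ 4 = |x| ^ 4 := by rw [← abs_pow, abs_of_nonneg (by positivity)]
    rw [h4]
    have h0 := abs_nonneg x
    rcases le_total |x| 1 with h | h
    · have : 0 ≤ π * |x| ^ 4 := by positivity
      linarith
    · have h5 : |x| ≤ |x| ^ 4 := by
        calc |x| = |x| ^ 1 := (pow_one _).symm
          _ ≤ |x| ^ 4 := pow_le_pow_right₀ h (by norm_num)
      nlinarith
  have h2 : |x| ^ m ≤ m.factorial * Real.exp |x| := by
    have := Real.pow_div_factorial_le_exp |x| (abs_nonneg x) m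
    rw [div_le_iff₀ (by positivity)] at this
    linarith
  calc |x| ^ m * Real.exp (-π * x ^ 4)
      ≤ (m.factorial * Real.exp |x|) * (Real.exp 1 * Real.exp (-|x|)) := by
        refine mul_le_mul h2 h1 (Real.exp_pos _).le (by positivity)
    _ = m.factorial * Real.exp 1 * (Real.exp |x| * Real.exp (-|x|)) := by ring
    _ = m.factorial * Real.exp 1 := by rw [← Real.exp_add]; simp

private theorem qg1_poly (p : Polynomial ℝ) (n : ℕ) :
    ∃ C : ℝ, ∀ x : ℝ, |x| ^ n * |p.eval x * Real.exp (-π * x ^ 4)| ≤ C := by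
  refine ⟨∑ i ∈ range (p.natDegree + 1), |p.coeff i| * ((n + i).factorial * Real.exp 1),
    fun x => ?_⟩
  rw [abs_mul, abs_of_pos (Real.exp_pos _), Polynomial.eval_eq_sum_range]
  calc |x| ^ n * (|∑ i ∈ range (p.natDegree + 1), p.coeff i * x ^ i| * Real.exp (-π * x ^ 4))
      ≤ |x| ^ n * ((∑ i ∈ range (p.natDegree + 1), |p.coeff i| * |x| ^ i) *
          Real.exp (-π * x ^ 4)) := by
        gcongr
        refine (abs_sum_le_sum_abs _ _).trans (le_of_eq ?_)
        exact sum_congr rfl fun i _ => by rw [abs_mul, abs_pow]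
    _ = ∑ i ∈ range (p.natDegree + 1), |p.coeff i| * (|x| ^ (n + i) * Real.exp (-π * x ^ 4)) := by
        rw [sum_mul, mul_sum]
        exact sum_congr rfl fun i _ => by rw [pow_add]; ring
    _ ≤ _ := by
        refine sum_le_sum fun i _ => ?_
        exact mul_le_mul_of_nonneg_left (qg1_mono _ _) (abs_nonneg _)

private noncomputable def qg1P : ℕ → Polynomial ℝ
  | 0 => 1
  | n + 1 => Polynomial.derivative (qg1P n) - Polynomial.C (4 * π) * Polynomial.X ^ 3 * qg1P n

private noncomputable def qg1g (n : ℕ) (x : ℝ) : ℝ := (qg1P n).eval x * Real.exp (-π * x ^ 4)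

private theorem qg1_deriv (n : ℕ) (x : ℝ) : HasDerivAt (qg1g n) (qg1g (n + 1) x) x := by
  have h1 : HasDerivAt (fun x : ℝ => Real.exp (-π * x ^ 4))
      (Real.exp (-π * x ^ 4) * (-π * (4 * x ^ 3))) x := by
    have := ((hasDerivAt_pow 4 x).const_mul (-π)).exp
    simpa using this
  have h2 := ((qg1P n).hasDerivAt x).mul h1
  refine h2.congr_deriv ?_
  simp only [qg1g, qg1P, Polynomial.eval_sub, Polynomial.eval_mul, Polynomial.eval_C,
    Polynomial.eval_pow, Polynomial.eval_X]
  ring

theorem exp4_schwartz : ∃ ψ : SchwartzMap ℝ ℝ, ∀ t : ℝ, ψ t = Real.exp (-π * t ^ 4) := by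
  have hder : ∀ k, deriv (qg1g k) = qg1g (k + 1) := fun k => funext fun x => (qg1_deriv k x).deriv
  have hit : ∀ k, iteratedDeriv k (qg1g 0) = qg1g k := by
    intro k
    induction k with
    | zero => exact iteratedDeriv_zero
    | succ k ih => rw [iteratedDeriv_succ, ih, hder]
  have hcd : ∀ (n : ℕ) (k : ℕ), ContDiff ℝ n (qg1g k) := by
    intro n
    induction n with
    | zero =>
      intro k
      rw [Nat.cast_zero, contDiff_zero]
      exact continuous_iff_continuousAt.2 fun x => (qg1_deriv k x).continuousAt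
    | succ n ih =>
      intro k
      rw [Nat.cast_add, Nat.cast_one, contDiff_succ_iff_deriv]
      refine ⟨fun x => (qg1_deriv k x).differentiableAt, ?_, ?_⟩
      · intro h
        exact absurd h (by simp)
      · rw [hder]; exact ih (k + 1)
  refine ⟨⟨qg1g 0, ?_, ?_⟩, fun x => ?_⟩
  · exact contDiff_infty.2 fun n => hcd n 0
  · intro k n
    obtain ⟨C, hC⟩ := qg1_poly (qg1P n) k
    refine ⟨C, fun x => ?_⟩
    rw [norm_iteratedFDeriv_eq_norm_iteratedDeriv, hit, Real.norm_eq_abs, Real.norm_eq_abs]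
    exact hC x
  · show qg1g 0 x = _
    simp [qg1g, qg1P]

end Pool.Agent.MP0016c7.Rz
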