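import Mathlib
import Pool.Agent.Lib.MP_0016c7_nt.Rz.Defs
import Pool.Agent.Lib.MP_0016c7_nt.Rz.ErrD5
import Pool.Agent.Lib.MP_0016c7_nt.Qls.QDefs
import Pool.Agent.Lib.MP_0016c7_nt.Qls.QG1
import Pool.Agent.Lib.MP_0016c7_nt.Qls.QE1

set_option autoImplicit false

open Finset MeasureTheory Filter Topology
open scoped Real

namespace Pool.Agent.MP0016c7.Rz

namespace QE2

open ErrD5

/-- the remainder function of an even Schwartz function -/
noncomputable def EP (P : SchwartzMap ℝ ℝ) (x : ℝ) : ℝ :=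
  ∑' j : ℕ, P (((j : ℝ) + 1) * Real.exp (x / 2)) - 1 / 2 * Real.exp (-(x / 2)) * ∫ t, P t

noncomputable def hul (P : SchwartzMap ℝ ℝ) : SchwartzMap ℝ ℝ := (1 / 2 : ℝ) • eul P

theorem hul_apply (P : SchwartzMap ℝ ℝ) (t : ℝ) : hul P t = t / 2 * deriv P t := by
  unfold hul
  rw [smul_apply, eul_apply, smul_eq_mul]
  ring

theorem integral_hul (P : SchwartzMap ℝ ℝ) : ∫ t, hul P t = -(1 / 2) * ∫ t, P t := by
  have hint1 : Integrable (fun t : ℝ => t * deriv P t) := by
    have h := (eul P).integrable (μ := volume)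
    refine h.congr (Eventually.of_forall fun t => ?_)
    exact eul_apply P t
  have hint2 : Integrable (fun t : ℝ => (1 : ℝ) * P t) := by
    simpa using P.integrable (μ := volume)
  have hint3 : Integrable (fun t : ℝ => t * P t) := by
    have h := (SchwartzMap.smulLeftCLM ℝ (fun t : ℝ => t) P).integrable (μ := volume)
    refine h.congr (Eventually.of_forall fun t => ?_)
    simp only [SchwartzMap.smulLeftCLM_apply_apply Function.HasTemperateGrowth.id', smul_eq_mul]
  have h := integral_mul_deriv_eq_deriv_mul_of_integrable (u := fun t : ℝ => t)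
    (v := fun t => P t) (u' := fun _ => (1 : ℝ)) (v' := fun t => deriv P t)
    (fun t _ => hasDerivAt_id t) (fun t _ => P.hasDerivAt t) hint1 hint2 hint3
  have e : (fun t => hul P t) = fun t => (1 / 2 : ℝ) * (t * deriv P t) := by
    funext t
    rw [hul_apply]; ring
  rw [e, integral_const_mul, h]
  simp only [one_mul]
  ring

theorem EP_deriv (P : SchwartzMap ℝ ℝ) (x : ℝ) : HasDerivAt (EP P) (EP (hul P) x) x := by
  obtain ⟨_, h1⟩ := plain_sum_deriv P (hul P) (hul_apply P) x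
  have h2 : HasDerivAt (fun x : ℝ => 1 / 2 * Real.exp (-(x / 2)) * ∫ t, P t)
      (1 / 2 * (Real.exp (-(x / 2)) * (-(1 / 2))) * ∫ t, P t) x := by
    have h3 : HasDerivAt (fun x : ℝ => Real.exp (-(x / 2))) (Real.exp (-(x / 2)) * (-(1 / 2))) x :=
      (((hasDerivAt_id x).div_const 2).neg).exp
    exact (h3.const_mul (1 / 2)).mul_const _
  have h4 := h1.sub h2
  refine h4.congr_deriv ?_
  unfold EP
  rw [integral_hul]
  ring

theorem EP_summable (P : SchwartzMap ℝ ℝ) (x : ℝ) :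
    Summable (fun j : ℕ => P (((j : ℝ) + 1) * Real.exp (x / 2))) :=
  (plain_sum_deriv P (hul P) (hul_apply P) x).1.of_abs

theorem EP_add (P Q : SchwartzMap ℝ ℝ) (x : ℝ) : EP (P + Q) x = EP P x + EP Q x := by
  unfold EP
  have h1 : (∫ t, (P + Q) t) = (∫ t, P t) + ∫ t, Q t := by
    simp only [add_apply]
    exact integral_add P.integrable Q.integrable
  have h2 : (∑' j : ℕ, (P + Q) (((j : ℝ) + 1) * Real.exp (x / 2))) =
      (∑' j : ℕ, P (((j : ℝ) + 1) * Real.exp (x / 2))) +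
        ∑' j : ℕ, Q (((j : ℝ) + 1) * Real.exp (x / 2)) := by
    simp only [add_apply]
    exact (EP_summable P x).tsum_add (EP_summable Q x)
  rw [h1, h2]
  ring

theorem EP_smul (c : ℝ) (P : SchwartzMap ℝ ℝ) (x : ℝ) : EP (c • P) x = c * EP P x := by
  unfold EP
  have h1 : (∫ t, (c • P) t) = c * ∫ t, P t := by
    simp only [smul_apply, smul_eq_mul]
    exact integral_const_mul _ _
  have h2 : (∑' j : ℕ, (c • P) (((j : ℝ) + 1) * Real.exp (x / 2))) =
      c * ∑' j : ℕ, P (((j : ℝ) + 1) * Real.exp (x / 2)) := by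
    simp only [smul_apply, smul_eq_mul]
    exact tsum_mul_left
  rw [h1, h2]
  ring

theorem hul_even (P : SchwartzMap ℝ ℝ) (he : ∀ t, P (-t) = P t) (t : ℝ) :
    hul P (-t) = hul P t := by
  rw [hul_apply, hul_apply]
  have h : deriv P (-t) = - deriv P t := by
    have h1 : (fun t => P (-t)) = fun t => P t := funext he
    have h2 := deriv_comp_neg (f := fun t => P t) (x := t)
    rw [h1] at h2
    have h3 : deriv (fun t => P t) = deriv P := rfl
    rw [h3] at h2
    linarith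
  rw [h]
  ring

/-- the chain -/
noncomputable def Ch (σ : ℝ) (ψ : SchwartzMap ℝ ℝ) (k : ℕ) : SchwartzMap ℝ ℝ :=
  Nat.rec ψ (fun _ χ => hul χ + σ • χ) k

theorem Ch_succ (σ : ℝ) (ψ : SchwartzMap ℝ ℝ) (k : ℕ) :
    Ch σ ψ (k + 1) = hul (Ch σ ψ k) + σ • Ch σ ψ k := rfl

theorem Ch_even (σ : ℝ) (ψ : SchwartzMap ℝ ℝ) (he : ∀ t, ψ (-t) = ψ t) (k : ℕ) :
    ∀ t, Ch σ ψ k (-t) = Ch σ ψ k t := by
  induction k with
  | zero => exact he
  | succ k ih =>
    intro t
    rw [Ch_succ]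
    simp only [add_apply, smul_apply]
    rw [hul_even _ ih, ih]

theorem EP_bound (P : SchwartzMap ℝ ℝ) (he : ∀ t, P (-t) = P t) :
    ∃ C : ℝ, 0 ≤ C ∧ (∀ x ≤ 0, |EP P x| ≤ C) ∧ ∀ x, 0 ≤ x → |EP P x| ≤ C * Real.exp (-(1 / 2) * x) := by
  obtain ⟨C1, h1⟩ := plain_sum_bound_neg P he
  obtain ⟨C2, h2⟩ := plain_sum_bound P (1 / 2)
  refine ⟨|C1| + |C2| + |∫ t, P t|, by positivity, fun x hx => ?_, fun x hx => ?_⟩
  · refine (h1 x hx).trans ?_
    have := le_abs_self C1
    have := abs_nonneg C2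
    have := abs_nonneg (∫ t, P t)
    linarith
  · have h3 := h2 x hx
    unfold EP
    have h4 : |1 / 2 * Real.exp (-(x / 2)) * ∫ t, P t| ≤
        |∫ t, P t| * Real.exp (-(1 / 2) * x) := by
      rw [abs_mul, abs_mul, abs_of_pos (Real.exp_pos _), abs_of_pos (by norm_num : (0 : ℝ) < 1 / 2),
        show -(x / 2) = -(1 / 2) * x by ring]
      have := abs_nonneg (∫ t, P t)
      have := Real.exp_pos (-(1 / 2) * x)
      nlinarith [mul_nonneg (abs_nonneg (∫ t, P t)) (Real.exp_pos (-(1 / 2) * x)).le]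
    have h5 : C2 * Real.exp (-(1 / 2) * x) ≤ |C2| * Real.exp (-(1 / 2) * x) := by
      gcongr
      exact le_abs_self C2
    have h6 : 0 ≤ |C1| * Real.exp (-(1 / 2) * x) := by positivity
    calc _ ≤ |∑' j : ℕ, P (((j : ℝ) + 1) * Real.exp (x / 2))| +
          |1 / 2 * Real.exp (-(x / 2)) * ∫ t, P t| := abs_sub _ _
      _ ≤ |C2| * Real.exp (-(1 / 2) * x) + |∫ t, P t| * Real.exp (-(1 / 2) * x) := by linarith
      _ ≤ _ := by nlinarith

theorem g_schwartz (σ : ℝ) (h0 : 0 < σ) (h1 : σ < 1 / 2) (ψ : SchwartzMap ℝ ℝ)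
    (he : ∀ t, ψ (-t) = ψ t) :
    ∃ φ : SchwartzMap ℝ ℂ, ∀ x, φ x = ((Real.exp (σ * x) * EP ψ x : ℝ) : ℂ) := by
  refine exists_schwartz_of_chain
    (fun k x => ((Real.exp (σ * x) * EP (Ch σ ψ k) x : ℝ) : ℂ)) (min σ (1 / 2 - σ))
    (lt_min h0 (by linarith)) ?_ ?_
  · intro k x
    have d1 : HasDerivAt (fun x : ℝ => Real.exp (σ * x)) (Real.exp (σ * x) * σ) x := by
      have : HasDerivAt (fun x : ℝ => σ * x) (σ * 1) x := (hasDerivAt_id x).const_mul σ
      rw [mul_one] at this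
      exact this.exp
    have d2 := EP_deriv (Ch σ ψ k) x
    refine ((d1.mul d2).ofReal_comp).congr_deriv ?_
    rw [Ch_succ, EP_add, EP_smul]
    congr 1
    ring
  · intro k
    obtain ⟨C, hC, hn, hp⟩ := EP_bound (Ch σ ψ k) (Ch_even σ ψ he k)
    refine ⟨C, fun x => ?_⟩
    rw [Complex.norm_real, norm_mul, Real.norm_eq_abs, Real.norm_eq_abs,
      abs_of_pos (Real.exp_pos _)]
    rcases le_total x 0 with hx | hx
    · rw [abs_of_nonpos hx]
      calc Real.exp (σ * x) * |EP (Ch σ ψ k) x| ≤ Real.exp (σ * x) * C := by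
            gcongr
            exact hn x hx
        _ = C * Real.exp (σ * x) := mul_comm _ _
        _ ≤ C * Real.exp (-min σ (1 / 2 - σ) * -x) := by
            refine mul_le_mul_of_nonneg_left (Real.exp_le_exp.2 ?_) hC
            have h5 := mul_le_mul_of_nonpos_right (min_le_left σ (1 / 2 - σ)) hx
            linarith
    · rw [abs_of_nonneg hx]
      calc Real.exp (σ * x) * |EP (Ch σ ψ k) x| ≤
            Real.exp (σ * x) * (C * Real.exp (-(1 / 2) * x)) := by
            gcongr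
            exact hp x hx
        _ = C * Real.exp (-(1 / 2 - σ) * x) := by
            rw [show -(1 / 2 - σ) * x = σ * x + -(1 / 2) * x by ring, Real.exp_add]
            ring
        _ ≤ C * Real.exp (-min σ (1 / 2 - σ) * x) := by
            gcongr
            exact min_le_right _ _

theorem EE_eq (ψ : SchwartzMap ℝ ℝ) (hψ : ∀ t : ℝ, ψ t = Real.exp (-π * t ^ 4)) (x : ℝ) :
    EE (Real.exp x) = EP ψ x := by
  unfold EE EP Th cE
  congr 1
  · congr 1
    funext t
    rw [hψ]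
    congr 1
    have : Real.exp x ^ 2 = Real.exp (x / 2) ^ 4 := by
      rw [← Real.exp_nat_mul, ← Real.exp_nat_mul]
      congr 1
      push_cast
      ring
    rw [this]
    ring
  · have h1 : (∫ t, ψ t) = 2 * ∫ t in Set.Ioi (0 : ℝ), Real.exp (-π * t ^ 4) := by
      rw [← integral_comp_abs (f := fun t : ℝ => Real.exp (-π * t ^ 4))]
      congr 1
      funext t
      rw [hψ]
      congr 2
      rw [show (4 : ℕ) = 2 * 2 by norm_num, pow_mul, pow_mul, sq_abs]
    rw [h1]
    have h2 : √(Real.exp x) = Real.exp (x / 2) := by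
      rw [Real.sqrt_eq_iff_mul_self_eq (Real.exp_pos _).le (Real.exp_pos _).le, ← Real.exp_add]
      congr 1
      ring
    rw [h2, Real.exp_neg]
    field_simp

end QE2

open QE2 in
open scoped SchwartzMap FourierTransform in
theorem EE_mellin (σ : ℝ) (h0 : 0 < σ) (h1 : σ < 1 / 2) : ∃ f : ℝ → ℂ, Continuous f ∧ MelE σ f := by
  obtain ⟨ψ, hψ⟩ := exp4_schwartz
  have he : ∀ t, ψ (-t) = ψ t := by
    intro t
    rw [hψ, hψ]
    congr 2
    ring
  obtain ⟨φ, hφ⟩ := g_schwartz σ h0 h1 ψ he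
  set Ψ : SchwartzMap ℝ ℂ := 𝓕 φ with hΨ
  have hpi : (0 : ℝ) < 2 * π := by positivity
  have hne : (-(1 / (2 * π)) : ℝ) ≠ 0 := by
    have : (1 / (2 * π) : ℝ) ≠ 0 := by positivity
    exact neg_ne_zero.2 this
  refine ⟨fun τ => (1 / (2 * π) : ℝ) * Ψ (-(1 / (2 * π)) * τ), ?_, ?_, ?_⟩
  · have := Ψ.continuous
    fun_prop
  · have H : Integrable (fun v : ℝ => ((1 / (2 * π) : ℝ) : ℂ) * Ψ v) := Ψ.integrable.const_mul _
    exact H.comp_mul_left' hne
  · intro t ht
    have hx := hφ (Real.log t)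
    rw [← EE_eq ψ hψ, Real.exp_log ht] at hx
    have hinv : φ (Real.log t) = 𝓕⁻ (Ψ : ℝ → ℂ) (Real.log t) := by
      have h1 : 𝓕⁻ (𝓕 (φ : ℝ → ℂ)) = φ :=
        φ.continuous.fourierInv_fourier_eq φ.integrable (by
          rw [← SchwartzMap.fourier_coe]; exact (𝓕 φ).integrable)
      rw [hΨ, SchwartzMap.fourier_coe, h1]
    rw [Real.fourierInv_eq'] at hinv
    have hcomp := Measure.integral_comp_mul_left
      (fun v : ℝ => Complex.exp (↑(2 * π * inner ℝ v (Real.log t)) * Complex.I) • Ψ v)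
      (-(1 / (2 * π)))
    rw [show |(-(1 / (2 * π)))⁻¹| = 2 * π by
      rw [abs_inv, abs_neg, abs_of_pos (by positivity)]; field_simp] at hcomp
    have hE : (Real.exp (σ * Real.log t) : ℂ) ≠ 0 := by exact_mod_cast (Real.exp_pos _).ne'
    have key : (EE t : ℂ) = (Real.exp (σ * Real.log t) : ℂ)⁻¹ * φ (Real.log t) := by
      rw [hx]
      push_cast
      field_simp
    rw [key, hinv]
    have h3 : (∫ v : ℝ, Complex.exp (↑(2 * π * inner ℝ v (Real.log t)) * Complex.I) • Ψ v) =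
        ((1 / (2 * π) : ℝ) : ℂ) * ∫ τ : ℝ, Complex.exp (↑(2 * π *
          inner ℝ (-(1 / (2 * π)) * τ) (Real.log t)) * Complex.I) • Ψ (-(1 / (2 * π)) * τ) := by
      rw [hcomp]
      rw [Complex.real_smul, ← mul_assoc]
      have : ((1 / (2 * π) : ℝ) : ℂ) * ((2 * π : ℝ) : ℂ) = 1 := by
        rw [← Complex.ofReal_mul]
        rw [show (1 / (2 * π) : ℝ) * (2 * π) = 1 by field_simp]
        simp
      rw [this, one_mul]
    rw [h3, ← mul_assoc, ← integral_const_mul]
    congr 1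
    funext τ
    have e1 : (t : ℂ) ^ (-((σ : ℂ) + Complex.I * τ)) =
        (Real.exp (σ * Real.log t) : ℂ)⁻¹ *
          Complex.exp (↑(2 * π * inner ℝ (-(1 / (2 * π)) * τ) (Real.log t)) * Complex.I) := by
      rw [Complex.cpow_def_of_ne_zero (by exact_mod_cast ht.ne'), ← Complex.ofReal_log ht.le,
        Complex.ofReal_exp, ← Complex.exp_neg, ← Complex.exp_add]
      congr 1
      have e2 : 2 * π * inner ℝ (-(1 / (2 * π)) * τ) (Real.log t) = - τ * Real.log t := by
        simp only [RCLike.inner_apply, conj_trivial]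
        field_simp
      rw [e2]
      push_cast
      ring
    rw [e1, smul_eq_mul]
    ring

end Pool.Agent.MP0016c7.Rz
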