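import Mathlib
import Pool.Agent.Lib.MP_0016c7_nt.Rz.Defs
import Pool.Agent.Lib.MP_0016c7_nt.Qls.QDefs
import Pool.Agent.Lib.MP_0016c7_nt.Qls.QJr
import Pool.Agent.Lib.MP_0016c7_nt.Qls.QA1

set_option autoImplicit false

open Finset MeasureTheory Filter Topology
open scoped Real

namespace Pool.Agent.MP0016c7.Rz

namespace QB1

/-- `z = ∫ f φ` -/
def Rep (f φ : ℝ → ℂ) (z : ℂ) : Prop :=
  Integrable (fun τ => f τ * φ τ) ∧ ∫ τ, f τ * φ τ = z

theorem Rep.sum {ι : Type} {f : ℝ → ℂ} (s : Finset ι) (φ : ι → ℝ → ℂ) (z : ι → ℂ)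
    (h : ∀ i ∈ s, Rep f (φ i) (z i)) : Rep f (fun τ => ∑ i ∈ s, φ i τ) (∑ i ∈ s, z i) := by
  constructor
  · have : (fun τ => f τ * ∑ i ∈ s, φ i τ) = fun τ => ∑ i ∈ s, f τ * φ i τ := by
      funext τ
      rw [mul_sum]
    rw [this]
    exact integrable_finsetSum _ fun i hi => (h i hi).1
  · have : (fun τ => f τ * ∑ i ∈ s, φ i τ) = fun τ => ∑ i ∈ s, f τ * φ i τ := by
      funext τ
      rw [mul_sum]
    rw [this, integral_finsetSum _ fun i hi => (h i hi).1]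
    exact sum_congr rfl fun i hi => (h i hi).2

theorem Rep.const_mul {f φ : ℝ → ℂ} {z : ℂ} (c : ℂ) (h : Rep f φ z) :
    Rep f (fun τ => c * φ τ) (c * z) := by
  have e : (fun τ => f τ * (c * φ τ)) = fun τ => c * (f τ * φ τ) := by
    funext τ
    ring
  refine ⟨?_, ?_⟩
  · rw [e]
    exact h.1.const_mul c
  · rw [e, integral_const_mul, h.2]

theorem Rep.zero {f : ℝ → ℂ} : Rep f (fun _ => 0) 0 := by
  refine ⟨?_, ?_⟩
  · simp
  · simp

theorem mu_coprime (N x y : ℕ) (hx : x ≠ 0) (hxN : x ≤ N) (hy : y ≠ 0) :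
    ∑ b ∈ Icc 1 N, (if b ∣ x ∧ b ∣ y then (ArithmeticFunction.moebius b : ℂ) else 0) =
      if Nat.Coprime x y then 1 else 0 := by
  classical
  have h1 : (Icc 1 N).filter (fun b => b ∣ x ∧ b ∣ y) = (Nat.gcd x y).divisors := by
    ext e
    simp only [mem_filter, Nat.mem_divisors, mem_Icc]
    constructor
    · rintro ⟨_, h2, h3⟩
      exact ⟨Nat.dvd_gcd h2 h3, Nat.gcd_ne_zero_left hx⟩
    · rintro ⟨h1, h2⟩
      have h3 := h1.trans (Nat.gcd_dvd_left x y)
      exact ⟨⟨Nat.pos_of_dvd_of_pos h3 (by omega), (Nat.le_of_dvd (by omega) h3).trans hxN⟩, h3,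
        h1.trans (Nat.gcd_dvd_right _ _)⟩
  rw [← Finset.sum_filter, h1]
  have h2 := congrArg (fun f : ArithmeticFunction ℤ => f (Nat.gcd x y))
    ArithmeticFunction.moebius_mul_coe_zeta
  simp only [ArithmeticFunction.coe_mul_zeta_apply, ArithmeticFunction.one_apply] at h2
  have h3 : ((∑ e ∈ (Nat.gcd x y).divisors, ArithmeticFunction.moebius e : ℤ) : ℂ) =
      ((if Nat.gcd x y = 1 then 1 else 0 : ℤ) : ℂ) := by rw [h2]
  push_cast at h3
  exact h3

end QB1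

open QB1 in
theorem bilin {σ : ℝ} (h0 : 0 < σ) {f : ℝ → ℂ} (hf : MelE σ f) (K N : ℕ) (D B : ℝ) (hD : 0 ≤ D) (hB0 : 0 ≤ B)
    (hQ : QL K N D) (c lam : ℕ → ℝ) (hlam : ∀ k ∈ sf K, 0 < lam k)
    (hB : ∀ k ∈ sf K, |c k| * lam k ^ (-σ) ≤ B) (α v : ℕ → ℝ) (hv : ∀ x ∈ os N, 0 < v x) :
    |∑ k ∈ sf K, c k * ∑ x ∈ os N, ∑ y ∈ os N, (if Nat.Coprime x y then
        α x * α y * (jr k x * jr k y) * ∑ d₁ ∈ x.divisors, ∑ d₂ ∈ y.divisors,
          (ArithmeticFunction.moebius d₁ : ℝ) * (ArithmeticFunction.moebius d₂ : ℝ) *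
            EE (lam k * (v x * v y) * ((d₁ : ℝ) * d₂) ^ 2) else 0)| ≤
      2 * D * B * (∫ τ : ℝ, ‖f τ‖) *
        ∑ x ∈ os N, (x.divisors.card : ℝ) ^ 3 * (α x ^ 2 * v x ^ (-(2 * σ))) := by
  classical
  obtain ⟨hfi, hfE⟩ := hf
  set s : ℝ → ℂ := fun τ => -((σ : ℂ) + Complex.I * τ) with hs
  have hsre : ∀ τ, (s τ).re = -σ := by
    intro τ
    simp [hs]
  -- a single value
  have hrep : ∀ y : ℝ, 0 < y → Rep f (fun τ => (y : ℂ) ^ s τ) (EE y : ℂ) := by
    intro y hy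
    refine ⟨?_, (hfE y hy).symm⟩
    have hc : Continuous (fun τ : ℝ => (y : ℂ) ^ s τ) := by
      have : Continuous s := by
        simp only [hs]
        fun_prop
      exact this.const_cpow (Or.inl (by exact_mod_cast hy.ne'))
    refine hfi.mul_bdd (c := y ^ (-σ)) hc.aestronglyMeasurable (Eventually.of_forall fun τ => ?_)
    rw [Complex.norm_cpow_eq_rpow_re_of_pos hy, hsre]
  -- the complex function
  set G : ℝ → ℂ := fun τ => ∑ k ∈ sf K, (c k : ℂ) * ∑ x ∈ os N, ∑ y ∈ os N,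
    (if Nat.Coprime x y then
        ((α x * α y * (jr k x * jr k y) : ℝ) : ℂ) * ∑ d₁ ∈ x.divisors, ∑ d₂ ∈ y.divisors,
          (((ArithmeticFunction.moebius d₁ : ℝ) * (ArithmeticFunction.moebius d₂ : ℝ) : ℝ) : ℂ) *
            ((lam k * (v x * v y) * ((d₁ : ℝ) * d₂) ^ 2 : ℝ) : ℂ) ^ s τ else 0) with hG
  have hGrep : Rep f G ((∑ k ∈ sf K, c k * ∑ x ∈ os N, ∑ y ∈ os N, (if Nat.Coprime x y then
        α x * α y * (jr k x * jr k y) * ∑ d₁ ∈ x.divisors, ∑ d₂ ∈ y.divisors,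
          (ArithmeticFunction.moebius d₁ : ℝ) * (ArithmeticFunction.moebius d₂ : ℝ) *
            EE (lam k * (v x * v y) * ((d₁ : ℝ) * d₂) ^ 2) else 0) : ℝ) : ℂ) := by
    rw [Complex.ofReal_sum]
    refine Rep.sum _ _ _ fun k hk => ?_
    rw [Complex.ofReal_mul]
    refine Rep.const_mul _ ?_
    rw [Complex.ofReal_sum]
    refine Rep.sum _ _ _ fun x hx => ?_
    rw [Complex.ofReal_sum]
    refine Rep.sum _ _ _ fun y hy => ?_
    by_cases hxy : Nat.Coprime x y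
    · simp only [if_pos hxy]
      rw [Complex.ofReal_mul (α x * α y * (jr k x * jr k y))]
      refine Rep.const_mul _ ?_
      rw [Complex.ofReal_sum]
      refine Rep.sum _ _ _ fun d₁ hd₁ => ?_
      rw [Complex.ofReal_sum]
      refine Rep.sum _ _ _ fun d₂ hd₂ => ?_
      rw [Complex.ofReal_mul ((ArithmeticFunction.moebius d₁ : ℝ) *
        (ArithmeticFunction.moebius d₂ : ℝ))]
      refine Rep.const_mul _ (hrep _ ?_)
      have e1 := hlam k hk
      have e2 := hv x hx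
      have e3 := hv y hy
      have e4 : (0 : ℝ) < d₁ := by exact_mod_cast Nat.pos_of_mem_divisors hd₁
      have e5 : (0 : ℝ) < d₂ := by exact_mod_cast Nat.pos_of_mem_divisors hd₂
      positivity
    · simp only [if_neg hxy, Complex.ofReal_zero]
      exact Rep.zero
  -- the factorised form
  set e : ℝ → ℕ → ℂ := fun τ d => (((d : ℝ) ^ 2 : ℝ) : ℂ) ^ s τ with he
  set β : ℝ → ℕ → ℂ := fun τ x => (α x : ℂ) * (v x : ℂ) ^ s τ *
    ∑ d ∈ x.divisors, ((ArithmeticFunction.moebius d : ℝ) : ℂ) * e τ d with hβ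
  have hfac : ∀ τ, G τ = ∑ b ∈ Icc 1 N, (ArithmeticFunction.moebius b : ℂ) *
      ∑ k ∈ sf K, (c k : ℂ) * (lam k : ℂ) ^ s τ *
        (∑ x ∈ os N, (if b ∣ x then β τ x else 0) * (jr k x : ℂ)) ^ 2 := by
    intro τ
    have h1 : ∀ k ∈ sf K, ∀ x ∈ os N, ∀ y ∈ os N, (if Nat.Coprime x y then
        ((α x * α y * (jr k x * jr k y) : ℝ) : ℂ) * ∑ d₁ ∈ x.divisors, ∑ d₂ ∈ y.divisors,
          (((ArithmeticFunction.moebius d₁ : ℝ) * (ArithmeticFunction.moebius d₂ : ℝ) : ℝ) : ℂ) *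
            ((lam k * (v x * v y) * ((d₁ : ℝ) * d₂) ^ 2 : ℝ) : ℂ) ^ s τ else 0) =
        (lam k : ℂ) ^ s τ * ∑ b ∈ Icc 1 N, (ArithmeticFunction.moebius b : ℂ) *
          (((if b ∣ x then β τ x else 0) * (jr k x : ℂ)) *
            ((if b ∣ y then β τ y else 0) * (jr k y : ℂ))) := by
      intro k hk x hx y hy
      have hx' : 1 ≤ x ∧ x ≤ N := mem_Icc.1 (mem_filter.1 hx).1
      have hy' : 1 ≤ y ∧ y ≤ N := mem_Icc.1 (mem_filter.1 hy).1
      have e1 := hlam k hk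
      have e2 := hv x hx
      have e3 := hv y hy
      have hprod : ((α x * α y * (jr k x * jr k y) : ℝ) : ℂ) * ∑ d₁ ∈ x.divisors,
          ∑ d₂ ∈ y.divisors,
          (((ArithmeticFunction.moebius d₁ : ℝ) * (ArithmeticFunction.moebius d₂ : ℝ) : ℝ) : ℂ) *
            ((lam k * (v x * v y) * ((d₁ : ℝ) * d₂) ^ 2 : ℝ) : ℂ) ^ s τ =
          (lam k : ℂ) ^ s τ * ((β τ x * (jr k x : ℂ)) * (β τ y * (jr k y : ℂ))) := by
        have h2 : ∀ d₁ d₂ : ℕ, ((lam k * (v x * v y) * ((d₁ : ℝ) * d₂) ^ 2 : ℝ) : ℂ) ^ s τ =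
            (lam k : ℂ) ^ s τ * ((v x : ℂ) ^ s τ * (v y : ℂ) ^ s τ) * (e τ d₁ * e τ d₂) := by
          intro d₁ d₂
          have h3 : lam k * (v x * v y) * ((d₁ : ℝ) * d₂) ^ 2 =
              lam k * (v x * v y) * ((d₁ : ℝ) ^ 2 * (d₂ : ℝ) ^ 2) := by ring
          rw [h3, Complex.ofReal_mul, Complex.mul_cpow_ofReal_nonneg (by positivity) (by (clear * -; positivity)),
            Complex.ofReal_mul, Complex.mul_cpow_ofReal_nonneg (by positivity) (by positivity),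
            Complex.ofReal_mul (v x), Complex.mul_cpow_ofReal_nonneg (by positivity) (by positivity),
            Complex.ofReal_mul ((d₁ : ℝ) ^ 2),
            Complex.mul_cpow_ofReal_nonneg (by positivity) (by positivity)]
        simp only [h2, hβ]
        have h4 : ∑ d₁ ∈ x.divisors, ∑ d₂ ∈ y.divisors,
            (((ArithmeticFunction.moebius d₁ : ℝ) * (ArithmeticFunction.moebius d₂ : ℝ) : ℝ) : ℂ) *
            ((lam k : ℂ) ^ s τ * ((v x : ℂ) ^ s τ * (v y : ℂ) ^ s τ) * (e τ d₁ * e τ d₂)) =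
            (lam k : ℂ) ^ s τ * ((v x : ℂ) ^ s τ * (v y : ℂ) ^ s τ) *
            ((∑ d₁ ∈ x.divisors, ((ArithmeticFunction.moebius d₁ : ℝ) : ℂ) * e τ d₁) *
             (∑ d₂ ∈ y.divisors, ((ArithmeticFunction.moebius d₂ : ℝ) : ℂ) * e τ d₂)) := by
          rw [sum_mul_sum, mul_sum]
          refine sum_congr rfl fun d₁ _ => ?_
          rw [mul_sum]
          refine sum_congr rfl fun d₂ _ => ?_
          push_cast
          ring
        rw [h4]
        push_cast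
        ring
      have h5 : ∑ b ∈ Icc 1 N, (ArithmeticFunction.moebius b : ℂ) *
          (((if b ∣ x then β τ x else 0) * (jr k x : ℂ)) *
            ((if b ∣ y then β τ y else 0) * (jr k y : ℂ))) =
          (if Nat.Coprime x y then 1 else 0) * ((β τ x * (jr k x : ℂ)) * (β τ y * (jr k y : ℂ))) := by
        rw [← mu_coprime N x y (by omega) hx'.2 (by omega), sum_mul]
        refine sum_congr rfl fun b _ => ?_
        by_cases hbx : b ∣ x
        · by_cases hby : b ∣ y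
          · rw [if_pos hbx, if_pos hby, if_pos ⟨hbx, hby⟩]
          · rw [if_neg hby, if_neg (show ¬ (b ∣ x ∧ b ∣ y) from fun h => hby h.2)]
            ring
        · rw [if_neg hbx, if_neg (show ¬ (b ∣ x ∧ b ∣ y) from fun h => hbx h.1)]
          ring
      rw [h5]
      split_ifs with hxy
      · rw [hprod, one_mul]
      · ring
    simp only [hG]
    rw [sum_congr rfl fun k hk => by
      rw [sum_congr rfl fun x hx => sum_congr rfl fun y hy => h1 k hk x hx y hy]]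
    have h6 : ∀ k, ∑ x ∈ os N, ∑ y ∈ os N, (lam k : ℂ) ^ s τ * ∑ b ∈ Icc 1 N,
        (ArithmeticFunction.moebius b : ℂ) *
          (((if b ∣ x then β τ x else 0) * (jr k x : ℂ)) *
            ((if b ∣ y then β τ y else 0) * (jr k y : ℂ))) =
        ∑ b ∈ Icc 1 N, (ArithmeticFunction.moebius b : ℂ) * ((lam k : ℂ) ^ s τ *
        (∑ x ∈ os N, (if b ∣ x then β τ x else 0) * (jr k x : ℂ)) ^ 2) := by
      intro k
      have h7 : ∀ x y : ℕ, (lam k : ℂ) ^ s τ * ∑ b ∈ Icc 1 N,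
        (ArithmeticFunction.moebius b : ℂ) *
          (((if b ∣ x then β τ x else 0) * (jr k x : ℂ)) *
            ((if b ∣ y then β τ y else 0) * (jr k y : ℂ))) =
          ∑ b ∈ Icc 1 N, (ArithmeticFunction.moebius b : ℂ) * ((lam k : ℂ) ^ s τ *
          (((if b ∣ x then β τ x else 0) * (jr k x : ℂ)) *
            ((if b ∣ y then β τ y else 0) * (jr k y : ℂ)))) := by
        intro x y
        rw [mul_sum]
        refine sum_congr rfl fun b _ => ?_
        ring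
      simp only [h7]
      have h8 : ∀ F : ℕ → ℕ → ℕ → ℂ, ∑ x ∈ os N, ∑ y ∈ os N, ∑ b ∈ Icc 1 N, F b x y =
          ∑ b ∈ Icc 1 N, ∑ x ∈ os N, ∑ y ∈ os N, F b x y := by
        intro F
        calc _ = ∑ x ∈ os N, ∑ b ∈ Icc 1 N, ∑ y ∈ os N, F b x y :=
              sum_congr rfl fun x _ => sum_comm
          _ = _ := sum_comm
      rw [h8]
      refine sum_congr rfl fun b _ => ?_
      rw [sq, sum_mul_sum, mul_sum, mul_sum]
      refine sum_congr rfl fun x _ => ?_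
      rw [mul_sum, mul_sum]
    rw [sum_congr rfl fun k _ => by rw [h6 k, mul_sum], sum_comm]
    refine sum_congr rfl fun b _ => ?_
    rw [mul_sum]
    refine sum_congr rfl fun k _ => ?_
    ring
  -- the norm of the coefficients
  have hβn : ∀ τ, ∀ x ∈ os N, ‖β τ x‖ ^ 2 ≤
      (x.divisors.card : ℝ) ^ 2 * (α x ^ 2 * v x ^ (-(2 * σ))) := by
    intro τ x hx
    have e2 := hv x hx
    have h1 : ‖∑ d ∈ x.divisors, ((ArithmeticFunction.moebius d : ℝ) : ℂ) * e τ d‖ ≤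
        (x.divisors.card : ℝ) := by
      refine (norm_sum_le _ _).trans ?_
      refine (sum_le_card_nsmul _ _ 1 fun d hd => ?_).trans (by simp)
      have hd0 : (1 : ℝ) ≤ d := by exact_mod_cast Nat.pos_of_mem_divisors hd
      rw [norm_mul, Complex.norm_real]
      have h2 : ‖e τ d‖ ≤ 1 := by
        simp only [he]
        rw [Complex.norm_cpow_eq_rpow_re_of_pos (by positivity), hsre]
        exact Real.rpow_le_one_of_one_le_of_nonpos (one_le_pow₀ hd0) (by linarith)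
      have h3 : ‖(ArithmeticFunction.moebius d : ℝ)‖ ≤ 1 := by
        rw [Real.norm_eq_abs]
        exact_mod_cast ArithmeticFunction.abs_moebius_le_one (n := d)
      calc ‖(ArithmeticFunction.moebius d : ℝ)‖ * ‖e τ d‖ ≤ 1 * 1 := by gcongr
        _ = 1 := one_mul 1
    have h4 : ‖(v x : ℂ) ^ s τ‖ = v x ^ (-σ) := by
      rw [Complex.norm_cpow_eq_rpow_re_of_pos e2, hsre]
    simp only [hβ]
    rw [norm_mul, norm_mul, h4, Complex.norm_real, mul_pow, mul_pow, Real.norm_eq_abs, sq_abs]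
    have h5 : (v x ^ (-σ)) ^ 2 = v x ^ (-(2 * σ)) := by
      rw [← Real.rpow_natCast, ← Real.rpow_mul e2.le]
      congr 1
      push_cast
      ring
    rw [h5]
    calc α x ^ 2 * v x ^ (-(2 * σ)) * ‖∑ d ∈ x.divisors,
          ((ArithmeticFunction.moebius d : ℝ) : ℂ) * e τ d‖ ^ 2 ≤
        α x ^ 2 * v x ^ (-(2 * σ)) * (x.divisors.card : ℝ) ^ 2 := by (clear * - h1 e2; gcongr)
      _ = _ := by ring
  -- the bound for `G`
  have hGn : ∀ τ, ‖G τ‖ ≤ 2 * D * B *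
      ∑ x ∈ os N, (x.divisors.card : ℝ) ^ 3 * (α x ^ 2 * v x ^ (-(2 * σ))) := by
    intro τ
    rw [hfac]
    have hmu : ∀ b : ℕ, ‖(ArithmeticFunction.moebius b : ℂ)‖ ≤ 1 := by
      intro b
      rw [Complex.norm_intCast]
      exact_mod_cast ArithmeticFunction.abs_moebius_le_one (n := b)
    have h1 : ∀ b ∈ Icc 1 N, ‖(ArithmeticFunction.moebius b : ℂ) *
      ∑ k ∈ sf K, (c k : ℂ) * (lam k : ℂ) ^ s τ *
        (∑ x ∈ os N, (if b ∣ x then β τ x else 0) * (jr k x : ℂ)) ^ 2‖ ≤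
        B * (2 * D * ∑ x ∈ os N, ‖(if b ∣ x then β τ x else 0)‖ ^ 2) := by
      intro b _
      rw [norm_mul]
      have h2 : ‖∑ k ∈ sf K, (c k : ℂ) * (lam k : ℂ) ^ s τ *
        (∑ x ∈ os N, (if b ∣ x then β τ x else 0) * (jr k x : ℂ)) ^ 2‖ ≤
        ∑ k ∈ sf K, B * ‖∑ x ∈ os N, (if b ∣ x then β τ x else 0) * (jr k x : ℂ)‖ ^ 2 := by
        refine (norm_sum_le _ _).trans (sum_le_sum fun k hk => ?_)
        rw [norm_mul, norm_mul, norm_pow, Complex.norm_real,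
          Complex.norm_cpow_eq_rpow_re_of_pos (hlam k hk), hsre, Real.norm_eq_abs]
        exact mul_le_mul_of_nonneg_right (hB k hk) (by positivity)
      have h3 := QL_complex hD hQ (fun x => if b ∣ x then β τ x else 0)
      rw [← mul_sum] at h2
      calc ‖(ArithmeticFunction.moebius b : ℂ)‖ * ‖∑ k ∈ sf K, (c k : ℂ) * (lam k : ℂ) ^ s τ *
          (∑ x ∈ os N, (if b ∣ x then β τ x else 0) * (jr k x : ℂ)) ^ 2‖
          ≤ 1 * (B * ∑ k ∈ sf K, ‖∑ x ∈ os N, (if b ∣ x then β τ x else 0) *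
            (jr k x : ℂ)‖ ^ 2) := by
            refine mul_le_mul (hmu b) h2 (norm_nonneg _) zero_le_one
        _ = B * ∑ k ∈ sf K, ‖∑ x ∈ os N, (if b ∣ x then β τ x else 0) *
            (jr k x : ℂ)‖ ^ 2 := one_mul _
        _ ≤ _ := mul_le_mul_of_nonneg_left h3 hB0
    refine (norm_sum_le _ _).trans ((sum_le_sum h1).trans ?_)
    rw [← mul_sum, ← mul_sum, sum_comm]
    have h4 : ∀ x ∈ os N, ∑ b ∈ Icc 1 N, ‖(if b ∣ x then β τ x else 0)‖ ^ 2 ≤
        (x.divisors.card : ℝ) ^ 3 * (α x ^ 2 * v x ^ (-(2 * σ))) := by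
      intro x hx
      have hx' : 1 ≤ x ∧ x ≤ N := mem_Icc.1 (mem_filter.1 hx).1
      have h5 : ∑ b ∈ Icc 1 N, ‖(if b ∣ x then β τ x else 0)‖ ^ 2 =
          (x.divisors.card : ℝ) * ‖β τ x‖ ^ 2 := by
        have h6 : ∀ b ∈ Icc 1 N, ‖(if b ∣ x then β τ x else 0)‖ ^ 2 =
            if b ∣ x then ‖β τ x‖ ^ 2 else 0 := by
          intro b _
          split_ifs <;> simp
        rw [sum_congr rfl h6, ← sum_filter, sum_const, nsmul_eq_mul]
        congr 2
        congr 1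
        ext d
        simp only [mem_filter, mem_Icc, Nat.mem_divisors]
        constructor
        · rintro ⟨_, h⟩
          exact ⟨h, by omega⟩
        · rintro ⟨h, _⟩
          exact ⟨⟨Nat.pos_of_dvd_of_pos h (by omega), (Nat.le_of_dvd (by omega) h).trans hx'.2⟩, h⟩
      rw [h5]
      calc (x.divisors.card : ℝ) * ‖β τ x‖ ^ 2 ≤ (x.divisors.card : ℝ) *
          ((x.divisors.card : ℝ) ^ 2 * (α x ^ 2 * v x ^ (-(2 * σ)))) := by
            gcongr
            exact hβn τ x hx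
        _ = _ := by ring
    calc B * (2 * D * ∑ x ∈ os N, ∑ b ∈ Icc 1 N, ‖(if b ∣ x then β τ x else 0)‖ ^ 2) ≤
        B * (2 * D * ∑ x ∈ os N, (x.divisors.card : ℝ) ^ 3 * (α x ^ 2 * v x ^ (-(2 * σ)))) := by
          have := sum_le_sum h4
          gcongr
      _ = _ := by ring
  rw [← Real.norm_eq_abs, ← Complex.norm_real, ← hGrep.2]
  refine (norm_integral_le_integral_norm _).trans ?_
  set R := ∑ x ∈ os N, (x.divisors.card : ℝ) ^ 3 * (α x ^ 2 * v x ^ (-(2 * σ))) with hR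
  calc ∫ τ, ‖f τ * G τ‖ ≤ ∫ τ, ‖f τ‖ * (2 * D * B * R) := by
        refine integral_mono hGrep.1.norm (hfi.norm.mul_const _) fun τ => ?_
        simp only
        rw [norm_mul]
        exact mul_le_mul_of_nonneg_left (hGn τ) (norm_nonneg _)
    _ = 2 * D * B * (∫ τ : ℝ, ‖f τ‖) * R := by
        rw [integral_mul_const]
        ring

end Pool.Agent.MP0016c7.Rz
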