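import Mathlib
import Pool.Agent.Lib.MP_0016c7_nt.Rz.Defs
import Pool.Agent.Lib.MP_0016c7_nt.Qls.QDefs
import Pool.Agent.Lib.MP_0016c7_nt.Qls.QJr

set_option autoImplicit false

open Finset MeasureTheory Filter Topology
open scoped Real

namespace Pool.Agent.MP0016c7.Rz

private theorem mem_os' {N n : ℕ} : n ∈ os N ↔ (1 ≤ n ∧ n ≤ N) ∧ Odd n ∧ Squarefree n := by
  simp [os, Finset.mem_filter, Finset.mem_Icc]

private theorem os_of_dvd {N n g : ℕ} (hn : n ∈ os N) (hg : g ∣ n) : g ∈ os N := by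
  rw [mem_os'] at hn ⊢
  obtain ⟨⟨h1, h2⟩, h3, h4⟩ := hn
  have hle : g ≤ n := Nat.le_of_dvd (by omega) hg
  have hpos : 0 < g := Nat.pos_of_dvd_of_pos hg (by omega)
  refine ⟨⟨hpos, hle.trans h2⟩, ?_, h4.squarefree_of_dvd hg⟩
  exact h3.of_dvd_nat hg

private theorem os_div {N n g : ℕ} (hn : n ∈ os N) (hg : g ∣ n) : n / g ∈ os (N / g) := by
  have h0 := os_of_dvd hn (Nat.div_dvd_of_dvd hg)
  rw [mem_os'] at h0 hn ⊢
  refine ⟨⟨h0.1.1, Nat.div_le_div_right hn.1.2⟩, h0.2⟩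

theorem pair_gcd_sum (N : ℕ) (F : ℕ → ℕ → ℕ → ℝ) (a : ℕ → ℝ) (ha : ∀ n, a n ≠ 0 → n ∈ os N) :
    ∑ n₁ ∈ os N, ∑ n₂ ∈ os N, a n₁ * a n₂ *
        F (Nat.gcd n₁ n₂) (n₁ / Nat.gcd n₁ n₂) (n₂ / Nat.gcd n₁ n₂) =
      ∑ g ∈ os N, ∑ x ∈ os (N / g), ∑ y ∈ os (N / g),
        if Nat.Coprime x y then a (g * x) * a (g * y) * F g x y else 0 := by
  have e1 : ∀ g ∈ os N, (∑ x ∈ os (N / g), ∑ y ∈ os (N / g),
        if Nat.Coprime x y then a (g * x) * a (g * y) * F g x y else 0) =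
      ∑ x ∈ os N, ∑ y ∈ os N,
        if Nat.Coprime x y then a (g * x) * a (g * y) * F g x y else 0 := by
    intro g hg
    have hg0 : 0 < g := (mem_os'.1 hg).1.1
    have hsub : os (N / g) ⊆ os N := by
      intro x hx
      rw [mem_os'] at hx ⊢
      exact ⟨⟨hx.1.1, hx.1.2.trans (Nat.div_le_self _ _)⟩, hx.2⟩
    have hz : ∀ x ∈ os N, x ∉ os (N / g) → a (g * x) = 0 := by
      intro x hx hx'
      by_contra hne
      have h2 := ha _ hne
      apply hx'
      have := os_div h2 (Dvd.intro _ rfl)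
      rwa [Nat.mul_div_cancel_left _ hg0] at this
    rw [← Finset.sum_subset hsub (f := fun x => ∑ y ∈ os N,
        if Nat.Coprime x y then a (g * x) * a (g * y) * F g x y else 0)]
    · apply Finset.sum_congr rfl
      intro x _
      apply Finset.sum_subset hsub
      intro y hy hy'
      rw [hz y hy hy']
      simp
    · intro x hx hx'
      apply Finset.sum_eq_zero
      intro y _
      rw [hz x hx hx']
      simp
  rw [Finset.sum_congr rfl e1]
  rw [← Finset.sum_product' (os N) (os N) (fun n₁ n₂ => a n₁ * a n₂ *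
        F (Nat.gcd n₁ n₂) (n₁ / Nat.gcd n₁ n₂) (n₂ / Nat.gcd n₁ n₂))]
  have e2 : ∀ g ∈ os N, (∑ x ∈ os N, ∑ y ∈ os N,
        if Nat.Coprime x y then a (g * x) * a (g * y) * F g x y else 0) =
      ∑ p ∈ os N ×ˢ os N,
        if Nat.Coprime p.1 p.2 then a (g * p.1) * a (g * p.2) * F g p.1 p.2 else 0 := by
    intro g _
    rw [Finset.sum_product]
  rw [Finset.sum_congr rfl e2]
  rw [← Finset.sum_product' (os N) (os N ×ˢ os N) (fun g p =>
        if Nat.Coprime p.1 p.2 then a (g * p.1) * a (g * p.2) * F g p.1 p.2 else 0)]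
  refine Finset.sum_bij_ne_zero
    (fun p _ _ => (Nat.gcd p.1 p.2, (p.1 / Nat.gcd p.1 p.2, p.2 / Nat.gcd p.1 p.2))) ?_ ?_ ?_ ?_
  · rintro ⟨n₁, n₂⟩ h₁ h₂
    rw [Finset.mem_product] at h₁
    obtain ⟨h1, h2⟩ := h₁
    simp only [Finset.mem_product]
    exact ⟨os_of_dvd h1 (Nat.gcd_dvd_left _ _), os_of_dvd h1 (Nat.div_dvd_of_dvd (Nat.gcd_dvd_left _ _)),
      os_of_dvd h2 (Nat.div_dvd_of_dvd (Nat.gcd_dvd_right _ _))⟩
  · rintro ⟨n₁, n₂⟩ h₁ _ ⟨m₁, m₂⟩ h₂ _ heq
    simp only [Prod.mk.injEq] at heq ⊢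
    obtain ⟨hg, hx, hy⟩ := heq
    constructor
    · rw [← Nat.div_mul_cancel (Nat.gcd_dvd_left n₁ n₂), hx, hg,
        Nat.div_mul_cancel (Nat.gcd_dvd_left m₁ m₂)]
    · rw [← Nat.div_mul_cancel (Nat.gcd_dvd_right n₁ n₂), hy, hg,
        Nat.div_mul_cancel (Nat.gcd_dvd_right m₁ m₂)]
  · rintro ⟨g, x, y⟩ hmem hne
    simp only [Finset.mem_product] at hmem
    have hg0 : 0 < g := (mem_os'.1 hmem.1).1.1
    have hc : Nat.Coprime x y := by
      by_contra hc
      simp only [if_neg hc, ne_eq, not_true_eq_false] at hne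
    simp only [if_pos hc] at hne
    have hax : a (g * x) ≠ 0 := fun h => hne (by rw [h]; ring)
    have hay : a (g * y) ≠ 0 := fun h => hne (by rw [h]; ring)
    have hgcd : Nat.gcd (g * x) (g * y) = g := by
      rw [Nat.gcd_mul_left, hc, mul_one]
    refine ⟨(g * x, g * y), Finset.mem_product.2 ⟨ha _ hax, ha _ hay⟩, ?_, ?_⟩
    · simp only [hgcd, Nat.mul_div_cancel_left _ hg0]
      exact hne
    · simp only [hgcd, Nat.mul_div_cancel_left _ hg0]
  · rintro ⟨n₁, n₂⟩ h₁ h₂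
    rw [Finset.mem_product] at h₁
    have hpos : 0 < Nat.gcd n₁ n₂ :=
      Nat.gcd_pos_of_pos_left _ (mem_os'.1 h₁.1).1.1
    simp only
    rw [if_pos (Nat.coprime_div_gcd_div_gcd hpos),
      Nat.mul_div_cancel' (Nat.gcd_dvd_left _ _), Nat.mul_div_cancel' (Nat.gcd_dvd_right _ _)]

theorem sum_div_count (N : ℕ) (w : ℕ → ℝ) (hw : ∀ n, 0 ≤ w n) :
    ∑ g ∈ os N, ∑ e ∈ g.divisors, ∑ x ∈ os (N / g), (x.divisors.card : ℝ) ^ 3 *
        (if g * x ∈ os N then w (g * x) else 0) ≤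
      ∑ n ∈ os N, (n.divisors.card : ℝ) ^ 5 * w n := by
  have e1 : ∀ g ∈ os N, (∑ e ∈ g.divisors, ∑ x ∈ os (N / g), (x.divisors.card : ℝ) ^ 3 *
        (if g * x ∈ os N then w (g * x) else 0)) ≤
      ∑ n ∈ os N, if g ∣ n then (n.divisors.card : ℝ) ^ 4 * w n else 0 := by
    intro g hg
    have hg0 : 0 < g := (mem_os'.1 hg).1.1
    rw [Finset.sum_const, nsmul_eq_mul, Finset.mul_sum]
    have hinj : Set.InjOn (fun x => g * x) (os (N / g) : Set ℕ) := by
      intro x _ y _ h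
      exact Nat.eq_of_mul_eq_mul_left hg0 h
    have hle : ∀ x ∈ os (N / g), (g.divisors.card : ℝ) * ((x.divisors.card : ℝ) ^ 3 *
        (if g * x ∈ os N then w (g * x) else 0)) ≤
        (fun n => if n ∈ os N then (n.divisors.card : ℝ) ^ 4 * w n else 0) (g * x) := by
      intro x hx
      simp only
      split_ifs with h
      · have hgx : 0 < g * x := (mem_os'.1 h).1.1
        have h1 : (g.divisors.card : ℝ) ≤ ((g * x).divisors.card : ℝ) := by
          exact_mod_cast Finset.card_le_card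
            (Nat.divisors_subset_of_dvd hgx.ne' (Dvd.intro _ rfl))
        have h2 : (x.divisors.card : ℝ) ≤ ((g * x).divisors.card : ℝ) := by
          exact_mod_cast Finset.card_le_card
            (Nat.divisors_subset_of_dvd hgx.ne' (Dvd.intro_left _ rfl))
        have h3 : (x.divisors.card : ℝ) ^ 3 ≤ ((g * x).divisors.card : ℝ) ^ 3 :=
          pow_le_pow_left₀ (Nat.cast_nonneg _) h2 3
        have h4 : (g.divisors.card : ℝ) * (x.divisors.card : ℝ) ^ 3 ≤
            ((g * x).divisors.card : ℝ) * ((g * x).divisors.card : ℝ) ^ 3 :=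
          mul_le_mul h1 h3 (by positivity) (by positivity)
        calc (g.divisors.card : ℝ) * ((x.divisors.card : ℝ) ^ 3 * w (g * x))
            = ((g.divisors.card : ℝ) * (x.divisors.card : ℝ) ^ 3) * w (g * x) := by ring
          _ ≤ (((g * x).divisors.card : ℝ) * ((g * x).divisors.card : ℝ) ^ 3) * w (g * x) :=
              mul_le_mul_of_nonneg_right h4 (hw _)
          _ = ((g * x).divisors.card : ℝ) ^ 4 * w (g * x) := by ring
      · simp
    refine (Finset.sum_le_sum hle).trans ?_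
    rw [← Finset.sum_image (f := fun n => if n ∈ os N then (n.divisors.card : ℝ) ^ 4 * w n else 0)
      hinj]
    have hterm : ∀ n ∈ (os (N / g)).image (fun x => g * x),
        (if n ∈ os N then (n.divisors.card : ℝ) ^ 4 * w n else 0) =
        (if n ∈ os N then (if g ∣ n then (n.divisors.card : ℝ) ^ 4 * w n else 0) else 0) := by
      intro n hn
      rw [Finset.mem_image] at hn
      obtain ⟨x, _, rfl⟩ := hn
      rw [if_pos (Dvd.intro _ rfl)]
    rw [Finset.sum_congr rfl hterm, ← Finset.sum_filter]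
    apply Finset.sum_le_sum_of_subset_of_nonneg
    · intro n hn
      exact (Finset.mem_filter.1 hn).2
    · intro n _ _
      split_ifs
      · exact mul_nonneg (by positivity) (hw _)
      · exact le_rfl
  refine (Finset.sum_le_sum e1).trans ?_
  rw [Finset.sum_comm]
  apply Finset.sum_le_sum
  intro n hn
  rw [← Finset.sum_filter, Finset.sum_const, nsmul_eq_mul]
  have hn0 : 0 < n := (mem_os'.1 hn).1.1
  have hcard : (((os N).filter (fun g => g ∣ n)).card : ℝ) ≤ (n.divisors.card : ℝ) := by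
    exact_mod_cast Finset.card_le_card (by
      intro g hg
      rw [Finset.mem_filter] at hg
      exact Nat.mem_divisors.2 ⟨hg.2, hn0.ne'⟩)
  calc (((os N).filter (fun g => g ∣ n)).card : ℝ) * ((n.divisors.card : ℝ) ^ 4 * w n)
      ≤ (n.divisors.card : ℝ) * ((n.divisors.card : ℝ) ^ 4 * w n) :=
        mul_le_mul_of_nonneg_right hcard (mul_nonneg (by positivity) (hw _))
    _ = (n.divisors.card : ℝ) ^ 5 * w n := by ring

end Pool.Agent.MP0016c7.Rz
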