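import Mathlib
import Pool.Agent.Lib.MP_0016c7_nt.Rz.Defs
import Pool.Agent.Lib.MP_0016c7_nt.Qls.QDefs
import Pool.Agent.Lib.MP_0016c7_nt.Qls.QJr
import Pool.Agent.Lib.MP_0016c7_nt.Qls.QA1
import Pool.Agent.Lib.MP_0016c7_nt.Qls.QB1
import Pool.Agent.Lib.MP_0016c7_nt.Qls.QD1

set_option autoImplicit false

open Finset MeasureTheory Filter Topology
open scoped Real

namespace Pool.Agent.MP0016c7.Rz

private theorem qi1_divs {m n : ℕ} (h : Nat.Coprime m n) (F : ℕ → ℝ) :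
    ∑ d ∈ (m * n).divisors, F d = ∑ d ∈ m.divisors, ∑ e ∈ n.divisors, F (d * e) := by
  rw [Nat.divisors_mul, ← Finset.sum_product']
  rw [Finset.mul_def, Finset.sum_image]
  exact h.mul_injOn_divisors

private theorem qi1_lcm {g x y : ℕ} (hxy : Nat.Coprime x y) : Nat.lcm (g * x) (g * y) = g * (x * y) := by
  rw [Nat.lcm_mul_left, hxy.lcm_eq_mul]

private theorem qi1_Lt (M k g x y : ℕ) (hx : Squarefree (g * x)) (hy : Squarefree (g * y))
    (hxy : Nat.Coprime x y) :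
    Lt M k (g * x) (g * y) = ∑ d₀ ∈ g.divisors,
      ((ArithmeticFunction.moebius d₀ : ℝ) * jr k g ^ 2) * ((jr k x * jr k y) *
        ∑ d₁ ∈ x.divisors, ∑ d₂ ∈ y.divisors,
          (ArithmeticFunction.moebius d₁ : ℝ) * (ArithmeticFunction.moebius d₂ : ℝ) *
            EE ((k : ℝ) * (d₀ : ℝ) ^ 2 / M * (1 * 1) * ((d₁ : ℝ) * d₂) ^ 2)) := by
  have hgx : Nat.Coprime g x := Nat.coprime_of_squarefree_mul hx
  have hgy : Nat.Coprime g y := Nat.coprime_of_squarefree_mul hy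
  unfold Lt
  rw [qi1_lcm hxy, qi1_divs (hgx.mul_right hgy), Finset.mul_sum]
  refine Finset.sum_congr rfl fun d₀ hd₀ => ?_
  rw [qi1_divs hxy, jr_mul, jr_mul, jr_mul]
  simp only [Finset.mul_sum]
  refine Finset.sum_congr rfl fun d₁ hd₁ => Finset.sum_congr rfl fun d₂ hd₂ => ?_
  have h0 := Nat.dvd_of_mem_divisors hd₀
  have h1 := Nat.dvd_of_mem_divisors hd₁
  have h2 := Nat.dvd_of_mem_divisors hd₂
  have h12 : Nat.Coprime d₁ d₂ := Nat.Coprime.of_dvd h1 h2 hxy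
  have h012 : Nat.Coprime d₀ (d₁ * d₂) :=
    Nat.Coprime.of_dvd h0 (mul_dvd_mul h1 h2) (hgx.mul_right hgy)
  rw [ArithmeticFunction.isMultiplicative_moebius.map_mul_of_coprime h012,
    ArithmeticFunction.isMultiplicative_moebius.map_mul_of_coprime h12]
  push_cast
  have e1 : (k : ℝ) * ((d₀ : ℝ) * ((d₁ : ℝ) * d₂)) ^ 2 / M =
      (k : ℝ) * (d₀ : ℝ) ^ 2 / M * (1 * 1) * ((d₁ : ℝ) * d₂) ^ 2 := by ring
  rw [e1]
  ring

private theorem qi1_swap (A B C : Finset ℕ) (c : ℕ → ℝ) (T : ℕ → ℕ → ℕ → ℝ) :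
    ∑ x ∈ A, ∑ y ∈ B, ∑ d ∈ C, c d * T d x y = ∑ d ∈ C, c d * ∑ x ∈ A, ∑ y ∈ B, T d x y := by
  simp only [Finset.mul_sum]
  calc ∑ x ∈ A, ∑ y ∈ B, ∑ d ∈ C, c d * T d x y
      = ∑ x ∈ A, ∑ d ∈ C, ∑ y ∈ B, c d * T d x y := Finset.sum_congr rfl fun x _ => Finset.sum_comm
    _ = ∑ d ∈ C, ∑ x ∈ A, ∑ y ∈ B, c d * T d x y := Finset.sum_comm

theorem bound_left {σ : ℝ} (h0 : 0 < σ) {f : ℝ → ℂ} (hf : MelE σ f) (M N K : ℕ) (hM : 1 ≤ M)
    (D : ℝ) (hD : 0 ≤ D) (hQ : QL K N D) (a : ℕ → ℝ) (ha : ∀ n, a n ≠ 0 → n ∈ os N) :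
    |∑ k ∈ sf K, ∑ n₁ ∈ os N, ∑ n₂ ∈ os N, a n₁ * a n₂ * Lt M k n₁ n₂| ≤
      2 * D * (M : ℝ) ^ σ * (∫ τ : ℝ, ‖f τ‖) *
        ∑ n ∈ os N, (n.divisors.card : ℝ) ^ 5 * a n ^ 2 := by
  have hMr : (1 : ℝ) ≤ M := by exact_mod_cast hM
  have hM0 : (0 : ℝ) < M := lt_of_lt_of_le one_pos hMr
  let T : ℕ → ℕ → ℕ → ℕ → ℕ → ℝ := fun k g d₀ x y => if Nat.Coprime x y then
        a (g * x) * a (g * y) * (jr k x * jr k y) * ∑ d₁ ∈ x.divisors, ∑ d₂ ∈ y.divisors,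
          (ArithmeticFunction.moebius d₁ : ℝ) * (ArithmeticFunction.moebius d₂ : ℝ) *
            EE ((k : ℝ) * (d₀ : ℝ) ^ 2 / M * (1 * 1) * ((d₁ : ℝ) * d₂) ^ 2) else 0
  -- the sum over pairs
  have h1 : ∀ k ∈ sf K, ∑ n₁ ∈ os N, ∑ n₂ ∈ os N, a n₁ * a n₂ * Lt M k n₁ n₂ =
      ∑ g ∈ os N, ∑ d₀ ∈ g.divisors, ((ArithmeticFunction.moebius d₀ : ℝ) * jr k g ^ 2) *
        ∑ x ∈ os (N / g), ∑ y ∈ os (N / g), T k g d₀ x y := by
    intro k _
    have h2 := pair_gcd_sum N (fun g x y => Lt M k (g * x) (g * y)) a ha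
    have h3 : ∑ n₁ ∈ os N, ∑ n₂ ∈ os N, a n₁ * a n₂ * Lt M k n₁ n₂ =
        ∑ n₁ ∈ os N, ∑ n₂ ∈ os N, a n₁ * a n₂ * Lt M k (Nat.gcd n₁ n₂ * (n₁ / Nat.gcd n₁ n₂))
          (Nat.gcd n₁ n₂ * (n₂ / Nat.gcd n₁ n₂)) := by
      refine Finset.sum_congr rfl fun n₁ _ => Finset.sum_congr rfl fun n₂ _ => ?_
      rw [Nat.mul_div_cancel' (Nat.gcd_dvd_left n₁ n₂), Nat.mul_div_cancel' (Nat.gcd_dvd_right n₁ n₂)]
    rw [h3, h2]
    refine Finset.sum_congr rfl fun g _ => ?_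
    rw [← qi1_swap]
    refine Finset.sum_congr rfl fun x _ => Finset.sum_congr rfl fun y _ => ?_
    by_cases hxy : Nat.Coprime x y
    · rw [if_pos hxy]
      by_cases hax : a (g * x) = 0
      · rw [hax, zero_mul, zero_mul]
        refine (Finset.sum_eq_zero fun d₀ _ => ?_).symm
        show _ * (if Nat.Coprime x y then _ else (0 : ℝ)) = 0
        rw [if_pos hxy, hax]
        ring
      by_cases hay : a (g * y) = 0
      · rw [hay, mul_zero, zero_mul]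
        refine (Finset.sum_eq_zero fun d₀ _ => ?_).symm
        show _ * (if Nat.Coprime x y then _ else (0 : ℝ)) = 0
        rw [if_pos hxy, hay]
        ring
      have hx := (Finset.mem_filter.1 (ha _ hax)).2.2
      have hy := (Finset.mem_filter.1 (ha _ hay)).2.2
      rw [qi1_Lt M k g x y hx hy hxy, Finset.mul_sum]
      refine Finset.sum_congr rfl fun d₀ _ => ?_
      show _ = _ * (if Nat.Coprime x y then _ else (0 : ℝ))
      rw [if_pos hxy]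
      ring
    · rw [if_neg hxy]
      refine (Finset.sum_eq_zero fun d₀ _ => ?_).symm
      show _ * (if Nat.Coprime x y then _ else (0 : ℝ)) = 0
      rw [if_neg hxy, mul_zero]
  rw [Finset.sum_congr rfl h1, Finset.sum_comm]
  have hI : 0 ≤ ∫ τ : ℝ, ‖f τ‖ := integral_nonneg fun _ => norm_nonneg _
  have hMs : (0 : ℝ) ≤ (M : ℝ) ^ σ := Real.rpow_nonneg hM0.le _
  have key : ∀ g ∈ os N, ∀ d₀ ∈ g.divisors,
      |∑ k ∈ sf K, ((ArithmeticFunction.moebius d₀ : ℝ) * jr k g ^ 2) *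
        ∑ x ∈ os (N / g), ∑ y ∈ os (N / g), T k g d₀ x y| ≤
      2 * D * (M : ℝ) ^ σ * (∫ τ : ℝ, ‖f τ‖) * ∑ x ∈ os (N / g), (x.divisors.card : ℝ) ^ 3 *
        (if g * x ∈ os N then a (g * x) ^ 2 else 0) := by
    intro g hg d₀ hd₀
    have hd0 : (1 : ℝ) ≤ d₀ := by exact_mod_cast Nat.pos_of_mem_divisors hd₀
    have hk1 : ∀ k ∈ sf K, (1 : ℝ) ≤ k := by
      intro k hk
      exact_mod_cast (Finset.mem_Icc.1 (Finset.mem_filter.1 hk).1).1
    have hlam : ∀ k ∈ sf K, (M : ℝ)⁻¹ ≤ (k : ℝ) * (d₀ : ℝ) ^ 2 / M := by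
      intro k hk
      rw [div_eq_mul_inv]
      have h2 : (1 : ℝ) ≤ (k : ℝ) * (d₀ : ℝ) ^ 2 := by
        have := hk1 k hk
        nlinarith [one_le_pow₀ hd0 (n := 2)]
      exact le_mul_of_one_le_left (inv_nonneg.2 hM0.le) h2
    have hb := bilin h0 hf K (N / g) D ((M : ℝ) ^ σ) hD hMs
      (QL_mono hQ le_rfl (Nat.div_le_self N g) le_rfl)
      (fun k => (ArithmeticFunction.moebius d₀ : ℝ) * jr k g ^ 2)
      (fun k => (k : ℝ) * (d₀ : ℝ) ^ 2 / M)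
      (fun k hk => lt_of_lt_of_le (inv_pos.2 hM0) (hlam k hk))
      (fun k hk => by
        have h2 : |(ArithmeticFunction.moebius d₀ : ℝ) * jr k g ^ 2| ≤ 1 := by
          rw [abs_mul, abs_pow]
          have h3 : |(ArithmeticFunction.moebius d₀ : ℝ)| ≤ 1 := by
            exact_mod_cast ArithmeticFunction.abs_moebius_le_one
          exact mul_le_one₀ h3 (by positivity) (pow_le_one₀ (abs_nonneg _) (abs_jr_le _ _))
        have h4 : ((k : ℝ) * (d₀ : ℝ) ^ 2 / M) ^ (-σ) ≤ (M : ℝ) ^ σ := by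
          calc ((k : ℝ) * (d₀ : ℝ) ^ 2 / M) ^ (-σ) ≤ ((M : ℝ)⁻¹) ^ (-σ) :=
                Real.rpow_le_rpow_of_nonpos (inv_pos.2 hM0) (hlam k hk) (by linarith)
            _ = (M : ℝ) ^ σ := by
                rw [Real.inv_rpow hM0.le, Real.rpow_neg hM0.le, inv_inv]
        calc _ ≤ 1 * (M : ℝ) ^ σ := mul_le_mul h2 h4
              (Real.rpow_nonneg (le_trans (inv_nonneg.2 hM0.le) (hlam k hk)) _) zero_le_one
          _ = _ := one_mul _)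
      (fun x => a (g * x)) (fun _ => 1) (fun _ _ => one_pos)
    refine hb.trans (le_of_eq ?_)
    congr 1
    refine Finset.sum_congr rfl fun x _ => ?_
    congr 1
    rw [Real.one_rpow, mul_one]
    by_cases h : g * x ∈ os N
    · rw [if_pos h]
    · rw [if_neg h]
      by_contra h2
      exact h (ha _ fun h3 => h2 (by rw [h3]; ring))
  calc |∑ g ∈ os N, ∑ k ∈ sf K, ∑ d₀ ∈ g.divisors,
        ((ArithmeticFunction.moebius d₀ : ℝ) * jr k g ^ 2) *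
        ∑ x ∈ os (N / g), ∑ y ∈ os (N / g), T k g d₀ x y|
      ≤ ∑ g ∈ os N, |∑ k ∈ sf K, ∑ d₀ ∈ g.divisors,
        ((ArithmeticFunction.moebius d₀ : ℝ) * jr k g ^ 2) *
        ∑ x ∈ os (N / g), ∑ y ∈ os (N / g), T k g d₀ x y| := Finset.abs_sum_le_sum_abs _ _
    _ ≤ ∑ g ∈ os N, ∑ d₀ ∈ g.divisors, 2 * D * (M : ℝ) ^ σ * (∫ τ : ℝ, ‖f τ‖) *
        ∑ x ∈ os (N / g), (x.divisors.card : ℝ) ^ 3 *
        (if g * x ∈ os N then a (g * x) ^ 2 else 0) := by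
        refine Finset.sum_le_sum fun g hg => ?_
        rw [Finset.sum_comm]
        refine (Finset.abs_sum_le_sum_abs _ _).trans (Finset.sum_le_sum fun d₀ hd₀ => ?_)
        exact key g hg d₀ hd₀
    _ = 2 * D * (M : ℝ) ^ σ * (∫ τ : ℝ, ‖f τ‖) * ∑ g ∈ os N, ∑ d₀ ∈ g.divisors,
        ∑ x ∈ os (N / g), (x.divisors.card : ℝ) ^ 3 *
        (if g * x ∈ os N then a (g * x) ^ 2 else 0) := by
        simp only [Finset.mul_sum]
    _ ≤ _ := by
        refine mul_le_mul_of_nonneg_left ?_ (by positivity)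
        exact sum_div_count N (fun n => a n ^ 2) (fun n => sq_nonneg _)

end Pool.Agent.MP0016c7.Rz
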