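import Mathlib
import Pool.Agent.Lib.MP_0016c7_nt.Rz.Defs
import Pool.Agent.Lib.MP_0016c7_nt.Qls.QDefs
import Pool.Agent.Lib.MP_0016c7_nt.Qls.QJr
import Pool.Agent.Lib.MP_0016c7_nt.Qls.QA1
import Pool.Agent.Lib.MP_0016c7_nt.Qls.QB1
import Pool.Agent.Lib.MP_0016c7_nt.Qls.QD1

set_option autoImplicit false

open Finset MeasureTheory Filter Topology
open scoped Real

namespace Pool.Agent.MP0016c7.Rz

private lemma qj1_sum_div {m n : ℕ} (h : m.Coprime n) (F : ℕ → ℝ) :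
    ∑ d ∈ (m * n).divisors, F d = ∑ d₁ ∈ m.divisors, ∑ d₂ ∈ n.divisors, F (d₁ * d₂) := by
  classical
  rw [Nat.divisors_mul, Finset.mul_def, Finset.sum_image, Finset.sum_product]
  intro p hp q hq hpq
  exact h.mul_injOn_divisors (by simpa using hp) (by simpa using hq) hpq

private lemma qj1_term (M k g : ℕ) {x y : ℕ} (hx : 0 < x) (hy : 0 < y) (a b : ℝ)
    (h : Nat.Coprime x y) :
    a * b * Rt M k g (x * y) = ∑ e ∈ g.divisors, ((M : ℝ) * ArithmeticFunction.moebius e / e) *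
      ((a / √(x : ℝ)) * (b / √(y : ℝ)) * (jr k x * jr k y) *
        ∑ d₁ ∈ x.divisors, ∑ d₂ ∈ y.divisors,
          (ArithmeticFunction.moebius d₁ : ℝ) * (ArithmeticFunction.moebius d₂ : ℝ) *
            EE (((k : ℝ) * M / (Nat.gcd e k : ℝ) ^ 2) * ((x : ℝ)⁻¹ * (y : ℝ)⁻¹) *
              ((d₁ : ℝ) * d₂) ^ 2)) := by
  have hx' : (0 : ℝ) < x := by exact_mod_cast hx
  have hy' : (0 : ℝ) < y := by exact_mod_cast hy
  unfold Rt
  rw [jr_mul, Finset.mul_sum, Finset.mul_sum]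
  refine Finset.sum_congr rfl fun e _ => ?_
  rw [qj1_sum_div h]
  have h1 : ∀ d₁ ∈ x.divisors, ∀ d₂ ∈ y.divisors,
      (ArithmeticFunction.moebius (d₁ * d₂) : ℝ) *
        EE ((k : ℝ) * M * ((d₁ * d₂ : ℕ) : ℝ) ^ 2 / ((Nat.gcd e k : ℝ) ^ 2 * ((x * y : ℕ) : ℝ))) =
      (ArithmeticFunction.moebius d₁ : ℝ) * (ArithmeticFunction.moebius d₂ : ℝ) *
            EE (((k : ℝ) * M / (Nat.gcd e k : ℝ) ^ 2) * ((x : ℝ)⁻¹ * (y : ℝ)⁻¹) *
              ((d₁ : ℝ) * d₂) ^ 2) := by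
    intro d₁ h₁ d₂ h₂
    have hc : Nat.Coprime d₁ d₂ :=
      Nat.Coprime.coprime_dvd_left (Nat.dvd_of_mem_divisors h₁)
        (Nat.Coprime.coprime_dvd_right (Nat.dvd_of_mem_divisors h₂) h)
    rw [ArithmeticFunction.isMultiplicative_moebius.map_mul_of_coprime hc]
    push_cast
    congr 2
    rw [div_eq_mul_inv, div_eq_mul_inv, mul_inv, mul_inv]
    ring
  rw [Finset.sum_congr rfl fun d₁ h₁ => Finset.sum_congr rfl fun d₂ h₂ => h1 d₁ h₁ d₂ h₂]
  have h2 : √((x * y : ℕ) : ℝ) = √(x : ℝ) * √(y : ℝ) := by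
    push_cast
    rw [Real.sqrt_mul hx'.le]
  rw [h2]
  have hsx : √(x : ℝ) ≠ 0 := (Real.sqrt_pos.2 hx').ne'
  have hsy : √(y : ℝ) ≠ 0 := (Real.sqrt_pos.2 hy').ne'
  field_simp

theorem bound_right_one {σ : ℝ} (h0 : 0 < σ) (h1 : σ < 1 / 2) {f : ℝ → ℂ} (hf : MelE σ f)
    (M N K g j : ℕ) (hM : 1 ≤ M) (hK : 1 ≤ K) (hg : g ∈ os N) (D : ℝ) (hD : 0 ≤ D)
    (hQ : QL K (N / g) D) (a : ℕ → ℝ) (ha : Blk N j a) :
    |∑ k ∈ (sf K).filter (fun k => K < 2 * k), ∑ x ∈ os (N / g), ∑ y ∈ os (N / g),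
        (if Nat.Coprime x y then a (g * x) * a (g * y) * Rt M k g (x * y) else 0)| ≤
      8 * (∫ τ : ℝ, ‖f τ‖) * (((M : ℝ) / (N / g : ℕ)) *
        (((N / g : ℕ) : ℝ) ^ 2 / ((K : ℝ) * M)) ^ σ * D) *
        ∑ e ∈ g.divisors, ∑ x ∈ os (N / g), (x.divisors.card : ℝ) ^ 3 * a (g * x) ^ 2 := by
  have hg1 : 1 ≤ g ∧ g ≤ N := by
    unfold os at hg
    rw [mem_filter, mem_Icc] at hg
    exact hg.1
  have hN' : 1 ≤ N / g := (Nat.one_le_div_iff (by omega)).2 hg1.2
  set N' := N / g with hN'def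
  have hM' : (0 : ℝ) < M := by exact_mod_cast hM
  have hK' : (0 : ℝ) < K := by exact_mod_cast hK
  have hN'' : (0 : ℝ) < N' := by exact_mod_cast hN'
  have hos : ∀ x ∈ os N', 0 < x := by
    intro x hx
    unfold os at hx
    rw [mem_filter, mem_Icc] at hx
    omega
  set c : ℕ → ℕ → ℝ := fun e k =>
    if K < 2 * k then (M : ℝ) * ArithmeticFunction.moebius e / e else 0 with hc
  set lam : ℕ → ℕ → ℝ := fun e k => (k : ℝ) * M / (Nat.gcd e k : ℝ) ^ 2 with hlam
  set α : ℕ → ℝ := fun x => a (g * x) / √(x : ℝ) with hα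
  set v : ℕ → ℝ := fun x => (x : ℝ)⁻¹ with hv
  -- the identity
  have hid : ∑ k ∈ (sf K).filter (fun k => K < 2 * k), ∑ x ∈ os N', ∑ y ∈ os N',
        (if Nat.Coprime x y then a (g * x) * a (g * y) * Rt M k g (x * y) else 0) =
      ∑ e ∈ g.divisors, ∑ k ∈ sf K, c e k * ∑ x ∈ os N', ∑ y ∈ os N', (if Nat.Coprime x y then
        α x * α y * (jr k x * jr k y) * ∑ d₁ ∈ x.divisors, ∑ d₂ ∈ y.divisors,
          (ArithmeticFunction.moebius d₁ : ℝ) * (ArithmeticFunction.moebius d₂ : ℝ) *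
            EE (lam e k * (v x * v y) * ((d₁ : ℝ) * d₂) ^ 2) else 0) := by
    rw [Finset.sum_filter, Finset.sum_comm (s := g.divisors)]
    refine Finset.sum_congr rfl fun k _ => ?_
    by_cases hk : K < 2 * k
    · rw [if_pos hk]
      simp only [hc, if_pos hk]
      have h3 : ∀ e ∈ g.divisors, ((M : ℝ) * ArithmeticFunction.moebius e / e) *
          ∑ x ∈ os N', ∑ y ∈ os N', (if Nat.Coprime x y then
            α x * α y * (jr k x * jr k y) * ∑ d₁ ∈ x.divisors, ∑ d₂ ∈ y.divisors,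
            (ArithmeticFunction.moebius d₁ : ℝ) * (ArithmeticFunction.moebius d₂ : ℝ) *
              EE (lam e k * (v x * v y) * ((d₁ : ℝ) * d₂) ^ 2) else 0) =
          ∑ x ∈ os N', ∑ y ∈ os N', ((M : ℝ) * ArithmeticFunction.moebius e / e) *
           (if Nat.Coprime x y then
            α x * α y * (jr k x * jr k y) * ∑ d₁ ∈ x.divisors, ∑ d₂ ∈ y.divisors,
            (ArithmeticFunction.moebius d₁ : ℝ) * (ArithmeticFunction.moebius d₂ : ℝ) *
              EE (lam e k * (v x * v y) * ((d₁ : ℝ) * d₂) ^ 2) else 0) := by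
        intro e _
        rw [Finset.mul_sum]
        exact Finset.sum_congr rfl fun x _ => Finset.mul_sum _ _ _
      rw [Finset.sum_congr rfl h3, Finset.sum_comm (s := g.divisors)]
      refine Finset.sum_congr rfl fun x hx => ?_
      rw [Finset.sum_comm (s := g.divisors)]
      refine Finset.sum_congr rfl fun y hy => ?_
      by_cases hxy : Nat.Coprime x y
      · simp only [if_pos hxy]
        rw [qj1_term M k g (hos x hx) (hos y hy) _ _ hxy]
      · simp only [if_neg hxy, mul_zero, Finset.sum_const_zero]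
    · rw [if_neg hk]
      simp only [hc, if_neg hk, zero_mul, Finset.sum_const_zero]
  rw [hid]
  refine (Finset.abs_sum_le_sum_abs _ _).trans ?_
  rw [Finset.mul_sum]
  refine Finset.sum_le_sum fun e he => ?_
  have he1 : 1 ≤ e := Nat.pos_of_mem_divisors he
  have he' : (1 : ℝ) ≤ e := by exact_mod_cast he1
  set B : ℝ := 2 * M * ((K : ℝ) * M) ^ (-σ) with hB
  have hKM : (0 : ℝ) < (K : ℝ) * M := by positivity
  have hB0 : 0 ≤ B := by positivity
  have hlam0 : ∀ k ∈ sf K, 0 < lam e k := by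
    intro k hk
    unfold sf at hk
    rw [mem_filter, mem_Icc] at hk
    have hk' : (0 : ℝ) < k := by exact_mod_cast (by omega : 0 < k)
    have hgcd : (0 : ℝ) < Nat.gcd e k := by
      exact_mod_cast Nat.gcd_pos_of_pos_left k (by omega)
    simp only [hlam]
    positivity
  have hcB : ∀ k ∈ sf K, |c e k| * lam e k ^ (-σ) ≤ B := by
    intro k hk
    simp only [hc]
    split_ifs with hk2
    · have hk1 : 0 < k := by omega
      have hk' : (0 : ℝ) < k := by exact_mod_cast hk1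
      have hgcd : 1 ≤ Nat.gcd e k := Nat.gcd_pos_of_pos_left k (by omega)
      have hgcd' : (1 : ℝ) ≤ Nat.gcd e k := by exact_mod_cast hgcd
      have hgle : (Nat.gcd e k : ℝ) ≤ e := by
        exact_mod_cast Nat.gcd_le_left k (by omega)
      have hmu : |(ArithmeticFunction.moebius e : ℝ)| ≤ 1 := by
        exact_mod_cast ArithmeticFunction.abs_moebius_le_one
      have hK2 : (K : ℝ) ≤ 2 * k := by exact_mod_cast hk2.le
      have e1 : |(M : ℝ) * ArithmeticFunction.moebius e / e| ≤ M / e := by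
        rw [abs_div, abs_mul, abs_of_pos hM', abs_of_pos (by positivity : (0 : ℝ) < e)]
        gcongr
        nlinarith
      have e2 : lam e k ^ (-σ) ≤ e * (2 * ((K : ℝ) * M) ^ (-σ)) := by
        have e3 : (K : ℝ) * M / (2 * (e : ℝ) ^ 2) ≤ lam e k := by
          simp only [hlam]
          rw [div_le_div_iff₀ (by positivity) (by positivity)]
          have : (Nat.gcd e k : ℝ) ^ 2 ≤ (e : ℝ) ^ 2 := by gcongr
          calc (K : ℝ) * M * (Nat.gcd e k : ℝ) ^ 2 ≤ (2 * k) * M * (e : ℝ) ^ 2 := by gcongr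
            _ = k * M * (2 * (e : ℝ) ^ 2) := by ring
        have e4 : lam e k ^ (-σ) ≤ ((K : ℝ) * M / (2 * (e : ℝ) ^ 2)) ^ (-σ) :=
          Real.rpow_le_rpow_of_nonpos (by positivity) e3 (by linarith)
        refine e4.trans ?_
        rw [Real.div_rpow (by positivity) (by positivity),
          Real.mul_rpow (by norm_num : (0 : ℝ) ≤ 2) (by positivity : (0 : ℝ) ≤ (e : ℝ) ^ 2),
          Real.rpow_neg (by norm_num : (0 : ℝ) ≤ 2),
          Real.rpow_neg (by positivity : (0 : ℝ) ≤ (e : ℝ) ^ 2)]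
        have e5 : (2 : ℝ) ^ σ ≤ 2 := by
          calc (2 : ℝ) ^ σ ≤ (2 : ℝ) ^ (1 : ℝ) :=
                Real.rpow_le_rpow_of_exponent_le (by norm_num) (by linarith)
            _ = 2 := Real.rpow_one 2
        have e6 : ((e : ℝ) ^ 2) ^ σ ≤ e := by
          calc ((e : ℝ) ^ 2) ^ σ = (e : ℝ) ^ (2 * σ) := by
                rw [← Real.rpow_natCast, ← Real.rpow_mul (by positivity)]
                norm_num
            _ ≤ (e : ℝ) ^ (1 : ℝ) := Real.rpow_le_rpow_of_exponent_le he' (by linarith)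
            _ = e := Real.rpow_one _
        rw [div_eq_mul_inv, mul_inv, inv_inv, inv_inv]
        calc ((K : ℝ) * M) ^ (-σ) * ((2 : ℝ) ^ σ * ((e : ℝ) ^ 2) ^ σ) ≤
            ((K : ℝ) * M) ^ (-σ) * (2 * e) := by gcongr
          _ = e * (2 * ((K : ℝ) * M) ^ (-σ)) := by ring
      calc |(M : ℝ) * ArithmeticFunction.moebius e / e| * lam e k ^ (-σ) ≤
          (M / e) * (e * (2 * ((K : ℝ) * M) ^ (-σ))) := by
            apply mul_le_mul e1 e2
            · exact Real.rpow_nonneg (hlam0 k hk).le _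
            · positivity
        _ = B := by
            rw [hB]
            field_simp
    · simp only [abs_zero, zero_mul]
      exact hB0
  have hmain := bilin h0 hf K N' D B hD hB0 hQ (c e) (lam e) hlam0 hcB α v
    (fun x hx => by
      have : (0 : ℝ) < x := by exact_mod_cast hos x hx
      simp only [hv]
      positivity)
  refine hmain.trans ?_
  have hI : 0 ≤ ∫ τ : ℝ, ‖f τ‖ := integral_nonneg fun _ => norm_nonneg _
  -- the weights
  have hw : ∀ x ∈ os N', (x.divisors.card : ℝ) ^ 3 * (α x ^ 2 * v x ^ (-(2 * σ))) ≤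
      (2 * (N' : ℝ) ^ (2 * σ - 1)) * ((x.divisors.card : ℝ) ^ 3 * a (g * x) ^ 2) := by
    intro x hx
    have hx0 := hos x hx
    have hx' : (0 : ℝ) < x := by exact_mod_cast hx0
    have e1 : α x ^ 2 * v x ^ (-(2 * σ)) = a (g * x) ^ 2 * (x : ℝ) ^ (2 * σ - 1) := by
      simp only [hα, hv]
      rw [div_pow, Real.sq_sqrt hx'.le, Real.inv_rpow hx'.le, Real.rpow_neg hx'.le, inv_inv,
        Real.rpow_sub hx', Real.rpow_one]
      ring
    rw [e1]
    by_cases ha0 : a (g * x) = 0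
    · rw [ha0]; simp
    have hb := (ha (g * x) ha0).2.1
    have e2 : (N' : ℝ) / 2 ≤ x := by
      have : N' ≤ 2 * x := by
        rw [hN'def]
        have h5 : N / g < 2 * x + 1 := by
          rw [Nat.div_lt_iff_lt_mul (by omega)]
          nlinarith
        omega
      have : (N' : ℝ) ≤ 2 * x := by exact_mod_cast this
      linarith
    have e3 : (x : ℝ) ^ (2 * σ - 1) ≤ 2 * (N' : ℝ) ^ (2 * σ - 1) := by
      calc (x : ℝ) ^ (2 * σ - 1) ≤ ((N' : ℝ) / 2) ^ (2 * σ - 1) :=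
            Real.rpow_le_rpow_of_nonpos (by positivity) e2 (by linarith)
        _ = (N' : ℝ) ^ (2 * σ - 1) * (2 : ℝ) ^ (1 - 2 * σ) := by
            rw [Real.div_rpow hN''.le (by norm_num), div_eq_mul_inv, ← Real.rpow_neg (by norm_num)]
            congr 2
            ring
        _ ≤ (N' : ℝ) ^ (2 * σ - 1) * 2 := by
            have : (2 : ℝ) ^ (1 - 2 * σ) ≤ 2 := by
              calc (2 : ℝ) ^ (1 - 2 * σ) ≤ (2 : ℝ) ^ (1 : ℝ) :=
                    Real.rpow_le_rpow_of_exponent_le (by norm_num) (by linarith)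
                _ = 2 := Real.rpow_one 2
            gcongr
        _ = 2 * (N' : ℝ) ^ (2 * σ - 1) := by ring
    calc (x.divisors.card : ℝ) ^ 3 * (a (g * x) ^ 2 * (x : ℝ) ^ (2 * σ - 1)) ≤
        (x.divisors.card : ℝ) ^ 3 * (a (g * x) ^ 2 * (2 * (N' : ℝ) ^ (2 * σ - 1))) := by
          gcongr
      _ = _ := by ring
  have hsum := Finset.sum_le_sum hw
  rw [← Finset.mul_sum] at hsum
  have hkey : ((M : ℝ) / N') * ((N' : ℝ) ^ 2 / ((K : ℝ) * M)) ^ σ =
      M * ((K : ℝ) * M) ^ (-σ) * (N' : ℝ) ^ (2 * σ - 1) := by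
    rw [Real.div_rpow (by positivity) hKM.le, Real.rpow_neg hKM.le, Real.rpow_sub hN'',
      Real.rpow_one, ← Real.rpow_natCast, ← Real.rpow_mul hN''.le]
    push_cast
    field_simp
  rw [hkey]
  calc 2 * D * B * (∫ τ : ℝ, ‖f τ‖) *
        ∑ x ∈ os N', (x.divisors.card : ℝ) ^ 3 * (α x ^ 2 * v x ^ (-(2 * σ))) ≤
      2 * D * B * (∫ τ : ℝ, ‖f τ‖) * ((2 * (N' : ℝ) ^ (2 * σ - 1)) *
        ∑ x ∈ os N', (x.divisors.card : ℝ) ^ 3 * a (g * x) ^ 2) := by
        gcongr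
    _ = 8 * (∫ τ : ℝ, ‖f τ‖) * (M * ((K : ℝ) * M) ^ (-σ) * (N' : ℝ) ^ (2 * σ - 1) * D) *
        ∑ x ∈ os N', (x.divisors.card : ℝ) ^ 3 * a (g * x) ^ 2 := by
        rw [hB]
        ring

end Pool.Agent.MP0016c7.Rz
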