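import Mathlib
import Pool.Agent.Lib.MP_0016c7_nt.Rz.Defs
import Pool.Agent.Lib.MP_0016c7_nt.Qls.QDefs
import Pool.Agent.Lib.MP_0016c7_nt.Qls.QJr
import Pool.Agent.Lib.MP_0016c7_nt.Qls.QE2
import Pool.Agent.Lib.MP_0016c7_nt.Qls.QJ1

set_option autoImplicit false

open Finset MeasureTheory Filter Topology
open scoped Real

namespace Pool.Agent.MP0016c7.Rz

private lemma qj2_dyadic (F : ℕ → ℝ) (X : ℝ) (hX : 0 ≤ X) (K : ℕ)
    (h : ∀ K', 1 ≤ K' → K' ≤ K → |∑ k ∈ (sf K').filter (fun k => K' < 2 * k), F k| ≤ X) :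
    ∀ K' ≤ K, |∑ k ∈ sf K', F k| ≤ ((Nat.log 2 K' : ℝ) + 1) * X := by
  intro K'
  induction K' using Nat.strong_induction_on with
  | _ K' ih =>
    intro hK'
    rcases Nat.eq_zero_or_pos K' with rfl | hpos
    · have : sf 0 = ∅ := by
        unfold sf
        simp
      rw [this]
      simp only [Finset.sum_empty, abs_zero]
      positivity
    have hsplit : ∑ k ∈ sf K', F k = ∑ k ∈ (sf K').filter (fun k => K' < 2 * k), F k +
        ∑ k ∈ sf (K' / 2), F k := by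
      rw [← Finset.sum_filter_add_sum_filter_not (sf K') (fun k => K' < 2 * k)]
      congr 1
      apply Finset.sum_congr _ fun _ _ => rfl
      ext k
      unfold sf
      simp only [mem_filter, mem_Icc, not_lt]
      constructor
      · rintro ⟨⟨⟨h1, h2⟩, h3⟩, h4⟩
        exact ⟨⟨h1, by omega⟩, h3⟩
      · rintro ⟨⟨h1, h2⟩, h3⟩
        exact ⟨⟨⟨h1, by omega⟩, h3⟩, by omega⟩
    rw [hsplit]
    have h1 := h K' hpos hK'
    by_cases h2 : K' = 1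
    · subst h2
      have : sf (1 / 2) = ∅ := by
        unfold sf
        simp
      rw [this, Finset.sum_empty, add_zero]
      simpa using h1
    · have h3 := ih (K' / 2) (Nat.div_lt_self hpos (by norm_num)) (by omega)
      have h4 : Nat.log 2 K' = Nat.log 2 (K' / 2) + 1 := by
        rw [Nat.log_div_base]
        have : 0 < Nat.log 2 K' := Nat.log_pos (by norm_num) (by omega)
        omega
      calc |∑ k ∈ (sf K').filter (fun k => K' < 2 * k), F k + ∑ k ∈ sf (K' / 2), F k| ≤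
          |∑ k ∈ (sf K').filter (fun k => K' < 2 * k), F k| + |∑ k ∈ sf (K' / 2), F k| :=
            abs_add_le _ _
        _ ≤ X + ((Nat.log 2 (K' / 2) : ℝ) + 1) * X := add_le_add h1 h3
        _ = ((Nat.log 2 K' : ℝ) + 1) * X := by
            rw [h4]
            push_cast
            ring

private lemma qj2_log (ε : ℝ) (hε : 0 < ε) (M N K : ℕ) (hN : 1 ≤ N) (hNM : N ≤ M) (hK : 1 ≤ K)
    (hKM : (K : ℝ) ≤ 2 * (M : ℝ) ^ 2) :
    (Nat.log 2 K : ℝ) + 1 ≤ (2 + 3 / ε) * ((M : ℝ) * N) ^ ε := by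
  have hN' : (1 : ℝ) ≤ N := by exact_mod_cast hN
  have hM' : (1 : ℝ) ≤ M := by exact_mod_cast hN.trans hNM
  have hX : (1 : ℝ) ≤ (M : ℝ) * N := by nlinarith
  have hX1 : (1 : ℝ) ≤ ((M : ℝ) * N) ^ ε := Real.one_le_rpow hX hε.le
  have h1 : (2 : ℝ) ^ (Nat.log 2 K) ≤ 2 * ((M : ℝ) * N) ^ 2 := by
    have h2 : ((2 ^ Nat.log 2 K : ℕ) : ℝ) ≤ K := by
      exact_mod_cast Nat.pow_log_le_self 2 (by omega)
    push_cast at h2
    refine h2.trans (hKM.trans ?_)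
    have : (M : ℝ) ≤ M * N := by nlinarith
    gcongr
  have h3 : (Nat.log 2 K : ℝ) * Real.log 2 ≤ Real.log 2 + 2 * Real.log ((M : ℝ) * N) := by
    have h4 := Real.log_le_log (by positivity) h1
    rw [Real.log_pow, Real.log_mul (by norm_num) (by positivity), Real.log_pow] at h4
    exact_mod_cast h4
  have h5 : Real.log ((M : ℝ) * N) ≤ ((M : ℝ) * N) ^ ε / ε := Real.log_le_rpow_div (by positivity) hε
  have h6 : (0.6931471803 : ℝ) < Real.log 2 := Real.log_two_gt_d9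
  have h7 : (Nat.log 2 K : ℝ) ≤ 1 + 3 * (((M : ℝ) * N) ^ ε / ε) := by
    have h8 : 0 ≤ ((M : ℝ) * N) ^ ε / ε := by positivity
    by_contra hcon
    push Not at hcon
    nlinarith
  have h9 : 3 * (((M : ℝ) * N) ^ ε / ε) = 3 / ε * ((M : ℝ) * N) ^ ε := by ring
  rw [h9] at h7
  nlinarith

private lemma qj2_case {ε : ℝ} (hε : 0 < ε) (hε' : ε < 1 / 4) {M N K' N' : ℕ} (hN' : 1 ≤ N')
    (hN'N : N' ≤ N) (hNM : N ≤ M) (hK' : 1 ≤ K') (hKM : (K' : ℝ) ≤ 2 * (M : ℝ) ^ 2) {D B : ℝ}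
    (hD : 0 ≤ D) (hB : 0 ≤ B) (hDB : min ((M : ℝ) / N') (√((M : ℝ) / K')) * D ≤ B) :
    ((M : ℝ) / N') * ((N' : ℝ) ^ 2 / ((K' : ℝ) * M)) ^ ε * D ≤ 2 * ((M : ℝ) * N) ^ (3 * ε) * B ∨
    ((M : ℝ) / N') * ((N' : ℝ) ^ 2 / ((K' : ℝ) * M)) ^ (1 / 2 - ε) * D ≤
      2 * ((M : ℝ) * N) ^ (3 * ε) * B := by
  have h1N' : (1 : ℝ) ≤ N' := by exact_mod_cast hN'
  have hNN : (N' : ℝ) ≤ N := by exact_mod_cast hN'N
  have hNM' : (N : ℝ) ≤ M := by exact_mod_cast hNM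
  have h1K : (1 : ℝ) ≤ K' := by exact_mod_cast hK'
  have h1N : (1 : ℝ) ≤ N := h1N'.trans hNN
  have h1M : (1 : ℝ) ≤ M := h1N.trans hNM'
  have hX : (1 : ℝ) ≤ (M : ℝ) * N := by nlinarith
  have hKMp : (1 : ℝ) ≤ (K' : ℝ) * M := by nlinarith
  rcases le_or_gt ((K' : ℝ) * M) ((N' : ℝ) ^ 2) with h | h
  · left
    have hmin : min ((M : ℝ) / N') (√((M : ℝ) / K')) = (M : ℝ) / N' := by
      apply min_eq_left
      apply Real.le_sqrt_of_sq_le
      rw [div_pow, div_le_div_iff₀ (by positivity) (by positivity)]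
      nlinarith
    rw [hmin] at hDB
    have h2 : ((N' : ℝ) ^ 2 / ((K' : ℝ) * M)) ^ ε ≤ ((M : ℝ) * N) ^ (3 * ε) := by
      calc ((N' : ℝ) ^ 2 / ((K' : ℝ) * M)) ^ ε ≤ ((M : ℝ) * N) ^ ε := by
            apply Real.rpow_le_rpow (by positivity) _ hε.le
            rw [div_le_iff₀ (by positivity)]
            calc (N' : ℝ) ^ 2 ≤ (M : ℝ) * N * 1 := by nlinarith
              _ ≤ (M : ℝ) * N * (K' * M) := by gcongr
        _ ≤ ((M : ℝ) * N) ^ (3 * ε) := Real.rpow_le_rpow_of_exponent_le hX (by linarith)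
    have h3 : 0 ≤ ((M : ℝ) * N) ^ (3 * ε) := by positivity
    calc ((M : ℝ) / N') * ((N' : ℝ) ^ 2 / ((K' : ℝ) * M)) ^ ε * D =
        ((N' : ℝ) ^ 2 / ((K' : ℝ) * M)) ^ ε * ((M : ℝ) / N' * D) := by ring
      _ ≤ ((M : ℝ) * N) ^ (3 * ε) * B := by gcongr
      _ ≤ 2 * ((M : ℝ) * N) ^ (3 * ε) * B := by nlinarith [mul_nonneg h3 hB]
  · right
    have hmin : min ((M : ℝ) / N') (√((M : ℝ) / K')) = √((M : ℝ) / K') := by
      apply min_eq_right
      rw [Real.sqrt_le_left (by positivity), div_pow,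
        div_le_div_iff₀ (by positivity) (by positivity)]
      nlinarith
    rw [hmin] at hDB
    have h2 : ((M : ℝ) / N') * ((N' : ℝ) ^ 2 / ((K' : ℝ) * M)) ^ (1 / 2 - ε) =
        √((M : ℝ) / K') * (((K' : ℝ) * M) / (N' : ℝ) ^ 2) ^ ε := by
      rw [Real.rpow_sub (by positivity), ← Real.sqrt_eq_rpow,
        Real.sqrt_div (by positivity), Real.sqrt_sq (by positivity),
        Real.sqrt_mul (by positivity), Real.sqrt_div (by positivity)]
      have hs : √(M : ℝ) ≠ 0 := (Real.sqrt_pos.2 (by positivity)).ne'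
      have hs' : √(K' : ℝ) ≠ 0 := (Real.sqrt_pos.2 (by positivity)).ne'
      have h4 : (((K' : ℝ) * M) / (N' : ℝ) ^ 2) ^ ε =
          (((N' : ℝ) ^ 2 / ((K' : ℝ) * M)) ^ ε)⁻¹ := by
        rw [← Real.inv_rpow (by positivity), inv_div]
      rw [h4]
      have h5 : (M : ℝ) = √(M : ℝ) * √(M : ℝ) := (Real.mul_self_sqrt (by positivity)).symm
      have h6 : ((N' : ℝ) ^ 2 / ((K' : ℝ) * M)) ^ ε ≠ 0 :=
        (Real.rpow_pos_of_pos (by positivity) _).ne'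
      generalize ((N' : ℝ) ^ 2 / ((K' : ℝ) * M)) ^ ε = w at h6 ⊢
      have h7 : (M : ℝ) / N' * ((N' : ℝ) / (√(K' : ℝ) * √(M : ℝ)) / w) =
          (M : ℝ) * (√(K' : ℝ) * √(M : ℝ))⁻¹ * w⁻¹ := by
        field_simp
      rw [h7]
      have h8 : (M : ℝ) * (√(K' : ℝ) * √(M : ℝ))⁻¹ = √(M : ℝ) / √(K' : ℝ) := by
        rw [eq_div_iff hs', mul_assoc, mul_inv]
        calc (M : ℝ) * ((√(K' : ℝ))⁻¹ * (√(M : ℝ))⁻¹ * √(K' : ℝ)) =
            (M : ℝ) * (√(M : ℝ))⁻¹ * ((√(K' : ℝ))⁻¹ * √(K' : ℝ)) := by ring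
          _ = (M : ℝ) * (√(M : ℝ))⁻¹ := by rw [inv_mul_cancel₀ hs', mul_one]
          _ = √(M : ℝ) := by
              nth_rewrite 1 [h5]
              rw [mul_assoc, mul_inv_cancel₀ hs, mul_one]
      rw [h8]
    have h3 : (((K' : ℝ) * M) / (N' : ℝ) ^ 2) ^ ε ≤ 2 * ((M : ℝ) * N) ^ (3 * ε) := by
      have h4 : ((K' : ℝ) * M) / (N' : ℝ) ^ 2 ≤ 2 * ((M : ℝ) * N) ^ (3 : ℕ) := by
        rw [div_le_iff₀ (by positivity)]
        calc (K' : ℝ) * M ≤ (2 * (M : ℝ) ^ 2) * M := by gcongr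
          _ = 2 * ((M : ℝ) * 1) ^ 3 * 1 := by ring
          _ ≤ 2 * ((M : ℝ) * N) ^ 3 * (N' : ℝ) ^ 2 := by
              gcongr
              nlinarith
      calc (((K' : ℝ) * M) / (N' : ℝ) ^ 2) ^ ε ≤ (2 * ((M : ℝ) * N) ^ (3 : ℕ)) ^ ε :=
            Real.rpow_le_rpow (by positivity) h4 hε.le
        _ = (2 : ℝ) ^ ε * ((M : ℝ) * N) ^ (3 * ε) := by
            rw [Real.mul_rpow (by norm_num) (by positivity), ← Real.rpow_natCast,
              ← Real.rpow_mul (by positivity)]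
            norm_num
        _ ≤ 2 * ((M : ℝ) * N) ^ (3 * ε) := by
            have : (2 : ℝ) ^ ε ≤ 2 := by
              calc (2 : ℝ) ^ ε ≤ (2 : ℝ) ^ (1 : ℝ) :=
                    Real.rpow_le_rpow_of_exponent_le (by norm_num) (by linarith)
                _ = 2 := Real.rpow_one 2
            gcongr
    rw [h2]
    calc √((M : ℝ) / K') * (((K' : ℝ) * M) / (N' : ℝ) ^ 2) ^ ε * D =
        (((K' : ℝ) * M) / (N' : ℝ) ^ 2) ^ ε * (√((M : ℝ) / K') * D) := by ring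
      _ ≤ 2 * ((M : ℝ) * N) ^ (3 * ε) * B := by gcongr

private lemma qj2_fin (ε : ℝ) (hε : 0 < ε) {X I B S T L : ℝ} (hX : 1 ≤ X) (hI : 0 ≤ I)
    (hB : 0 ≤ B) (hS : 0 ≤ S) (hL : L ≤ (2 + 3 / ε) * X ^ ε)
    (h : 0 ≤ 16 * I * X ^ (3 * ε) * B * S → T ≤ L * (16 * I * X ^ (3 * ε) * B * S)) :
    T ≤ ((2 + 3 / ε) * (16 * I) + 1) * X ^ (4 * ε) * B * S := by
  have hX0 : 0 < X := by linarith
  have h1 : 0 ≤ X ^ (3 * ε) := Real.rpow_nonneg hX0.le _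
  have h2 : 0 ≤ 16 * I * X ^ (3 * ε) * B * S :=
    mul_nonneg (mul_nonneg (mul_nonneg (by linarith) h1) hB) hS
  have h8 : X ^ (4 * ε) = X ^ ε * X ^ (3 * ε) := by
    rw [← Real.rpow_add hX0]
    congr 1
    ring
  have h3 : 0 ≤ X ^ (4 * ε) * B * S :=
    mul_nonneg (mul_nonneg (Real.rpow_nonneg hX0.le _) hB) hS
  calc T ≤ L * (16 * I * X ^ (3 * ε) * B * S) := h h2
    _ ≤ ((2 + 3 / ε) * X ^ ε) * (16 * I * X ^ (3 * ε) * B * S) :=
        mul_le_mul_of_nonneg_right hL h2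
    _ = ((2 + 3 / ε) * (16 * I)) * (X ^ (4 * ε) * B * S) := by
        rw [h8]
        ring
    _ ≤ ((2 + 3 / ε) * (16 * I)) * (X ^ (4 * ε) * B * S) + X ^ (4 * ε) * B * S := by linarith
    _ = ((2 + 3 / ε) * (16 * I) + 1) * X ^ (4 * ε) * B * S := by ring

theorem bound_right (ε : ℝ) (hε : 0 < ε) (hε' : ε < 1 / 4) : ∃ C : ℝ, 0 < C ∧
    ∀ M N K : ℕ, 1 ≤ N → N ≤ M → 1 ≤ K → (K : ℝ) ≤ 2 * (M : ℝ) ^ 2 → ∀ B : ℝ, 0 ≤ B →
    (∀ N', 1 ≤ N' → N' ≤ N → ∀ K', 1 ≤ K' → K' ≤ K → ∃ D : ℝ, 0 ≤ D ∧ QL K' N' D ∧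
      min ((M : ℝ) / N') (√((M : ℝ) / K')) * D ≤ B) →
    ∀ (j : ℕ) (a : ℕ → ℝ), Blk N j a →
    |∑ k ∈ sf K, ∑ n₁ ∈ os N, ∑ n₂ ∈ os N, a n₁ * a n₂ *
        Rt M k (Nat.gcd n₁ n₂) (n₁ / Nat.gcd n₁ n₂ * (n₂ / Nat.gcd n₁ n₂))| ≤
      C * ((M : ℝ) * N) ^ (4 * ε) * B * ∑ n ∈ os N, (n.divisors.card : ℝ) ^ 5 * a n ^ 2 := by
  obtain ⟨f1, -, hf1⟩ := EE_mellin ε hε (by linarith)
  obtain ⟨f2, -, hf2⟩ := EE_mellin (1 / 2 - ε) (by linarith) (by linarith)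
  set I : ℝ := (∫ τ : ℝ, ‖f1 τ‖) + ∫ τ : ℝ, ‖f2 τ‖ with hI
  have hI1 : 0 ≤ ∫ τ : ℝ, ‖f1 τ‖ := integral_nonneg fun _ => norm_nonneg _
  have hI2 : 0 ≤ ∫ τ : ℝ, ‖f2 τ‖ := integral_nonneg fun _ => norm_nonneg _
  have hI0 : 0 ≤ I := add_nonneg hI1 hI2
  refine ⟨(2 + 3 / ε) * (16 * I) + 1, by positivity, ?_⟩
  intro M N K hN hNM hK hKM B hB hyp j a ha
  have hN' : (1 : ℝ) ≤ N := by exact_mod_cast hN
  have hM' : (1 : ℝ) ≤ M := by exact_mod_cast hN.trans hNM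
  have hX : (1 : ℝ) ≤ (M : ℝ) * N := by nlinarith
  set S : ℝ := ∑ n ∈ os N, (n.divisors.card : ℝ) ^ 5 * a n ^ 2 with hS
  have hS0 : 0 ≤ S := Finset.sum_nonneg fun n _ => by positivity
  have hblock : ∀ K', 1 ≤ K' → K' ≤ K →
      |∑ k ∈ (sf K').filter (fun k => K' < 2 * k), ∑ n₁ ∈ os N, ∑ n₂ ∈ os N, a n₁ * a n₂ *
        Rt M k (Nat.gcd n₁ n₂) (n₁ / Nat.gcd n₁ n₂ * (n₂ / Nat.gcd n₁ n₂))| ≤
        16 * I * ((M : ℝ) * N) ^ (3 * ε) * B * S := by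
    intro K' hK' hK'K
    have hKM' : (K' : ℝ) ≤ 2 * (M : ℝ) ^ 2 := by
      refine le_trans ?_ hKM
      exact_mod_cast hK'K
    have h1 : ∀ k : ℕ, ∑ n₁ ∈ os N, ∑ n₂ ∈ os N, a n₁ * a n₂ *
        Rt M k (Nat.gcd n₁ n₂) (n₁ / Nat.gcd n₁ n₂ * (n₂ / Nat.gcd n₁ n₂)) =
        ∑ g ∈ os N, ∑ x ∈ os (N / g), ∑ y ∈ os (N / g),
        if Nat.Coprime x y then a (g * x) * a (g * y) * Rt M k g (x * y) else 0 := fun k =>
      pair_gcd_sum N (fun g x y => Rt M k g (x * y)) a fun n hn => (ha n hn).1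
    rw [Finset.sum_congr rfl fun k _ => h1 k, Finset.sum_comm]
    refine (Finset.abs_sum_le_sum_abs _ _).trans ?_
    have h2 : ∀ g ∈ os N, |∑ k ∈ (sf K').filter (fun k => K' < 2 * k), ∑ x ∈ os (N / g),
        ∑ y ∈ os (N / g), (if Nat.Coprime x y then a (g * x) * a (g * y) * Rt M k g (x * y)
          else 0)| ≤ (16 * I * ((M : ℝ) * N) ^ (3 * ε) * B) *
        ∑ e ∈ g.divisors, ∑ x ∈ os (N / g), (x.divisors.card : ℝ) ^ 3 *
          (if g * x ∈ os N then a (g * x) ^ 2 else 0) := by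
      intro g hg
      have hg1 : 1 ≤ g ∧ g ≤ N := by
        have := hg
        unfold os at this
        rw [mem_filter, mem_Icc] at this
        exact this.1
      have hNg : 1 ≤ N / g := (Nat.one_le_div_iff (by omega)).2 hg1.2
      have hNgN : N / g ≤ N := Nat.div_le_self _ _
      obtain ⟨D, hD, hQ, hDB⟩ := hyp (N / g) hNg hNgN K' hK' hK'K
      have h3 : ∀ x ∈ os (N / g), (x.divisors.card : ℝ) ^ 3 *
          (if g * x ∈ os N then a (g * x) ^ 2 else 0) = (x.divisors.card : ℝ) ^ 3 *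
            a (g * x) ^ 2 := by
        intro x _
        split_ifs with h
        · rfl
        · have : a (g * x) = 0 := by
            by_contra h0
            exact h (ha _ h0).1
          rw [this]
          ring
      rw [Finset.sum_congr rfl fun e _ => Finset.sum_congr rfl h3]
      have hT0 : 0 ≤ ∑ e ∈ g.divisors, ∑ x ∈ os (N / g), (x.divisors.card : ℝ) ^ 3 *
          a (g * x) ^ 2 := Finset.sum_nonneg fun e _ => Finset.sum_nonneg fun x _ => by positivity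
      have hp : 0 ≤ 2 * ((M : ℝ) * N) ^ (3 * ε) * B := by positivity
      rcases qj2_case hε hε' hNg hNgN hNM hK' hKM' hD hB hDB with h4 | h4
      · refine (bound_right_one hε (by linarith) hf1 M N K' g j (hN.trans hNM) hK' hg D hD hQ a
          ha).trans ?_
        refine mul_le_mul_of_nonneg_right ?_ hT0
        calc 8 * (∫ τ : ℝ, ‖f1 τ‖) * (((M : ℝ) / (N / g : ℕ)) *
              (((N / g : ℕ) : ℝ) ^ 2 / ((K' : ℝ) * M)) ^ ε * D) ≤
            8 * I * (2 * ((M : ℝ) * N) ^ (3 * ε) * B) := by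
              apply mul_le_mul _ h4 _ (by positivity)
              · rw [hI]; linarith
              · positivity
          _ = 16 * I * ((M : ℝ) * N) ^ (3 * ε) * B := by ring
      · refine (bound_right_one (by linarith) (by linarith) hf2 M N K' g j (hN.trans hNM) hK' hg D
          hD hQ a ha).trans ?_
        refine mul_le_mul_of_nonneg_right ?_ hT0
        calc 8 * (∫ τ : ℝ, ‖f2 τ‖) * (((M : ℝ) / (N / g : ℕ)) *
              (((N / g : ℕ) : ℝ) ^ 2 / ((K' : ℝ) * M)) ^ (1 / 2 - ε) * D) ≤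
            8 * I * (2 * ((M : ℝ) * N) ^ (3 * ε) * B) := by
              apply mul_le_mul _ h4 _ (by positivity)
              · rw [hI]; linarith
              · positivity
          _ = 16 * I * ((M : ℝ) * N) ^ (3 * ε) * B := by ring
    refine (Finset.sum_le_sum h2).trans ?_
    rw [← Finset.mul_sum]
    have h5 := sum_div_count N (fun n => a n ^ 2) (fun n => sq_nonneg _)
    have hp : 0 ≤ 16 * I * ((M : ℝ) * N) ^ (3 * ε) * B := by positivity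
    exact mul_le_mul_of_nonneg_left h5 hp
  clear_value S I
  clear hyp ha hI hS hf1 hf2 hI1 hI2
  exact qj2_fin ε hε hX hI0 hB hS0 (qj2_log ε hε M N K hN hNM hK hKM)
    (fun h0 => qj2_dyadic _ _ h0 K hblock K le_rfl)

end Pool.Agent.MP0016c7.Rz
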