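import Mathlib
import Pool.Agent.Lib.MP_0016c7_nt.Rz.Defs
import Pool.Agent.Lib.MP_0016c7_nt.Qls.QDefs
import Pool.Agent.Lib.MP_0016c7_nt.Qls.QJr

set_option autoImplicit false

open Finset MeasureTheory Filter Topology
open scoped Real

namespace Pool.Agent.MP0016c7.Rz

private theorem ql1_moebius (d : ℕ) {B : ℕ} (hB : B ≠ 0) :
    ∑ e ∈ B.divisors, (if e ∣ d then (ArithmeticFunction.moebius e : ℝ) else 0) =
      if Nat.Coprime d B then 1 else 0 := by
  rw [← Finset.sum_filter]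
  have h1 : B.divisors.filter (fun e => e ∣ d) = (Nat.gcd d B).divisors := by
    ext e
    simp only [Finset.mem_filter, Nat.mem_divisors]
    constructor
    · rintro ⟨⟨h1, h2⟩, h3⟩
      exact ⟨Nat.dvd_gcd h3 h1, fun h => hB (Nat.eq_zero_of_gcd_eq_zero_right h)⟩
    · rintro ⟨h1, h2⟩
      exact ⟨⟨h1.trans (Nat.gcd_dvd_right _ _), hB⟩, h1.trans (Nat.gcd_dvd_left _ _)⟩
  rw [h1]
  have h2 : ∑ e ∈ (Nat.gcd d B).divisors, (ArithmeticFunction.moebius e : ℤ) =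
      if Nat.gcd d B = 1 then 1 else 0 := by
    rw [← ArithmeticFunction.coe_mul_zeta_apply, ArithmeticFunction.moebius_mul_coe_zeta,
      ArithmeticFunction.one_apply]
  have h3 : ∑ e ∈ (Nat.gcd d B).divisors, (ArithmeticFunction.moebius e : ℝ) =
      ((if Nat.gcd d B = 1 then 1 else 0 : ℤ) : ℝ) := by
    rw [← h2]; push_cast; rfl
  rw [h3]
  unfold Nat.Coprime
  split_ifs <;> simp

private theorem ql1_tsum (F : ℕ → ℝ) {d : ℕ} (hd : d ≠ 0) :
    ∑' t : ℕ, (if d ∣ t + 1 then F (t + 1) else 0) = ∑' s : ℕ, F (d * (s + 1)) := by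
  have hpos : ∀ s : ℕ, 1 ≤ d * (s + 1) := fun s => Nat.mul_pos (Nat.pos_of_ne_zero hd) (by omega)
  have hinj : Function.Injective (fun s : ℕ => d * (s + 1) - 1) := by
    intro a b hab
    have h1 := hpos a
    have h2 := hpos b
    have h3 : d * (a + 1) = d * (b + 1) := by
      simp only at hab
      omega
    have := Nat.eq_of_mul_eq_mul_left (Nat.pos_of_ne_zero hd) h3
    omega
  have hsupp : Function.support (fun t : ℕ => (if d ∣ t + 1 then F (t + 1) else 0)) ⊆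
      Set.range (fun s : ℕ => d * (s + 1) - 1) := by
    intro t ht
    rw [Function.mem_support] at ht
    by_cases hdt : d ∣ t + 1
    · obtain ⟨c, hc⟩ := hdt
      have hc0 : c ≠ 0 := by
        rintro rfl
        simp at hc
      refine ⟨c - 1, ?_⟩
      simp only
      rw [Nat.sub_add_cancel (by omega), ← hc]
      omega
    · simp [hdt] at ht
  rw [← hinj.tsum_eq hsupp]
  apply tsum_congr
  intro s
  have h1 : d * (s + 1) - 1 + 1 = d * (s + 1) := Nat.sub_add_cancel (hpos s)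
  simp only [h1]
  rw [if_pos (Dvd.intro _ rfl)]

private theorem ql1_summable {c : ℝ} (hc : 0 < c) :
    Summable (fun t : ℕ => Real.exp (-c * ((t : ℝ) + 1) ^ 4)) := by
  have h1 : Summable (fun t : ℕ => Real.exp (-c) ^ t) :=
    summable_geometric_of_lt_one (Real.exp_pos _).le (by rw [Real.exp_lt_one_iff]; linarith)
  refine h1.of_nonneg_of_le (fun t => (Real.exp_pos _).le) (fun t => ?_)
  rw [← Real.exp_nat_mul]
  apply Real.exp_le_exp.2
  have h2 : (t : ℝ) ≤ ((t : ℝ) + 1) ^ 4 := by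
    have ht : (0 : ℝ) ≤ t := Nat.cast_nonneg t
    nlinarith [pow_nonneg ht 2, pow_nonneg ht 3, pow_nonneg ht 4]
  nlinarith

theorem left_eq (k n₁ n₂ : ℕ) (hk : 1 ≤ k) (h1 : Odd n₁) (h2 : Odd n₂) (M : ℝ) (hM : 0 < M) :
    ∑' t : ℕ, jr ((k : ℤ) * ((t : ℤ) + 1) ^ 2) (n₁ * n₂) *
        Real.exp (-π * ((k : ℝ) * ((t : ℝ) + 1) ^ 2 / M) ^ 2) =
      jr k (n₁ * n₂) * ∑ d ∈ (Nat.lcm n₁ n₂).divisors, (ArithmeticFunction.moebius d : ℝ) *
        Th ((k : ℝ) * (d : ℝ) ^ 2 / M) := by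
  have hn1 : n₁ ≠ 0 := by rintro rfl; simp at h1
  have hn2 : n₂ ≠ 0 := by rintro rfl; simp at h2
  have hL : Nat.lcm n₁ n₂ ≠ 0 := Nat.lcm_ne_zero hn1 hn2
  have hkpos : (0 : ℝ) < k := by exact_mod_cast hk
  have hcop : ∀ t : ℕ, Nat.Coprime t (n₁ * n₂) ↔ Nat.Coprime t (Nat.lcm n₁ n₂) := by
    intro t
    constructor
    · intro h
      exact Nat.Coprime.coprime_dvd_right (Nat.lcm_dvd_mul n₁ n₂) h
    · intro h
      exact Nat.Coprime.mul_right
        (Nat.Coprime.coprime_dvd_right (Nat.dvd_lcm_left n₁ n₂) h)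
        (Nat.Coprime.coprime_dvd_right (Nat.dvd_lcm_right n₁ n₂) h)
  set F : ℕ → ℝ := fun t => Real.exp (-π * ((k : ℝ) * (t : ℝ) ^ 2 / M) ^ 2) with hF
  have hterm : ∀ t : ℕ, jr ((k : ℤ) * ((t : ℤ) + 1) ^ 2) (n₁ * n₂) *
      Real.exp (-π * ((k : ℝ) * ((t : ℝ) + 1) ^ 2 / M) ^ 2) =
      ∑ d ∈ (Nat.lcm n₁ n₂).divisors, (jr k (n₁ * n₂) * (ArithmeticFunction.moebius d : ℝ)) *
        (if d ∣ t + 1 then F (t + 1) else 0) := by
    intro t
    have e1 : ((k : ℤ) * ((t : ℤ) + 1) ^ 2) = (k : ℤ) * ((t + 1 : ℕ) : ℤ) ^ 2 := by push_cast; ring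
    rw [e1, jr_mul_sq (k : ℤ) (t + 1) (h1.mul h2)]
    have e2 := ql1_moebius (t + 1) hL
    have e3 : ∑ d ∈ (Nat.lcm n₁ n₂).divisors, (jr k (n₁ * n₂) * (ArithmeticFunction.moebius d : ℝ)) *
        (if d ∣ t + 1 then F (t + 1) else 0) = jr k (n₁ * n₂) * F (t + 1) *
        ∑ e ∈ (Nat.lcm n₁ n₂).divisors, (if e ∣ t + 1 then (ArithmeticFunction.moebius e : ℝ) else 0) := by
      rw [Finset.mul_sum]
      apply Finset.sum_congr rfl
      intro d _
      split_ifs <;> ring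
    rw [e3, e2]
    have e4 : F (t + 1) = Real.exp (-π * ((k : ℝ) * ((t : ℝ) + 1) ^ 2 / M) ^ 2) := by
      simp only [hF]
      push_cast
      rfl
    rw [e4]
    by_cases hc : Nat.Coprime (t + 1) (n₁ * n₂)
    · rw [if_pos hc, if_pos ((hcop _).1 hc), mul_one]
    · rw [if_neg hc, if_neg (fun h => hc ((hcop _).2 h))]
      ring
  rw [tsum_congr hterm]
  have hc0 : 0 < π * ((k : ℝ) / M) ^ 2 := by positivity
  have hsumF : Summable (fun t : ℕ => F (t + 1)) := by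
    refine (ql1_summable hc0).congr (fun t => ?_)
    simp only [hF]
    congr 1
    push_cast
    field_simp
  have hsum : ∀ d ∈ (Nat.lcm n₁ n₂).divisors, Summable (fun t : ℕ =>
      (jr k (n₁ * n₂) * (ArithmeticFunction.moebius d : ℝ)) *
        (if d ∣ t + 1 then F (t + 1) else 0)) := by
    intro d _
    apply Summable.mul_left
    refine hsumF.of_nonneg_of_le (fun t => ?_) (fun t => ?_)
    · split_ifs
      · exact (Real.exp_pos _).le
      · exact le_rfl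
    · split_ifs
      · exact le_rfl
      · exact (Real.exp_pos _).le
  rw [Summable.tsum_finsetSum hsum, Finset.mul_sum]
  apply Finset.sum_congr rfl
  intro d hd
  have hd0 : d ≠ 0 := (Nat.pos_of_mem_divisors hd).ne'
  rw [tsum_mul_left, ql1_tsum F hd0, mul_assoc]
  congr 2
  unfold Th
  apply tsum_congr
  intro s
  simp only [hF]
  congr 1
  push_cast
  field_simp

private noncomputable def ql1f (k : ℕ) : ArithmeticFunction ℝ :=
  ⟨fun e => (Nat.gcd e k : ℝ) / e, by simp⟩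

private theorem ql1f_apply (k e : ℕ) : ql1f k e = (Nat.gcd e k : ℝ) / e := rfl

private theorem ql1f_mult (k : ℕ) : (ql1f k).IsMultiplicative := by
  constructor
  · simp [ql1f_apply]
  · intro m n hmn
    simp only [ql1f_apply]
    have : Nat.gcd (m * n) k = Nat.gcd m k * Nat.gcd n k := by
      rw [Nat.gcd_comm (m * n) k, Nat.Coprime.gcd_mul k hmn, Nat.gcd_comm k m, Nat.gcd_comm k n]
    rw [this]
    push_cast
    exact mul_div_mul_comm _ _ _ _

/-- `∑_{e ∣ n} μ(e) gcd(e,k)/e` as a product. -/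
private theorem ql1_prod (k : ℕ) {n : ℕ} (hn : Squarefree n) :
    ∑ e ∈ n.divisors, (ArithmeticFunction.moebius e : ℝ) * ((Nat.gcd e k : ℝ) / e) =
      ∏ p ∈ n.primeFactors, (1 - (Nat.gcd p k : ℝ) / p) := by
  have := (ql1f_mult k).prodPrimeFactors_one_sub_of_squarefree (ql1f k) hn
  simp only [ql1f_apply] at this
  exact this.symm

private theorem ql1_prod_one {n : ℕ} (hn : Squarefree n) :
    ∑ e ∈ n.divisors, (ArithmeticFunction.moebius e : ℝ) / e =
      ∏ p ∈ n.primeFactors, (1 - 1 / (p : ℝ)) := by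
  have := ql1_prod 1 hn
  simp only [Nat.gcd_one_right, Nat.cast_one] at this
  rw [← this]
  apply Finset.sum_congr rfl
  intro e _
  ring

theorem main_cancel (k n₁ n₂ : ℕ) (hk : Squarefree k) (h1 : Odd n₁) (h2 : Odd n₂)
    (s1 : Squarefree n₁) (s2 : Squarefree n₂) (M : ℝ) (hM : 0 < M) (g q : ℕ)
    (hg : g = Nat.gcd n₁ n₂) (hq : q = n₁ / g * (n₂ / g)) :
    jr k q * (M / √(q : ℝ)) * ∑ e ∈ g.divisors, (ArithmeticFunction.moebius e : ℝ) / e *
        ∑ d ∈ q.divisors, (ArithmeticFunction.moebius d : ℝ) *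
          (cE / √((k : ℝ) * M * (d : ℝ) ^ 2 / ((Nat.gcd e k : ℝ) ^ 2 * q))) =
      jr k (n₁ * n₂) * ∑ d ∈ (Nat.lcm n₁ n₂).divisors, (ArithmeticFunction.moebius d : ℝ) *
        (cE / √((k : ℝ) * (d : ℝ) ^ 2 / M)) := by
  have hn1 : n₁ ≠ 0 := s1.ne_zero
  have hn2 : n₂ ≠ 0 := s2.ne_zero
  have hk0 : k ≠ 0 := hk.ne_zero
  have hg0 : g ≠ 0 := by rw [hg]; exact Nat.gcd_ne_zero_left hn1
  obtain ⟨x, hx⟩ : g ∣ n₁ := hg ▸ Nat.gcd_dvd_left n₁ n₂
  obtain ⟨y, hy⟩ : g ∣ n₂ := hg ▸ Nat.gcd_dvd_right n₁ n₂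
  have hxg : n₁ / g = x := by rw [hx]; exact Nat.mul_div_cancel_left x (Nat.pos_of_ne_zero hg0)
  have hyg : n₂ / g = y := by rw [hy]; exact Nat.mul_div_cancel_left y (Nat.pos_of_ne_zero hg0)
  rw [hxg, hyg] at hq
  have hgx : Nat.Coprime g x := Nat.coprime_of_squarefree_mul (hx ▸ s1)
  have hgy : Nat.Coprime g y := Nat.coprime_of_squarefree_mul (hy ▸ s2)
  have hxy : Nat.Coprime x y := by
    have e1 : Nat.gcd n₁ n₂ = g * Nat.gcd x y := by
      rw [hx, hy, Nat.gcd_mul_left]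
    rw [← hg] at e1
    have : g * Nat.gcd x y = g * 1 := by rw [← e1, mul_one]
    exact Nat.eq_of_mul_eq_mul_left (Nat.pos_of_ne_zero hg0) this
  have hgq : Nat.Coprime g q := by rw [hq]; exact Nat.Coprime.mul_right hgx hgy
  have hsx : Squarefree x := Squarefree.of_mul_right (hx ▸ s1)
  have hsy : Squarefree y := Squarefree.of_mul_right (hy ▸ s2)
  have hsg : Squarefree g := Squarefree.of_mul_left (hx ▸ s1)
  have hsq : Squarefree q := by rw [hq]; exact (Nat.squarefree_mul hxy).2 ⟨hsx, hsy⟩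
  have hq0 : q ≠ 0 := hsq.ne_zero
  have hlcm : Nat.lcm n₁ n₂ = g * q := by
    rw [hx, hy, Nat.lcm_mul_left, hq, Nat.Coprime.lcm_eq_mul hxy]
  have hslcm : Squarefree (g * q) := (Nat.squarefree_mul hgq).2 ⟨hsg, hsq⟩
  have hmul : n₁ * n₂ = g * (g * q) := by rw [hx, hy, hq]; ring
  have hgo : Odd g := by
    rw [hx] at h1
    exact (Nat.odd_mul.1 h1).1
  have hkR : (0 : ℝ) < k := by exact_mod_cast Nat.pos_of_ne_zero hk0
  have hqR : (0 : ℝ) < q := by exact_mod_cast Nat.pos_of_ne_zero hq0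
  -- simplify the right-hand side
  have hR : ∑ d ∈ (Nat.lcm n₁ n₂).divisors, (ArithmeticFunction.moebius d : ℝ) *
        (cE / √((k : ℝ) * (d : ℝ) ^ 2 / M)) =
      cE / √((k : ℝ) / M) * ((∏ p ∈ g.primeFactors, (1 - 1 / (p : ℝ))) *
        ∏ p ∈ q.primeFactors, (1 - 1 / (p : ℝ))) := by
    rw [hlcm]
    have e1 := ql1_prod_one hslcm
    rw [Nat.Coprime.primeFactors_mul hgq, Finset.prod_union hgq.disjoint_primeFactors] at e1
    rw [← e1, Finset.mul_sum]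
    apply Finset.sum_congr rfl
    intro d hd
    have hd0 : (0 : ℝ) < d := by exact_mod_cast Nat.pos_of_mem_divisors hd
    have e2 : √((k : ℝ) * (d : ℝ) ^ 2 / M) = d * √((k : ℝ) / M) := by
      rw [show (k : ℝ) * (d : ℝ) ^ 2 / M = (d : ℝ) ^ 2 * ((k : ℝ) / M) by ring,
        Real.sqrt_mul (by positivity), Real.sqrt_sq hd0.le]
    rw [e2]
    have e3 : √((k : ℝ) / M) ≠ 0 := (Real.sqrt_pos.2 (by positivity)).ne'
    field_simp
  have hLd : ∀ e ∈ g.divisors, ∑ d ∈ q.divisors, (ArithmeticFunction.moebius d : ℝ) *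
          (cE / √((k : ℝ) * M * (d : ℝ) ^ 2 / ((Nat.gcd e k : ℝ) ^ 2 * q))) =
      cE * (Nat.gcd e k : ℝ) / √((k : ℝ) * M / q) * ∏ p ∈ q.primeFactors, (1 - 1 / (p : ℝ)) := by
    intro e he
    rw [← ql1_prod_one hsq, Finset.mul_sum]
    apply Finset.sum_congr rfl
    intro d hd
    have hd0 : (0 : ℝ) < d := by exact_mod_cast Nat.pos_of_mem_divisors hd
    have he0 : (0 : ℝ) < (Nat.gcd e k : ℝ) := by
      exact_mod_cast Nat.pos_of_ne_zero (Nat.gcd_ne_zero_right hk0)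
    have e2 : √((k : ℝ) * M * (d : ℝ) ^ 2 / ((Nat.gcd e k : ℝ) ^ 2 * q)) =
        d / (Nat.gcd e k : ℝ) * √((k : ℝ) * M / q) := by
      rw [show (k : ℝ) * M * (d : ℝ) ^ 2 / ((Nat.gcd e k : ℝ) ^ 2 * q) =
          ((d : ℝ) / (Nat.gcd e k : ℝ)) ^ 2 * ((k : ℝ) * M / q) by field_simp,
        Real.sqrt_mul (by positivity), Real.sqrt_sq (by positivity)]
    rw [e2]
    have e3 : √((k : ℝ) * M / q) ≠ 0 := (Real.sqrt_pos.2 (by positivity)).ne'
    field_simp
  have hL : ∑ e ∈ g.divisors, (ArithmeticFunction.moebius e : ℝ) / e *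
        ∑ d ∈ q.divisors, (ArithmeticFunction.moebius d : ℝ) *
          (cE / √((k : ℝ) * M * (d : ℝ) ^ 2 / ((Nat.gcd e k : ℝ) ^ 2 * q))) =
      cE / √((k : ℝ) * M / q) * ((∏ p ∈ g.primeFactors, (1 - (Nat.gcd p k : ℝ) / (p : ℝ))) *
        ∏ p ∈ q.primeFactors, (1 - 1 / (p : ℝ))) := by
    rw [← ql1_prod k hsg, Finset.sum_mul, Finset.mul_sum]
    apply Finset.sum_congr rfl
    intro e he
    rw [hLd e he]
    ring
  have hsqrt : M / √(q : ℝ) * (cE / √((k : ℝ) * M / q)) = cE / √((k : ℝ) / M) := by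
    have e1 : √((k : ℝ) * M / q) = √(k : ℝ) * √M / √(q : ℝ) := by
      rw [Real.sqrt_div (by positivity), Real.sqrt_mul hkR.le]
    have e2 : √((k : ℝ) / M) = √(k : ℝ) / √M := Real.sqrt_div hkR.le M
    rw [e1, e2]
    have hsq' : √(q : ℝ) ≠ 0 := (Real.sqrt_pos.2 hqR).ne'
    have hsk : √(k : ℝ) ≠ 0 := (Real.sqrt_pos.2 hkR).ne'
    have hsM : √M ≠ 0 := (Real.sqrt_pos.2 hM).ne'
    have hMM : M = √M * √M := (Real.mul_self_sqrt hM.le).symm
    field_simp
    rw [Real.sq_sqrt hM.le]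
    ring
  rw [hL, hR]
  have hkey : jr k q * ∏ p ∈ g.primeFactors, (1 - (Nat.gcd p k : ℝ) / (p : ℝ)) =
      jr k (n₁ * n₂) * ∏ p ∈ g.primeFactors, (1 - 1 / (p : ℝ)) := by
    rw [hmul, jr_mul, jr_mul]
    by_cases hc : Nat.Coprime g k
    · have e1 : jr k g * jr k g = 1 := by
        rw [← sq]
        exact jr_sq_one hgo (Nat.isCoprime_iff_coprime.2 hc.symm)
      have e2 : ∏ p ∈ g.primeFactors, (1 - (Nat.gcd p k : ℝ) / (p : ℝ)) =
          ∏ p ∈ g.primeFactors, (1 - 1 / (p : ℝ)) := by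
        apply Finset.prod_congr rfl
        intro p hp
        have : Nat.gcd p k = 1 :=
          Nat.Coprime.coprime_dvd_left (Nat.dvd_of_mem_primeFactors hp) hc
        rw [this, Nat.cast_one]
      rw [e2, ← mul_assoc (jr k g), e1, one_mul]
    · have e1 : jr k g = 0 := jr_eq_zero hg0 (fun h => hc (Nat.isCoprime_iff_coprime.1 h).symm)
      obtain ⟨p, hp, hpg, hpk⟩ := Nat.Prime.not_coprime_iff_dvd.1 hc
      have e2 : ∏ p ∈ g.primeFactors, (1 - (Nat.gcd p k : ℝ) / (p : ℝ)) = 0 := by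
        apply Finset.prod_eq_zero (Nat.mem_primeFactors.2 ⟨hp, hpg, hg0⟩)
        rw [Nat.gcd_eq_left hpk]
        have : (p : ℝ) ≠ 0 := by exact_mod_cast hp.ne_zero
        rw [div_self this, sub_self]
      rw [e1, e2]
      ring
  calc jr k q * (M / √(q : ℝ)) * (cE / √((k : ℝ) * M / q) *
        ((∏ p ∈ g.primeFactors, (1 - (Nat.gcd p k : ℝ) / (p : ℝ))) *
        ∏ p ∈ q.primeFactors, (1 - 1 / (p : ℝ))))
      = (M / √(q : ℝ) * (cE / √((k : ℝ) * M / q))) *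
        (jr k q * ∏ p ∈ g.primeFactors, (1 - (Nat.gcd p k : ℝ) / (p : ℝ))) *
        ∏ p ∈ q.primeFactors, (1 - 1 / (p : ℝ)) := by ring
    _ = _ := by rw [hsqrt, hkey]; ring

end Pool.Agent.MP0016c7.Rz
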