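import Mathlib
import Pool.Agent.Lib.MP_0016c7_nt.Rz.Defs
import Pool.Agent.Lib.MP_0016c7_nt.Qls.QDefs
import Pool.Agent.Lib.MP_0016c7_nt.Qls.QJr

set_option autoImplicit false

open Finset MeasureTheory Filter Topology
open scoped Real

namespace Pool.Agent.MP0016c7.Rz

/-- Uniqueness of the squarefree part. -/
private theorem qn1_sf_unique {k k' s s' : ℕ} (hk : Squarefree k) (hk' : Squarefree k')
    (hs : s ≠ 0) (hs' : s' ≠ 0) (h : k * s ^ 2 = k' * s' ^ 2) : k = k' := by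
  have hk0 : k ≠ 0 := hk.ne_zero
  have hk0' : k' ≠ 0 := hk'.ne_zero
  apply Nat.eq_of_factorization_eq hk0 hk0'
  intro p
  have h1 : (k * s ^ 2).factorization p = (k' * s' ^ 2).factorization p := by rw [h]
  rw [Nat.factorization_mul hk0 (pow_ne_zero 2 hs), Nat.factorization_mul hk0' (pow_ne_zero 2 hs'),
    Nat.factorization_pow, Nat.factorization_pow] at h1
  simp only [Finsupp.add_apply, Finsupp.smul_apply, smul_eq_mul] at h1
  have h2 := hk.natFactorization_le_one p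
  have h3 := hk'.natFactorization_le_one p
  omega

private theorem qn1_gauss_summable (M : ℕ) (hM : 1 ≤ M) :
    Summable (fun m : ℕ => Real.exp (-π * (((m : ℝ) + 1) / M) ^ 2)) := by
  have hM0 : (0 : ℝ) < M := by exact_mod_cast hM
  have hr : Real.exp (-(π / (M : ℝ) ^ 2)) < 1 := by
    rw [Real.exp_lt_one_iff]
    have := Real.pi_pos
    have : 0 < π / (M : ℝ) ^ 2 := by positivity
    linarith
  refine Summable.of_nonneg_of_le (fun _ => (Real.exp_pos _).le) (fun m => ?_)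
    (summable_geometric_of_lt_one (Real.exp_pos _).le hr)
  rw [← Real.exp_nat_mul]
  apply Real.exp_le_exp.2
  have h1 : (m : ℝ) ≤ ((m : ℝ) + 1) ^ 2 := by
    have : (0 : ℝ) ≤ m := Nat.cast_nonneg m
    nlinarith
  rw [div_pow]
  have h2 : (m : ℝ) / (M : ℝ) ^ 2 ≤ ((m : ℝ) + 1) ^ 2 / (M : ℝ) ^ 2 := by gcongr
  have h3 := mul_le_mul_of_nonneg_left h2 Real.pi_pos.le
  calc -π * (((m : ℝ) + 1) ^ 2 / (M : ℝ) ^ 2) = -(π * (((m : ℝ) + 1) ^ 2 / (M : ℝ) ^ 2)) := by ring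
    _ ≤ -(π * ((m : ℝ) / (M : ℝ) ^ 2)) := neg_le_neg h3
    _ = (m : ℝ) * -(π / (M : ℝ) ^ 2) := by ring

private theorem qn1_W2_le (M k t : ℕ) (hk : 1 ≤ k) :
    Real.exp (-π * ((k : ℝ) * ((t : ℝ) + 1) ^ 2 / M) ^ 2) ≤
      Real.exp (-π * (((t : ℝ) + 1) / M) ^ 2) := by
  apply Real.exp_le_exp.2
  have hk' : (1 : ℝ) ≤ k := by exact_mod_cast hk
  have ht : (0 : ℝ) ≤ t := Nat.cast_nonneg t
  have h1 : (t : ℝ) + 1 ≤ (k : ℝ) * ((t : ℝ) + 1) ^ 2 := by nlinarith [sq_nonneg ((t : ℝ) + 1)]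
  have h2 : ((t : ℝ) + 1) / M ≤ (k : ℝ) * ((t : ℝ) + 1) ^ 2 / M := by gcongr
  have h3 : (((t : ℝ) + 1) / M) ^ 2 ≤ ((k : ℝ) * ((t : ℝ) + 1) ^ 2 / M) ^ 2 := by
    apply pow_le_pow_left₀ (by positivity) h2
  have h4 := mul_le_mul_of_nonneg_left h3 Real.pi_pos.le
  linarith

private theorem qn1_sum1 (M : ℕ) (hM : 1 ≤ M) (n₁ n₂ : ℕ) :
    Summable (fun m : ℕ => jr ((m : ℤ) + 1) (n₁ * n₂) *
      Real.exp (-π * (((m : ℝ) + 1) / M) ^ 2)) := by
  refine Summable.of_norm_bounded (qn1_gauss_summable M hM) (fun m => ?_)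
  rw [norm_mul, Real.norm_eq_abs, Real.norm_eq_abs, abs_of_pos (Real.exp_pos _)]
  have := abs_jr_le ((m : ℤ) + 1) (n₁ * n₂)
  calc |jr ((m : ℤ) + 1) (n₁ * n₂)| * Real.exp (-π * (((m : ℝ) + 1) / M) ^ 2)
      ≤ 1 * Real.exp (-π * (((m : ℝ) + 1) / M) ^ 2) := by gcongr
    _ = _ := one_mul _

private theorem qn1_sum2 (M : ℕ) (hM : 1 ≤ M) (n₁ n₂ k : ℕ) (hk : 1 ≤ k) :
    Summable (fun t : ℕ => jr ((k : ℤ) * ((t : ℤ) + 1) ^ 2) (n₁ * n₂) *
      Real.exp (-π * ((k : ℝ) * ((t : ℝ) + 1) ^ 2 / M) ^ 2)) := by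
  refine Summable.of_norm_bounded (qn1_gauss_summable M hM) (fun t => ?_)
  rw [norm_mul, Real.norm_eq_abs, Real.norm_eq_abs, abs_of_pos (Real.exp_pos _)]
  have := abs_jr_le ((k : ℤ) * ((t : ℤ) + 1) ^ 2) (n₁ * n₂)
  calc |jr ((k : ℤ) * ((t : ℤ) + 1) ^ 2) (n₁ * n₂)| *
        Real.exp (-π * ((k : ℝ) * ((t : ℝ) + 1) ^ 2 / M) ^ 2)
      ≤ 1 * Real.exp (-π * ((k : ℝ) * ((t : ℝ) + 1) ^ 2 / M) ^ 2) := by gcongr
    _ ≤ 1 * Real.exp (-π * (((t : ℝ) + 1) / M) ^ 2) := by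
        gcongr 1 * ?_
        exact qn1_W2_le M k t hk
    _ = _ := one_mul _

/-- Positivity: the sum over all positive integers dominates the sum over the families `k t²` with
`k ≤ K` squarefree and a finite set of squarefree numbers greater than `K`. -/
private theorem qn1_positivity (F : ℕ → ℝ) (hF : ∀ m, 0 ≤ F m) (hS : Summable F) (K : ℕ)
    (T : Finset ℕ) (hT : ∀ m ∈ T, Squarefree m ∧ K < m) :
    ∑ m ∈ T, F m + ∑ k ∈ sf K, ∑' t : ℕ, F (k * (t + 1) ^ 2) ≤ ∑' m : ℕ, F (m + 1) := by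
  classical
  -- the ranges
  have hinj : ∀ k ∈ sf K, Function.Injective (fun t : ℕ => k * (t + 1) ^ 2) := by
    intro k hk t t' h
    have hk0 : 0 < k := by
      have := (mem_filter.1 hk).1
      exact (mem_Icc.1 this).1
    have h' : (t + 1) ^ 2 = (t' + 1) ^ 2 := Nat.eq_of_mul_eq_mul_left hk0 h
    have h'' : t + 1 = t' + 1 := Nat.pow_left_injective (by norm_num : (2:ℕ) ≠ 0) h'
    omega
  have hk_sum : ∀ k ∈ sf K, ∑' t : ℕ, F (k * (t + 1) ^ 2) =
      ∑' m : ℕ, (Set.range (fun t : ℕ => k * (t + 1) ^ 2)).indicator F m := by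
    intro k hk
    rw [← _root_.tsum_subtype, tsum_range F (hinj k hk)]
  have hk_summable : ∀ k ∈ sf K,
      Summable (fun m : ℕ => (Set.range (fun t : ℕ => k * (t + 1) ^ 2)).indicator F m) :=
    fun k _ => hS.indicator _
  have hT_sum : ∑ m ∈ T, F m = ∑' m : ℕ, (T : Set ℕ).indicator F m := by
    rw [← _root_.tsum_subtype]
    exact (Finset.tsum_subtype T F).symm
  have h1_sum : ∑' m : ℕ, F (m + 1) =
      ∑' m : ℕ, (Set.range (fun t : ℕ => t + 1)).indicator F m := by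
    rw [← _root_.tsum_subtype, tsum_range F (fun a b h => by simpa using h)]
  rw [hT_sum, h1_sum, Finset.sum_congr rfl hk_sum, ← Summable.tsum_finsetSum hk_summable,
    ← Summable.tsum_add (hS.indicator _) (summable_sum hk_summable)]
  refine Summable.tsum_le_tsum (fun m => ?_) ((hS.indicator _).add (summable_sum hk_summable))
    (hS.indicator _)
  -- pointwise
  by_cases hm : m = 0
  · subst hm
    have h1 : (T : Set ℕ).indicator F 0 = 0 := by
      apply Set.indicator_of_notMem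
      intro h
      have := (hT 0 (by exact_mod_cast h)).2
      omega
    have h2 : ∀ k ∈ sf K, (Set.range (fun t : ℕ => k * (t + 1) ^ 2)).indicator F 0 = 0 := by
      intro k hk
      apply Set.indicator_of_notMem
      rintro ⟨t, ht⟩
      have hk0 : 0 < k := by
        have := (mem_filter.1 hk).1
        exact (mem_Icc.1 this).1
      have : 0 < k * (t + 1) ^ 2 := by positivity
      simp only at ht
      omega
    rw [h1, Finset.sum_eq_zero h2, add_zero]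
    apply Set.indicator_nonneg
    intro _ _
    exact hF _
  · have hr : (Set.range (fun t : ℕ => t + 1)).indicator F m = F m := by
      apply Set.indicator_of_mem
      exact ⟨m - 1, by simp only; omega⟩
    rw [hr]
    by_cases hex : ∃ k ∈ sf K, m ∈ Set.range (fun t : ℕ => k * (t + 1) ^ 2)
    · obtain ⟨k, hk, t, ht⟩ := hex
      have hksf : Squarefree k := (mem_filter.1 hk).2
      have h1 : (T : Set ℕ).indicator F m = 0 := by
        apply Set.indicator_of_notMem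
        intro h
        have h3 := hT m (by exact_mod_cast h)
        have h4 : m = k := by
          apply qn1_sf_unique h3.1 hksf (s := 1) (s' := t + 1) (by norm_num) (by omega)
          rw [one_pow, mul_one]
          exact ht.symm
        have h5 := (mem_Icc.1 (mem_filter.1 hk).1).2
        omega
      have h2 : ∑ k' ∈ sf K, (Set.range (fun t : ℕ => k' * (t + 1) ^ 2)).indicator F m = F m := by
        rw [Finset.sum_eq_single k]
        · exact Set.indicator_of_mem (show m ∈ Set.range (fun t : ℕ => k * (t + 1) ^ 2) from ⟨t, ht⟩) F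
        · intro k' hk' hne
          apply Set.indicator_of_notMem
          rintro ⟨t', ht'⟩
          apply hne
          have hksf' : Squarefree k' := (mem_filter.1 hk').2
          apply qn1_sf_unique hksf' hksf (s := t' + 1) (s' := t + 1) (by omega) (by omega)
          simp only at ht ht'
          rw [ht, ht']
        · intro h
          exact absurd hk h
      rw [h1, h2, zero_add]
    · have h2 : ∑ k ∈ sf K, (Set.range (fun t : ℕ => k * (t + 1) ^ 2)).indicator F m = 0 := by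
        apply Finset.sum_eq_zero
        intro k hk
        apply Set.indicator_of_notMem
        intro h
        exact hex ⟨k, hk, h⟩
      rw [h2, add_zero]
      by_cases h : m ∈ (T : Set ℕ)
      · rw [Set.indicator_of_mem h]
      · rw [Set.indicator_of_notMem h]
        exact hF m

theorem left_bound (M K N : ℕ) (hM : 1 ≤ M) (a : ℕ → ℝ) :
    (∀ n₁ n₂ : ℕ, Summable (fun m : ℕ => jr ((m : ℤ) + 1) (n₁ * n₂) *
      Real.exp (-π * (((m : ℝ) + 1) / M) ^ 2))) ∧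
    (∀ n₁ n₂ k : ℕ, 1 ≤ k → Summable (fun t : ℕ => jr ((k : ℤ) * ((t : ℤ) + 1) ^ 2) (n₁ * n₂) *
      Real.exp (-π * ((k : ℝ) * ((t : ℝ) + 1) ^ 2 / M) ^ 2))) ∧
    Real.exp (-π) * ∑ m ∈ (os M).filter (fun m => K < m), (∑ n ∈ os N, a n * jr m n) ^ 2 ≤
      ∑ n₁ ∈ os N, ∑ n₂ ∈ os N, a n₁ * a n₂ *
        (∑' m : ℕ, jr ((m : ℤ) + 1) (n₁ * n₂) * Real.exp (-π * (((m : ℝ) + 1) / M) ^ 2) -
          ∑ k ∈ sf K, ∑' t : ℕ, jr ((k : ℤ) * ((t : ℤ) + 1) ^ 2) (n₁ * n₂) *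
            Real.exp (-π * ((k : ℝ) * ((t : ℝ) + 1) ^ 2 / M) ^ 2)) := by
  refine ⟨qn1_sum1 M hM, qn1_sum2 M hM, ?_⟩
  have hM0 : (0 : ℝ) < M := by exact_mod_cast hM
  -- the square
  have hsq : ∀ m : ℤ, (∑ n ∈ os N, a n * jr m n) ^ 2 =
      ∑ n₁ ∈ os N, ∑ n₂ ∈ os N, a n₁ * a n₂ * jr m (n₁ * n₂) := by
    intro m
    rw [sq, Finset.sum_mul_sum]
    refine Finset.sum_congr rfl fun n₁ _ => Finset.sum_congr rfl fun n₂ _ => ?_
    rw [jr_mul]
    ring
  set F : ℕ → ℝ := fun m => (∑ n ∈ os N, a n * jr (m : ℤ) n) ^ 2 *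
    Real.exp (-π * ((m : ℝ) / M) ^ 2) with hFdef
  have hF0 : ∀ m, 0 ≤ F m := fun m => by positivity
  -- terms at m + 1
  have hF1 : ∀ m : ℕ, F (m + 1) = ∑ n₁ ∈ os N, ∑ n₂ ∈ os N, a n₁ * a n₂ *
      (jr ((m : ℤ) + 1) (n₁ * n₂) * Real.exp (-π * (((m : ℝ) + 1) / M) ^ 2)) := by
    intro m
    rw [hFdef]
    simp only
    rw [hsq, Finset.sum_mul]
    refine Finset.sum_congr rfl fun n₁ _ => ?_
    rw [Finset.sum_mul]
    refine Finset.sum_congr rfl fun n₂ _ => ?_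
    push_cast
    ring
  have hF2 : ∀ k t : ℕ, F (k * (t + 1) ^ 2) = ∑ n₁ ∈ os N, ∑ n₂ ∈ os N, a n₁ * a n₂ *
      (jr ((k : ℤ) * ((t : ℤ) + 1) ^ 2) (n₁ * n₂) *
        Real.exp (-π * ((k : ℝ) * ((t : ℝ) + 1) ^ 2 / M) ^ 2)) := by
    intro k t
    rw [hFdef]
    simp only
    rw [hsq, Finset.sum_mul]
    refine Finset.sum_congr rfl fun n₁ _ => ?_
    rw [Finset.sum_mul]
    refine Finset.sum_congr rfl fun n₂ _ => ?_
    push_cast
    ring
  have hS1 : HasSum (fun m : ℕ => F (m + 1)) (∑ n₁ ∈ os N, ∑ n₂ ∈ os N, a n₁ * a n₂ *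
      ∑' m : ℕ, jr ((m : ℤ) + 1) (n₁ * n₂) * Real.exp (-π * (((m : ℝ) + 1) / M) ^ 2)) := by
    simp_rw [hF1]
    refine hasSum_sum fun n₁ _ => hasSum_sum fun n₂ _ => ?_
    exact (qn1_sum1 M hM n₁ n₂).hasSum.mul_left _
  have hS2 : ∀ k : ℕ, 1 ≤ k → HasSum (fun t : ℕ => F (k * (t + 1) ^ 2))
      (∑ n₁ ∈ os N, ∑ n₂ ∈ os N, a n₁ * a n₂ *
      ∑' t : ℕ, jr ((k : ℤ) * ((t : ℤ) + 1) ^ 2) (n₁ * n₂) *
            Real.exp (-π * ((k : ℝ) * ((t : ℝ) + 1) ^ 2 / M) ^ 2)) := by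
    intro k hk
    simp_rw [hF2]
    refine hasSum_sum fun n₁ _ => hasSum_sum fun n₂ _ => ?_
    exact (qn1_sum2 M hM n₁ n₂ k hk).hasSum.mul_left _
  have hS : Summable F := (summable_nat_add_iff 1).1 hS1.summable
  have hpos := qn1_positivity F hF0 hS K ((os M).filter (fun m => K < m)) (by
    intro m hm
    rw [mem_filter] at hm
    exact ⟨(mem_filter.1 hm.1).2.2, hm.2⟩)
  -- the right side
  have hR : ∑ n₁ ∈ os N, ∑ n₂ ∈ os N, a n₁ * a n₂ *
        (∑' m : ℕ, jr ((m : ℤ) + 1) (n₁ * n₂) * Real.exp (-π * (((m : ℝ) + 1) / M) ^ 2) -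
          ∑ k ∈ sf K, ∑' t : ℕ, jr ((k : ℤ) * ((t : ℤ) + 1) ^ 2) (n₁ * n₂) *
            Real.exp (-π * ((k : ℝ) * ((t : ℝ) + 1) ^ 2 / M) ^ 2)) =
      ∑' m : ℕ, F (m + 1) - ∑ k ∈ sf K, ∑' t : ℕ, F (k * (t + 1) ^ 2) := by
    have h1 : ∑ k ∈ sf K, ∑' t : ℕ, F (k * (t + 1) ^ 2) =
        ∑ k ∈ sf K, ∑ n₁ ∈ os N, ∑ n₂ ∈ os N, a n₁ * a n₂ *
      ∑' t : ℕ, jr ((k : ℤ) * ((t : ℤ) + 1) ^ 2) (n₁ * n₂) *
            Real.exp (-π * ((k : ℝ) * ((t : ℝ) + 1) ^ 2 / M) ^ 2) := by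
      refine Finset.sum_congr rfl fun k hk => ?_
      exact (hS2 k (mem_Icc.1 (mem_filter.1 hk).1).1).tsum_eq
    rw [hS1.tsum_eq, h1, Finset.sum_comm (s := sf K), ← Finset.sum_sub_distrib]
    refine Finset.sum_congr rfl fun n₁ _ => ?_
    rw [Finset.sum_comm (s := sf K), ← Finset.sum_sub_distrib]
    refine Finset.sum_congr rfl fun n₂ _ => ?_
    rw [mul_sub, Finset.mul_sum]
  rw [hR]
  have hlow : Real.exp (-π) * ∑ m ∈ (os M).filter (fun m => K < m),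
      (∑ n ∈ os N, a n * jr m n) ^ 2 ≤ ∑ m ∈ (os M).filter (fun m => K < m), F m := by
    rw [Finset.mul_sum]
    refine Finset.sum_le_sum fun m hm => ?_
    rw [hFdef]
    simp only
    rw [mul_comm]
    refine mul_le_mul_of_nonneg_left ?_ (sq_nonneg _)
    apply Real.exp_le_exp.2
    have hmM : m ≤ M := (mem_Icc.1 (mem_filter.1 (mem_filter.1 hm).1).1).2
    have h1 : (m : ℝ) / M ≤ 1 := by
      rw [div_le_one hM0]
      exact_mod_cast hmM
    have h2 : ((m : ℝ) / M) ^ 2 ≤ 1 := pow_le_one₀ (by positivity) h1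
    have h3 := mul_le_mul_of_nonneg_left h2 Real.pi_pos.le
    linarith
  linarith

end Pool.Agent.MP0016c7.Rz
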