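import Mathlib
import Pool.Agent.Lib.MP_0016c7_nt.Rz.Defs
import Pool.Agent.Lib.MP_0016c7_nt.Theta
import Pool.Agent.Lib.MP_0016c7_nt.Rz.Gauss1
import Pool.Agent.Lib.MP_0016c7_nt.Qls.QDefs
import Pool.Agent.Lib.MP_0016c7_nt.Qls.QJr

set_option autoImplicit false

open Finset MeasureTheory Filter Topology
open scoped Real

namespace Pool.Agent.MP0016c7.Rz

open HurwitzZeta in
private lemma gp_even {q : ℕ} [NeZero q] {M : ℝ} (hM : 0 < M) (j : ZMod q) :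
    HasSum (fun m : ℤ => ((Real.exp (-π * ((((q * m + j.val : ℤ) : ℤ) : ℝ) / M) ^ 2) : ℝ) : ℂ))
      ((M / q : ℝ) * ((cosKernel ((((j.val : ℝ) / q : ℝ) : UnitAddCircle)) ((M / q) ^ 2) : ℝ) : ℂ)) := by
  have hq : (0 : ℝ) < q := by exact_mod_cast (NeZero.pos q)
  have ht : 0 < (q / M) ^ 2 := by positivity
  have h := hasSum_int_evenKernel ((j.val : ℝ) / q) ht
  have hfe := evenKernel_functional_equation (((j.val : ℝ) / q : ℝ) : UnitAddCircle) ((q / M) ^ 2)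
  have e1 : 1 / ((q : ℝ) / M) ^ 2 = (M / q) ^ 2 := by
    field_simp
  have e2 : (((q : ℝ) / M) ^ 2) ^ (1 / 2 : ℝ) = q / M := by
    rw [← Real.sqrt_eq_rpow, Real.sqrt_sq (by positivity)]
  rw [e1, e2] at hfe
  have e3 : 1 / ((q : ℝ) / M) = M / q := by
    rw [one_div_div]
  rw [e3] at hfe
  rw [hfe] at h
  have h' := Complex.hasSum_ofReal.mpr h
  rw [Complex.ofReal_mul] at h'
  refine h'.congr_fun ?_
  intro m
  congr 2
  push_cast
  field_simp

private lemma gp_sum_zmod (N : ℕ) [NeZero N] (h : ℕ → ℂ) :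
    ∑ j : ZMod N, h j.val = ∑ b ∈ range N, h b := by
  refine Finset.sum_nbij (fun j => j.val) ?_ ?_ ?_ ?_
  · intro j _
    exact mem_range.mpr (ZMod.val_lt j)
  · intro x _ y _ hxy
    exact ZMod.val_injective N hxy
  · intro b hb
    have hb' : b < N := by simpa using hb
    exact ⟨(b : ZMod N), by simp, ZMod.val_cast_of_lt hb'⟩
  · intro j _
    rfl

private lemma gp_jr_mod (N : ℕ) [NeZero N] (n : ℤ) :
    jr (((n : ZMod N).val : ℕ) : ℤ) N = jr n N := by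
  unfold jr
  split_ifs with h
  · rw [ZMod.val_intCast, ← jacobiSym.mod_left]
  · rfl

open HurwitzZeta in
private lemma gp_int (q : ℕ) (hq : Odd q) (hs : Squarefree q) (h4 : q % 4 = 1) (M : ℝ)
    (hM : 0 < M) :
    HasSum (fun n : ℤ => jr n q * Real.exp (-π * ((n : ℝ) / M) ^ 2))
      (M / √(q : ℝ) * ∑' h : ℤ, jr h q * Real.exp (-π * ((h : ℝ) * M / q) ^ 2)) := by
  have hq0 : 0 < q := hq.pos
  have : NeZero q := ⟨hq0.ne'⟩
  have hqr : (0 : ℝ) < q := by exact_mod_cast hq0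
  have ht : 0 < (M / q) ^ 2 := by positivity
  have h1 := hasSum_int_residue (fun j : ZMod q => (jr ((j.val : ℕ) : ℤ) q : ℂ))
    (fun n : ℤ => ((Real.exp (-π * ((n : ℝ) / M) ^ 2) : ℝ) : ℂ)) _ (fun j => gp_even hM j)
  have h2 : HasSum (fun h : ℤ => ∑ j : ZMod q, (jr ((j.val : ℕ) : ℤ) q : ℂ) * ((M / q : ℝ) *
      (Complex.exp (2 * π * Complex.I * (((j.val : ℝ) / q : ℝ) : ℂ) * h) *
        (Real.exp (-π * h ^ 2 * ((M / q) ^ 2)) : ℂ))))
      (∑ j : ZMod q, (jr ((j.val : ℕ) : ℤ) q : ℂ) * ((M / q : ℝ) *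
        ((cosKernel ((((j.val : ℝ) / q : ℝ) : UnitAddCircle)) ((M / q) ^ 2) : ℝ) : ℂ))) := by
    refine hasSum_sum fun j _ => ?_
    exact ((hasSum_int_cosKernel ((j.val : ℝ) / q) ht).mul_left _).mul_left _
  have h3 : ∀ h : ℤ, ∑ j : ZMod q, (jr ((j.val : ℕ) : ℤ) q : ℂ) * ((M / q : ℝ) *
      (Complex.exp (2 * π * Complex.I * (((j.val : ℝ) / q : ℝ) : ℂ) * h) *
        (Real.exp (-π * h ^ 2 * ((M / q) ^ 2)) : ℂ))) =
      ((M / √(q : ℝ) * (jr h q * Real.exp (-π * ((h : ℝ) * M / q) ^ 2)) : ℝ) : ℂ) := by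
    intro h
    have h4' : ∑ j : ZMod q, (jr ((j.val : ℕ) : ℤ) q : ℂ) *
        Complex.exp (2 * π * Complex.I * ((j.val : ℂ) * h / q)) = (jr h q : ℂ) * (√(q : ℝ) : ℂ) := by
      rw [gp_sum_zmod q (fun b : ℕ => (jr b q : ℂ) *
        Complex.exp (2 * π * Complex.I * ((b : ℂ) * h / q))), gauss_sum_jr q hq hs h, if_pos h4,
        mul_one]
    have h5 : ∑ j : ZMod q, (jr ((j.val : ℕ) : ℤ) q : ℂ) * ((M / q : ℝ) *
      (Complex.exp (2 * π * Complex.I * (((j.val : ℝ) / q : ℝ) : ℂ) * h) *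
        (Real.exp (-π * h ^ 2 * ((M / q) ^ 2)) : ℂ))) = (∑ j : ZMod q, (jr ((j.val : ℕ) : ℤ) q : ℂ) *
        Complex.exp (2 * π * Complex.I * ((j.val : ℂ) * h / q))) * ((M / q : ℝ) *
        (Real.exp (-π * h ^ 2 * ((M / q) ^ 2)) : ℂ)) := by
      rw [sum_mul]
      refine sum_congr rfl fun j _ => ?_
      have e : 2 * π * Complex.I * (((j.val : ℝ) / q : ℝ) : ℂ) * h =
          2 * π * Complex.I * ((j.val : ℂ) * h / q) := by
        push_cast
        ring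
      rw [e]
      ring
    rw [h5, h4']
    have e6 : -π * (h : ℝ) ^ 2 * ((M / q) ^ 2) = -π * ((h : ℝ) * M / q) ^ 2 := by ring
    rw [e6]
    have hsq : (√(q : ℝ) : ℂ) * (√(q : ℝ) : ℂ) = (q : ℂ) := by
      rw [← Complex.ofReal_mul, Real.mul_self_sqrt hqr.le]
      simp
    have hsq0 : (√(q : ℝ) : ℂ) ≠ 0 := by
      have : (√(q : ℝ)) ≠ 0 := (Real.sqrt_pos.mpr hqr).ne'
      exact_mod_cast this
    push_cast
    rw [← hsq]
    field_simp
  simp only [h3] at h2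
  have h6 := h2.tsum_eq
  rw [← h6] at h1
  have h7 : ∀ n : ℤ, (jr (((n : ZMod q).val : ℕ) : ℤ) q : ℂ) *
      ((Real.exp (-π * ((n : ℝ) / M) ^ 2) : ℝ) : ℂ) =
      ((jr n q * Real.exp (-π * ((n : ℝ) / M) ^ 2) : ℝ) : ℂ) := by
    intro n
    rw [gp_jr_mod]
    push_cast
    ring
  simp only [h7] at h1
  rw [← Complex.ofReal_tsum, Complex.hasSum_ofReal, tsum_mul_left] at h1
  exact h1

private lemma gp_neg (q : ℕ) (hq : Odd q) (h4 : q % 4 = 1) (n : ℤ) : jr (-n) q = jr n q := by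
  have e : (-n : ℤ) = (-1) * n := by ring
  rw [e, jr_mul_left, jr_of_odd (-1) hq, jacobiSym.at_neg_one hq, ZMod.χ₄_nat_one_mod_four h4]
  simp

private lemma gp_half (q : ℕ) (hq : Odd q) (h4 : q % 4 = 1) (w : ℤ → ℝ) (hw : ∀ n, w (-n) = w n)
    (hw0 : w 0 = 1) (hs : Summable (fun n : ℤ => jr n q * w n)) :
    ∑' n : ℤ, jr n q * w n = (if q = 1 then 1 else 0) +
      2 * ∑' m : ℕ, jr ((m : ℤ) + 1) q * w ((m : ℤ) + 1) := by
  have hi1 : Summable (fun n : ℕ => jr (n : ℤ) q * w (n : ℤ)) :=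
    hs.comp_injective Nat.cast_injective
  have hinj : Function.Injective (fun n : ℕ => -((n : ℤ) + 1)) := by
    intro a b hab
    simp only [neg_inj, add_left_inj, Nat.cast_inj] at hab
    exact hab
  have hi2 : Summable (fun n : ℕ => jr (-((n : ℤ) + 1)) q * w (-((n : ℤ) + 1))) :=
    hs.comp_injective hinj
  have hsplit : ∑' n : ℤ, jr n q * w n = ∑' n : ℕ, jr (n : ℤ) q * w (n : ℤ) +
      ∑' n : ℕ, jr (-((n : ℤ) + 1)) q * w (-((n : ℤ) + 1)) :=
    tsum_of_nat_of_neg_add_one (f := fun n : ℤ => jr n q * w n) hi1 hi2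
  have hz : ∑' n : ℕ, jr (n : ℤ) q * w (n : ℤ) = jr ((0 : ℕ) : ℤ) q * w ((0 : ℕ) : ℤ) +
      ∑' n : ℕ, jr ((n + 1 : ℕ) : ℤ) q * w ((n + 1 : ℕ) : ℤ) := hi1.tsum_eq_zero_add
  rw [hsplit, hz]
  have h0 : jr ((0 : ℕ) : ℤ) q * w ((0 : ℕ) : ℤ) = if q = 1 then 1 else 0 := by
    simp only [Nat.cast_zero, hw0, mul_one]
    split_ifs with h
    · rw [h, jr_one_right]
    · exact jr_zero_left h
  rw [h0]
  have h1 : ∀ n : ℕ, jr (-((n : ℤ) + 1)) q * w (-((n : ℤ) + 1)) =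
      jr ((n : ℤ) + 1) q * w ((n : ℤ) + 1) := by
    intro n
    rw [gp_neg q hq h4, hw]
  simp only [h1, Nat.cast_add, Nat.cast_one]
  ring

theorem gauss_poisson (q : ℕ) (hq : Odd q) (hs : Squarefree q) (h4 : q % 4 = 1) (M : ℝ)
    (hM : 0 < M) :
    ∑' m : ℕ, jr ((m : ℤ) + 1) q * Real.exp (-π * (((m : ℝ) + 1) / M) ^ 2) =
      M / √(q : ℝ) * ∑' h : ℕ, jr ((h : ℤ) + 1) q * Real.exp (-π * (((h : ℝ) + 1) * M / q) ^ 2) +
        (if q = 1 then (M - 1) / 2 else 0) := by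
  have hq0 : 0 < q := hq.pos
  have hqr : (0 : ℝ) < q := by exact_mod_cast hq0
  have h1 := gp_int q hq hs h4 M hM
  have h2 := gp_half q hq h4 (fun n => Real.exp (-π * ((n : ℝ) / M) ^ 2))
    (fun n => by simp [neg_div]) (by simp) h1.summable
  have h3 := gp_int q hq hs h4 (q / M) (by positivity)
  have h3s : Summable (fun n : ℤ => jr n q * Real.exp (-π * ((n : ℝ) * M / q) ^ 2)) := by
    refine h3.summable.congr fun n => ?_
    congr 3
    field_simp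
  have h4' := gp_half q hq h4 (fun n => Real.exp (-π * ((n : ℝ) * M / q) ^ 2))
    (fun n => by simp [neg_div]) (by simp) h3s
  have h5 := h1.tsum_eq
  rw [h2, h4'] at h5
  push_cast at h5
  split_ifs with h6
  · subst h6
    simp only [if_true, Nat.cast_one, Real.sqrt_one, div_one] at h5 ⊢
    linarith only [h5]
  · simp only [if_neg h6, zero_add] at h5 ⊢
    linarith only [h5]

end Pool.Agent.MP0016c7.Rz
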