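import Mathlib
import Pool.Agent.Lib.MP_0016c7_nt.Rz.Defs
import Pool.Agent.Lib.MP_0016c7_nt.Qls.QDefs
import Pool.Agent.Lib.MP_0016c7_nt.Qls.QJr
import Pool.Agent.Lib.MP_0016c7_nt.Qls.QP1

set_option autoImplicit false

open Finset MeasureTheory Filter Topology
open scoped Real

namespace Pool.Agent.MP0016c7.Rz

private lemma qr1_summable {M : ℝ} (hM : 0 < M) :
    Summable (fun m : ℕ => Real.exp (-π * (((m : ℝ) + 1) / M) ^ 2)) := by
  have h := (HurwitzZeta.hasSum_int_evenKernel 0 (t := (1 / M) ^ 2) (by positivity)).summable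
  have hinj : Function.Injective (fun n : ℕ => ((n : ℤ) + 1)) := by
    intro a b hab
    simp only [add_left_inj, Nat.cast_inj] at hab
    exact hab
  refine (h.comp_injective hinj).congr fun m => ?_
  simp only [Function.comp_apply]
  congr 1
  push_cast
  ring

private lemma qr1_moebius (m g : ℕ) (hg : g ≠ 0) :
    ∑ e ∈ g.divisors, (ArithmeticFunction.moebius e : ℝ) * (if e ∣ m then 1 else 0) =
      if Nat.Coprime m g then 1 else 0 := by
  simp only [mul_ite, mul_one, mul_zero]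
  rw [← sum_filter]
  have h1 : g.divisors.filter (fun e => e ∣ m) = (Nat.gcd m g).divisors := by
    ext e
    simp only [mem_filter, Nat.mem_divisors, Nat.dvd_gcd_iff]
    constructor
    · rintro ⟨⟨h1, _⟩, h2⟩
      exact ⟨⟨h2, h1⟩, Nat.gcd_ne_zero_right hg⟩
    · rintro ⟨⟨h2, h1⟩, _⟩
      exact ⟨⟨h1, hg⟩, h2⟩
  rw [h1]
  have h2 := congrArg (fun f : ArithmeticFunction ℤ => f (Nat.gcd m g))
    ArithmeticFunction.moebius_mul_coe_zeta
  simp only [ArithmeticFunction.coe_mul_zeta_apply, ArithmeticFunction.one_apply] at h2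
  have h3 := congrArg (Int.cast : ℤ → ℝ) h2
  push_cast at h3
  rw [h3]

theorem S_right (n₁ n₂ : ℕ) (h1 : Odd n₁) (h2 : Odd n₂) (s1 : Squarefree n₁) (s2 : Squarefree n₂)
    (h4 : n₁ % 4 = n₂ % 4) (M : ℝ) (hM : 0 < M) (g q : ℕ) (hg : g = Nat.gcd n₁ n₂)
    (hq : q = n₁ / g * (n₂ / g)) :
    ∑' m : ℕ, jr ((m : ℤ) + 1) (n₁ * n₂) * Real.exp (-π * (((m : ℝ) + 1) / M) ^ 2) =
      ∑ e ∈ g.divisors, (ArithmeticFunction.moebius e : ℝ) *
        (M / (e * √(q : ℝ)) * (∑' h : ℕ, jr ((e : ℤ) * ((h : ℤ) + 1)) q *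
            Real.exp (-π * (((h : ℝ) + 1) * M / ((e : ℝ) * q)) ^ 2)) +
          (if q = 1 then (M / e - 1) / 2 else 0)) := by
  have hn1 : 0 < n₁ := h1.pos
  have hn2 : 0 < n₂ := h2.pos
  have hg0 : 0 < g := hg ▸ Nat.gcd_pos_of_pos_left _ hn1
  have hgd1 : g ∣ n₁ := hg ▸ Nat.gcd_dvd_left _ _
  have hgd2 : g ∣ n₂ := hg ▸ Nat.gcd_dvd_right _ _
  obtain ⟨x, hx⟩ := hgd1
  obtain ⟨y, hy⟩ := hgd2
  have hxg : n₁ / g = x := by rw [hx, Nat.mul_div_cancel_left _ hg0]
  have hyg : n₂ / g = y := by rw [hy, Nat.mul_div_cancel_left _ hg0]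
  rw [hxg, hyg] at hq
  have hxy : Nat.Coprime x y := by
    rw [← hxg, ← hyg, hg]
    exact Nat.coprime_div_gcd_div_gcd (Nat.gcd_pos_of_pos_left _ hn1)
  have hxo : Odd x := by rw [hx] at h1; exact (Nat.odd_mul.1 h1).2
  have hyo : Odd y := by rw [hy] at h2; exact (Nat.odd_mul.1 h2).2
  have hgo : Odd g := by rw [hx] at h1; exact (Nat.odd_mul.1 h1).1
  have hxs : Squarefree x := by rw [hx] at s1; exact s1.squarefree_of_dvd (dvd_mul_left _ _)
  have hys : Squarefree y := by rw [hy] at s2; exact s2.squarefree_of_dvd (dvd_mul_left _ _)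
  have hqo : Odd q := by rw [hq]; exact hxo.mul hyo
  have hqs : Squarefree q := by rw [hq]; exact (Nat.squarefree_mul hxy).2 ⟨hxs, hys⟩
  have hprod : n₁ * n₂ = g * g * q := by rw [hx, hy, hq]; ring
  have hq4 : q % 4 = 1 := by
    have e1 : (n₁ * n₂) % 4 = 1 := by
      rw [Nat.mul_mod, ← h4]
      have : n₁ % 4 = 1 ∨ n₁ % 4 = 3 := by
        rcases h1 with ⟨k, hk⟩
        omega
      rcases this with h | h <;> rw [h]
    have e2 : (g * g) % 4 = 1 := by
      rw [Nat.mul_mod]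
      have : g % 4 = 1 ∨ g % 4 = 3 := by
        rcases hgo with ⟨k, hk⟩
        omega
      rcases this with h | h <;> rw [h]
    rw [hprod, Nat.mul_mod, e2, one_mul, Nat.mod_mod] at e1
    exact e1
  -- the symbol
  have hjr : ∀ m : ℕ, jr ((m : ℤ) + 1) (n₁ * n₂) =
      ∑ e ∈ g.divisors, (ArithmeticFunction.moebius e : ℝ) *
        ((if e ∣ m + 1 then 1 else 0) * jr ((m : ℤ) + 1) q) := by
    intro m
    rw [hprod, jr_mul, jr_mul, ← sq]
    have h5 : jr ((m : ℤ) + 1) g ^ 2 = if Nat.Coprime (m + 1) g then 1 else 0 := by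
      split_ifs with h
      · apply jr_sq_one hgo
        have := Nat.isCoprime_iff_coprime.2 h
        exact_mod_cast this
      · rw [jr_eq_zero hg0.ne' (fun h' => h ?_)]
        · ring
        · have := h'
          rw [← Nat.isCoprime_iff_coprime]
          exact_mod_cast this
    rw [h5, ← qr1_moebius (m + 1) g hg0.ne', sum_mul]
    exact sum_congr rfl fun e _ => by ring
  have hsum0 := qr1_summable hM
  have hsumm : ∀ e : ℕ, Summable (fun m : ℕ => (if e ∣ m + 1 then 1 else 0) * jr ((m : ℤ) + 1) q *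
      Real.exp (-π * (((m : ℝ) + 1) / M) ^ 2)) := by
    intro e
    refine Summable.of_norm_bounded hsum0 fun m => ?_
    rw [norm_mul, norm_mul, Real.norm_of_nonneg (Real.exp_pos _).le]
    have h5 : ‖(if e ∣ m + 1 then 1 else 0 : ℝ)‖ ≤ 1 := by split_ifs <;> simp
    have h6 : ‖jr ((m : ℤ) + 1) q‖ ≤ 1 := abs_jr_le _ _
    calc _ ≤ 1 * 1 * Real.exp (-π * (((m : ℝ) + 1) / M) ^ 2) := by gcongr
      _ = _ := by ring
  have hswap : ∑' m : ℕ, jr ((m : ℤ) + 1) (n₁ * n₂) * Real.exp (-π * (((m : ℝ) + 1) / M) ^ 2) =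
      ∑ e ∈ g.divisors, (ArithmeticFunction.moebius e : ℝ) *
        ∑' m : ℕ, (if e ∣ m + 1 then 1 else 0) * jr ((m : ℤ) + 1) q *
          Real.exp (-π * (((m : ℝ) + 1) / M) ^ 2) := by
    simp_rw [← tsum_mul_left]
    rw [← Summable.tsum_finsetSum (fun e _ => (hsumm e).mul_left _)]
    refine tsum_congr fun m => ?_
    rw [hjr, sum_mul]
    exact sum_congr rfl fun e _ => by ring
  rw [hswap]
  refine sum_congr rfl fun e he => ?_
  have he0 : 0 < e := Nat.pos_of_mem_divisors he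
  have her : (0 : ℝ) < e := by exact_mod_cast he0
  congr 1
  -- multiples of e
  have hinj : Function.Injective (fun m : ℕ => e * (m + 1) - 1) := by
    intro a b hab
    have ha : 1 ≤ e * (a + 1) := Nat.one_le_iff_ne_zero.2 (by positivity)
    have hb : 1 ≤ e * (b + 1) := Nat.one_le_iff_ne_zero.2 (by positivity)
    simp only at hab
    have : e * (a + 1) = e * (b + 1) := by omega
    have := Nat.eq_of_mul_eq_mul_left he0 this
    omega
  rw [← hinj.tsum_eq]
  · have h7 : ∀ m : ℕ, (if e ∣ e * (m + 1) - 1 + 1 then 1 else 0) *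
        jr (((e * (m + 1) - 1 : ℕ) : ℤ) + 1) q *
        Real.exp (-π * ((((e * (m + 1) - 1 : ℕ) : ℝ) + 1) / M) ^ 2) =
        jr e q * (jr ((m : ℤ) + 1) q * Real.exp (-π * (((m : ℝ) + 1) / (M / e)) ^ 2)) := by
      intro m
      have ha : 1 ≤ e * (m + 1) := Nat.one_le_iff_ne_zero.2 (by positivity)
      have hb : e * (m + 1) - 1 + 1 = e * (m + 1) := by omega
      rw [hb, if_pos (dvd_mul_right _ _), one_mul]
      have hc : (((e * (m + 1) - 1 : ℕ) : ℤ) + 1) = (e : ℤ) * ((m : ℤ) + 1) := by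
        have := congrArg (Nat.cast : ℕ → ℤ) hb
        push_cast at this
        exact this
      have hd : (((e * (m + 1) - 1 : ℕ) : ℝ) + 1) = (e : ℝ) * ((m : ℝ) + 1) := by
        have := congrArg (Nat.cast : ℕ → ℝ) hb
        push_cast at this
        exact this
      rw [hc, hd, jr_mul_left, mul_assoc]
      congr 3
      field_simp
    simp only [h7]
    rw [tsum_mul_left, gauss_poisson q hqo hqs hq4 (M / e) (by positivity), mul_add]
    congr 1
    · rw [← mul_assoc, mul_comm (jr (e : ℤ) q) (M / e / √(q : ℝ)), mul_assoc,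
        ← tsum_mul_left]
      congr 1
      · rw [div_div]
      · refine tsum_congr fun h => ?_
        rw [jr_mul_left, mul_assoc]
        congr 4
        field_simp
    · split_ifs with h
      · rw [h, jr_one_right, one_mul]
      · rw [mul_zero]
  · intro m hm
    by_cases h8 : e ∣ m + 1
    · obtain ⟨k, hk⟩ := h8
      have hk0 : k ≠ 0 := by rintro rfl; simp at hk
      exact ⟨k - 1, by
        simp only
        rw [Nat.sub_add_cancel (Nat.one_le_iff_ne_zero.2 hk0), ← hk]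
        simp⟩
    · exfalso
      apply hm
      simp [h8]

end Pool.Agent.MP0016c7.Rz
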