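import Mathlib
import Pool.Agent.Lib.MP_0016c7_nt.Rz.Defs
import Pool.Agent.Lib.MP_0016c7_nt.Qls.QDefs
import Pool.Agent.Lib.MP_0016c7_nt.Qls.QJr

set_option autoImplicit false

open Finset MeasureTheory Filter Topology
open scoped Real

namespace Pool.Agent.MP0016c7.Rz

private theorem qs1_summ (c : ℝ) (hc : 0 < c) (r : ℕ) (hr : 1 ≤ r) :
    Summable (fun n : ℕ => Real.exp (-π * (c * ((n : ℝ) + 1) ^ r))) := by
  have h0 : Summable (fun n : ℕ => Real.exp ((n : ℝ) * (-(π * c)))) := by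
    rw [Real.summable_exp_nat_mul_iff]
    have := mul_pos Real.pi_pos hc
    linarith
  refine Summable.of_nonneg_of_le (fun n => (Real.exp_pos _).le) (fun n => ?_) h0
  apply Real.exp_le_exp.2
  have h1 : (n : ℝ) + 1 ≤ ((n : ℝ) + 1) ^ r := by
    have : (1 : ℝ) ≤ (n : ℝ) + 1 := by
      have : (0 : ℝ) ≤ n := Nat.cast_nonneg n
      linarith
    exact le_self_pow₀ this (by omega)
  have h2 := mul_pos Real.pi_pos hc
  have h3 : (n : ℝ) ≤ ((n : ℝ) + 1) ^ r := by linarith
  nlinarith [mul_le_mul_of_nonneg_left h3 h2.le]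

private theorem qs1_sqf_unique {k l a b : ℕ} (hk : Squarefree k) (hl : Squarefree l)
    (ha : a ≠ 0) (hb : b ≠ 0) (h : k * a ^ 2 = l * b ^ 2) : k = l := by
  have hk0 := hk.ne_zero
  have hl0 := hl.ne_zero
  apply Nat.eq_of_factorization_eq hk0 hl0
  intro p
  have h1 := congrArg (fun n : ℕ => n.factorization p) h
  simp only [Nat.factorization_mul hk0 (pow_ne_zero 2 ha), Nat.factorization_mul hl0
    (pow_ne_zero 2 hb), Nat.factorization_pow, Finsupp.add_apply, Finsupp.smul_apply,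
    smul_eq_mul] at h1
  have h2 := (Nat.squarefree_iff_factorization_le_one hk0).1 hk p
  have h3 := (Nat.squarefree_iff_factorization_le_one hl0).1 hl p
  omega

/-- Sum over numbers coprime to `q` by Moebius. -/
private theorem qs1_cop (q : ℕ) (hq : 0 < q) (G : ℕ → ℝ) (hG : Summable (fun n : ℕ => G (n + 1))) :
    ∑' t : ℕ, (if Nat.Coprime (t + 1) q then G (t + 1) else 0) =
      ∑ d ∈ q.divisors, (ArithmeticFunction.moebius d : ℝ) * ∑' s : ℕ, G (d * (s + 1)) := by
  have hmu : ∀ n : ℕ, 0 < n → (if Nat.Coprime n q then (1 : ℝ) else 0) =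
      ∑ d ∈ q.divisors, if d ∣ n then (ArithmeticFunction.moebius d : ℝ) else 0 := by
    intro n hn
    rw [← Finset.sum_filter]
    have h1 : q.divisors.filter (fun d => d ∣ n) = (Nat.gcd n q).divisors := by
      ext d
      simp only [mem_filter, Nat.mem_divisors, Nat.dvd_gcd_iff]
      have : n.gcd q ≠ 0 := by
        have := Nat.gcd_pos_of_pos_left q hn
        omega
      constructor
      · rintro ⟨⟨h1, h2⟩, h3⟩
        exact ⟨⟨h3, h1⟩, this⟩
      · rintro ⟨⟨h1, h2⟩, h3⟩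
        exact ⟨⟨h2, by omega⟩, h1⟩
    rw [h1]
    have h2 : ∑ d ∈ (Nat.gcd n q).divisors, ArithmeticFunction.moebius d =
        if Nat.gcd n q = 1 then 1 else 0 := by
      have := congrArg (fun f : ArithmeticFunction ℤ => f (Nat.gcd n q))
        ArithmeticFunction.moebius_mul_coe_zeta
      simp only [ArithmeticFunction.coe_mul_zeta_apply, ArithmeticFunction.one_apply] at this
      exact this
    have h3 := congrArg (fun z : ℤ => (z : ℝ)) h2
    simp only [Int.cast_sum] at h3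
    rw [h3]
    unfold Nat.Coprime
    split_ifs <;> simp
  have hsub : ∀ d ∈ q.divisors, ∑' t : ℕ, (if d ∣ t + 1 then G (t + 1) else 0) =
      ∑' s : ℕ, G (d * (s + 1)) := by
    intro d hd
    have hd0 : 0 < d := Nat.pos_of_mem_divisors hd
    have hinj : Function.Injective (fun s : ℕ => d * (s + 1) - 1) := by
      intro a b hab
      simp only at hab
      have ha : 0 < d * (a + 1) := by positivity
      have hb : 0 < d * (b + 1) := by positivity
      have : d * (a + 1) = d * (b + 1) := by omega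
      have := Nat.eq_of_mul_eq_mul_left hd0 this
      omega
    have := hinj.tsum_eq (f := fun t : ℕ => if d ∣ t + 1 then G (t + 1) else 0) (by
      intro t ht
      simp only [Function.mem_support, ne_eq, ite_eq_right_iff, Classical.not_imp] at ht
      obtain ⟨⟨c, hc⟩, -⟩ := ht
      rcases Nat.eq_zero_or_pos c with h0 | h0
      · subst h0; omega
      · refine ⟨c - 1, ?_⟩
        simp only
        rw [Nat.sub_add_cancel h0, ← hc]
        omega)
    rw [← this]
    refine tsum_congr (fun s => ?_)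
    have hs : 0 < d * (s + 1) := by positivity
    rw [Nat.sub_add_cancel hs, if_pos (dvd_mul_right _ _)]
  have h1 : ∀ t : ℕ, (if Nat.Coprime (t + 1) q then G (t + 1) else 0) =
      ∑ d ∈ q.divisors, (ArithmeticFunction.moebius d : ℝ) *
        (if d ∣ t + 1 then G (t + 1) else 0) := by
    intro t
    have := hmu (t + 1) (by omega)
    calc (if Nat.Coprime (t + 1) q then G (t + 1) else 0)
        = (if Nat.Coprime (t + 1) q then (1 : ℝ) else 0) * G (t + 1) := by
          split_ifs <;> simp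
      _ = _ := by
          rw [this, Finset.sum_mul]
          refine Finset.sum_congr rfl (fun d _ => ?_)
          split_ifs <;> simp
  rw [tsum_congr h1, Summable.tsum_finsetSum]
  · refine Finset.sum_congr rfl (fun d hd => ?_)
    rw [tsum_mul_left, hsub d hd]
  · intro d _
    apply Summable.mul_left
    refine (hG.indicator {t : ℕ | d ∣ t + 1}).congr (fun t => ?_)
    rw [Set.indicator_apply]
    rfl

/-- The part of the dual sum belonging to the squarefree number `k`. -/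
private theorem qs1_kpart (e q : ℕ) (he : Squarefree e) (hq : Odd q)
    (heq : Nat.Coprime e q) (M k : ℕ) (hM : 1 ≤ M) (hk : 1 ≤ k) :
    ∑' t : ℕ, jr ((e : ℤ) * (((k / Nat.gcd e k) * (e / Nat.gcd e k) * (t + 1) ^ 2 : ℕ) : ℤ)) q *
        Real.exp (-π * (((((k / Nat.gcd e k) * (e / Nat.gcd e k) * (t + 1) ^ 2 : ℕ) : ℝ)) *
          M / ((e : ℝ) * q)) ^ 2) =
      jr k q * ∑ d ∈ q.divisors, (ArithmeticFunction.moebius d : ℝ) *
        Th ((k : ℝ) * M * (d : ℝ) ^ 2 / ((Nat.gcd e k : ℝ) ^ 2 * q)) := by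
  have he0 : 0 < e := Nat.pos_of_ne_zero he.ne_zero
  have hq0 : 0 < q := hq.pos
  set e1 := Nat.gcd e k with he1
  have he1pos : 0 < e1 := Nat.gcd_pos_of_pos_left k he0
  obtain ⟨e2, he2⟩ : e1 ∣ e := Nat.gcd_dvd_left e k
  obtain ⟨k2, hk2⟩ : e1 ∣ k := Nat.gcd_dvd_right e k
  have hee : e / e1 = e2 := by rw [he2]; exact Nat.mul_div_cancel_left _ he1pos
  have hkk : k / e1 = k2 := by rw [hk2]; exact Nat.mul_div_cancel_left _ he1pos
  rw [hee, hkk]
  have he2pos : 0 < e2 := by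
    rcases Nat.eq_zero_or_pos e2 with h | h
    · rw [h] at he2; omega
    · exact h
  have hk2pos : 0 < k2 := by
    rcases Nat.eq_zero_or_pos k2 with h | h
    · rw [h] at hk2; omega
    · exact h
  have hcop2 : Nat.Coprime e2 q := Nat.Coprime.coprime_dvd_left ⟨e1, by rw [he2]; ring⟩ heq
  set y : ℝ := (k : ℝ) * M / ((e1 : ℝ) ^ 2 * q) with hy
  have hypos : 0 < y := by
    have h1 : (0 : ℝ) < k := by exact_mod_cast hk
    have h2 : (0 : ℝ) < M := by exact_mod_cast hM
    have h3 : (0 : ℝ) < e1 := by exact_mod_cast he1pos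
    have h4 : (0 : ℝ) < q := by exact_mod_cast hq0
    positivity
  have hterm : ∀ t : ℕ, jr ((e : ℤ) * ((k2 * e2 * (t + 1) ^ 2 : ℕ) : ℤ)) q *
        Real.exp (-π * ((((k2 * e2 * (t + 1) ^ 2 : ℕ) : ℝ)) * M / ((e : ℝ) * q)) ^ 2) =
      jr k q * (if Nat.Coprime (t + 1) q then
        Real.exp (-π * (y ^ 2 * ((t + 1 : ℕ) : ℝ) ^ 4)) else 0) := by
    intro t
    have h1 : (e : ℤ) * ((k2 * e2 * (t + 1) ^ 2 : ℕ) : ℤ) =
        (k : ℤ) * ((e2 * (t + 1) : ℕ) : ℤ) ^ 2 := by
      rw [hk2]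
      conv_lhs => rw [he2]
      push_cast
      ring
    have h2 : (((k2 * e2 * (t + 1) ^ 2 : ℕ) : ℝ)) * M / ((e : ℝ) * q) =
        y * ((t + 1 : ℕ) : ℝ) ^ 2 := by
      rw [hy, hk2]
      conv_lhs => rw [he2]
      have h3 : (e1 : ℝ) ≠ 0 := by exact_mod_cast he1pos.ne'
      have h4 : (q : ℝ) ≠ 0 := by exact_mod_cast hq0.ne'
      have h5 : (e2 : ℝ) ≠ 0 := by exact_mod_cast he2pos.ne'
      push_cast
      field_simp
    rw [h1, jr_mul_sq k _ hq, h2]
    have h6 : Nat.Coprime (e2 * (t + 1)) q ↔ Nat.Coprime (t + 1) q := by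
      rw [Nat.coprime_mul_iff_left]
      exact ⟨fun h => h.2, fun h => ⟨hcop2, h⟩⟩
    simp only [h6]
    split_ifs
    · congr 2
      ring
    · simp
  rw [tsum_congr hterm, tsum_mul_left]
  congr 1
  have hsum : Summable (fun n : ℕ =>
      (fun m : ℕ => Real.exp (-π * (y ^ 2 * (m : ℝ) ^ 4))) (n + 1)) := by
    have := qs1_summ (y ^ 2) (by positivity) 4 (by norm_num)
    simpa using this
  have hmain := qs1_cop q hq0 (fun m : ℕ => Real.exp (-π * (y ^ 2 * (m : ℝ) ^ 4))) hsum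
  rw [hmain]
  refine Finset.sum_congr rfl (fun d hd => ?_)
  congr 1
  unfold Th
  refine tsum_congr (fun s => ?_)
  congr 1
  rw [hy]
  push_cast
  ring

theorem right_split (e q : ℕ) (he : Squarefree e) (hq : Odd q) (hs : Squarefree q)
    (heq : Nat.Coprime e q) (M K : ℕ) (hM : 1 ≤ M) :
    |∑' h : ℕ, jr ((e : ℤ) * ((h : ℤ) + 1)) q *
        Real.exp (-π * (((h : ℝ) + 1) * M / ((e : ℝ) * q)) ^ 2) -
      ∑ k ∈ sf K, jr k q * ∑ d ∈ q.divisors, (ArithmeticFunction.moebius d : ℝ) *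
        Th ((k : ℝ) * M * (d : ℝ) ^ 2 / ((Nat.gcd e k : ℝ) ^ 2 * q))| ≤ Tl M K e q := by
  have he0 : 0 < e := Nat.pos_of_ne_zero he.ne_zero
  have hq0 : 0 < q := hq.pos
  have hMr : (0 : ℝ) < M := by exact_mod_cast hM
  have her : (0 : ℝ) < e := by exact_mod_cast he0
  have hqr : (0 : ℝ) < q := by exact_mod_cast hq0
  set f : ℕ → ℝ := fun h => jr ((e : ℤ) * ((h : ℤ) + 1)) q *
        Real.exp (-π * (((h : ℝ) + 1) * M / ((e : ℝ) * q)) ^ 2) with hf
  set g : ℕ → ℝ := fun h => Real.exp (-π * (((h : ℝ) + 1) * M / ((e : ℝ) * q)) ^ 2) with hg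
  have hgs : Summable g := by
    have := qs1_summ ((M / ((e : ℝ) * q)) ^ 2) (by positivity) 2 (by norm_num)
    refine this.congr (fun n => ?_)
    simp only [hg]
    congr 1
    ring
  have hfg : ∀ h, |f h| ≤ g h := by
    intro h
    simp only [hf, hg]
    rw [abs_mul, abs_of_pos (Real.exp_pos _)]
    calc _ ≤ 1 * _ := mul_le_mul_of_nonneg_right (abs_jr_le _ _) (Real.exp_pos _).le
      _ = _ := one_mul _
  have hfs : Summable f := Summable.of_norm_bounded hgs (by simpa using hfg)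
  -- the map
  set φ : ℕ × ℕ → ℕ := fun x =>
    (x.1 / Nat.gcd e x.1) * (e / Nat.gcd e x.1) * (x.2 + 1) ^ 2 with hφ
  have hφe : ∀ x : ℕ × ℕ, 1 ≤ x.1 → e * φ x =
      x.1 * ((e / Nat.gcd e x.1) * (x.2 + 1)) ^ 2 ∧ 0 < φ x ∧ 0 < e / Nat.gcd e x.1 := by
    intro x hx
    have he1pos : 0 < Nat.gcd e x.1 := Nat.gcd_pos_of_pos_left x.1 he0
    have h1 : Nat.gcd e x.1 * (e / Nat.gcd e x.1) = e := Nat.mul_div_cancel' (Nat.gcd_dvd_left _ _)
    have h2 : Nat.gcd e x.1 * (x.1 / Nat.gcd e x.1) = x.1 :=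
      Nat.mul_div_cancel' (Nat.gcd_dvd_right _ _)
    have h3 : 0 < e / Nat.gcd e x.1 := Nat.div_pos (Nat.gcd_le_left _ he0) he1pos
    have h4 : 0 < x.1 / Nat.gcd e x.1 := Nat.div_pos (Nat.gcd_le_right _ hx) he1pos
    refine ⟨?_, by simp only [hφ]; positivity, h3⟩
    simp only [hφ]
    calc e * (x.1 / Nat.gcd e x.1 * (e / Nat.gcd e x.1) * (x.2 + 1) ^ 2)
        = (Nat.gcd e x.1 * (e / Nat.gcd e x.1)) *
          (x.1 / Nat.gcd e x.1 * (e / Nat.gcd e x.1) * (x.2 + 1) ^ 2) := by rw [h1]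
      _ = (Nat.gcd e x.1 * (x.1 / Nat.gcd e x.1)) *
          ((e / Nat.gcd e x.1) * (x.2 + 1)) ^ 2 := by ring
      _ = _ := by rw [h2]
  have hmem : ∀ k, k ∈ sf K ↔ (1 ≤ k ∧ k ≤ K) ∧ Squarefree k := by
    intro k
    simp [sf]
  set ψ : ↥(sf K) × ℕ → ℕ := fun x => φ (x.1.1, x.2) - 1 with hψ
  have hψinj : Function.Injective ψ := by
    rintro ⟨⟨k, hk⟩, t⟩ ⟨⟨l, hl⟩, s⟩ hxy
    simp only [hψ] at hxy
    have hk' := (hmem k).1 hk
    have hl' := (hmem l).1 hl
    obtain ⟨h1, h2, h3⟩ := hφe (k, t) hk'.1.1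
    obtain ⟨h4, h5, h6⟩ := hφe (l, s) hl'.1.1
    have h7 : φ (k, t) = φ (l, s) := by omega
    rw [h7] at h1
    have h8 := h1.symm.trans h4
    have h9 : k = l := qs1_sqf_unique hk'.2 hl'.2
      (Nat.mul_pos h3 (Nat.succ_pos _)).ne' (Nat.mul_pos h6 (Nat.succ_pos _)).ne' h8
    subst h9
    simp only at h8
    have h10 := Nat.eq_of_mul_eq_mul_left (lt_of_lt_of_le one_pos hk'.1.1) h8
    have h11 := Nat.pow_left_injective (n := 2) (by norm_num) h10
    have h12 := Nat.eq_of_mul_eq_mul_left h3 h11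
    have h13 : t = s := by omega
    subst h13
    rfl
  -- the complement of the range
  have hrange : ∀ h : ℕ, h ∉ Set.range ψ → K < e * (h + 1) := by
    intro h hh
    by_contra hcon
    apply hh
    push Not at hcon
    obtain ⟨a, b, ha, hb, hab, hsq⟩ := Nat.sq_mul_squarefree_of_pos
      (Nat.mul_pos he0 (Nat.succ_pos h))
    have haK : a ≤ K := by
      refine le_trans ?_ hcon
      rw [← hab]
      exact Nat.le_mul_of_pos_left _ (by positivity)
    have hasf : a ∈ sf K := (hmem a).2 ⟨⟨ha, haK⟩, hsq⟩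
    have he1pos : 0 < Nat.gcd e a := Nat.gcd_pos_of_pos_left a he0
    have h1 : Nat.gcd e a * (e / Nat.gcd e a) = e := Nat.mul_div_cancel' (Nat.gcd_dvd_left _ _)
    have h2 : Nat.gcd e a * (a / Nat.gcd e a) = a :=
      Nat.mul_div_cancel' (Nat.gcd_dvd_right _ _)
    have hc : Nat.Coprime (e / Nat.gcd e a) (a / Nat.gcd e a) :=
      Nat.coprime_div_gcd_div_gcd he1pos
    have h3 : (e / Nat.gcd e a) * (h + 1) = (a / Nat.gcd e a) * b ^ 2 := by
      apply Nat.eq_of_mul_eq_mul_left he1pos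
      rw [← mul_assoc, h1, ← mul_assoc, h2]
      rw [← hab]
      ring
    have h4 : (e / Nat.gcd e a) ∣ b ^ 2 := by
      apply hc.dvd_of_dvd_mul_left
      exact ⟨h + 1, h3.symm⟩
    have he2sq : Squarefree (e / Nat.gcd e a) :=
      Squarefree.squarefree_of_dvd (Nat.div_dvd_of_dvd (Nat.gcd_dvd_left _ _)) he
    obtain ⟨c, hc'⟩ := (he2sq.dvd_pow_iff_dvd (two_ne_zero)).1 h4
    have he2pos : 0 < e / Nat.gcd e a := Nat.pos_of_ne_zero he2sq.ne_zero
    have hcpos : 0 < c := by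
      rcases Nat.eq_zero_or_pos c with h | h
      · rw [h] at hc'; omega
      · exact h
    refine ⟨(⟨a, hasf⟩, c - 1), ?_⟩
    simp only [hψ, hφ]
    rw [Nat.sub_add_cancel hcpos]
    have h5 : a / Nat.gcd e a * (e / Nat.gcd e a) * c ^ 2 = h + 1 := by
      apply Nat.eq_of_mul_eq_mul_left he2pos
      rw [h3, hc']
      ring
    omega
  -- splitting
  have hsplit : ∑' h, f h = ∑' h, (Set.range ψ).indicator f h +
      ∑' h, (Set.range ψ)ᶜ.indicator f h := by
    rw [← (hfs.indicator _).tsum_add (hfs.indicator _)]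
    refine tsum_congr (fun h => ?_)
    exact (congrFun (Set.indicator_self_add_compl (Set.range ψ) f) h).symm
  have hfirst : ∑' h, (Set.range ψ).indicator f h = ∑ k ∈ sf K, jr k q *
      ∑ d ∈ q.divisors, (ArithmeticFunction.moebius d : ℝ) *
        Th ((k : ℝ) * M * (d : ℝ) ^ 2 / ((Nat.gcd e k : ℝ) ^ 2 * q)) := by
    rw [← hψinj.tsum_eq (f := (Set.range ψ).indicator f)
      (fun h hh => Set.mem_of_indicator_ne_zero hh)]
    have h1 : ∀ x : ↥(sf K) × ℕ, (Set.range ψ).indicator f (ψ x) = f (ψ x) :=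
      fun x => Set.indicator_of_mem (Set.mem_range_self x) f
    rw [tsum_congr h1]
    have h2 : Summable (fun x : ↥(sf K) × ℕ => f (ψ x)) := hfs.comp_injective hψinj
    rw [h2.tsum_prod, tsum_fintype, Finset.sum_coe_sort (sf K)
      (fun k => ∑' t : ℕ, f (φ (k, t) - 1))]
    refine Finset.sum_congr rfl (fun k hk => ?_)
    have hk' := (hmem k).1 hk
    rw [← qs1_kpart e q he hq heq M k hM hk'.1.1]
    refine tsum_congr (fun t => ?_)
    obtain ⟨-, h5, -⟩ := hφe (k, t) hk'.1.1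
    simp only [hf]
    have h6 : ((φ (k, t) - 1 : ℕ) : ℤ) + 1 = ((φ (k, t) : ℕ) : ℤ) := by omega
    have h7 : ((φ (k, t) - 1 : ℕ) : ℝ) + 1 = ((φ (k, t) : ℕ) : ℝ) := by
      exact_mod_cast h6
    rw [h6, h7]
  have hsecond : |∑' h, (Set.range ψ)ᶜ.indicator f h| ≤ Tl M K e q := by
    have h1 : Summable (fun h : ℕ => if K < e * (h + 1) then
        Real.exp (-π * ((((h : ℝ) + 1) * M / ((e : ℝ) * q)) ^ 2)) else 0) := by
      refine (hgs.indicator {h : ℕ | K < e * (h + 1)}).congr (fun t => ?_)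
      rw [Set.indicator_apply]
      rfl
    unfold Tl
    rw [← Real.norm_eq_abs]
    refine tsum_of_norm_bounded h1.hasSum (fun h => ?_)
    by_cases hh : h ∈ Set.range ψ
    · rw [Set.indicator_of_notMem (by simpa using hh), norm_zero]
      split_ifs
      · exact (Real.exp_pos _).le
      · exact le_rfl
    · rw [Set.indicator_of_mem (by simpa using hh), if_pos (hrange h hh), Real.norm_eq_abs]
      exact hfg h
  rw [hsplit, hfirst, add_sub_cancel_left]
  exact hsecond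

end Pool.Agent.MP0016c7.Rz
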