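import Mathlib
import Pool.Agent.Lib.MP_0016c7_nt.Rz.Defs
import Pool.Agent.Lib.MP_0016c7_nt.Rz.DivB
import Pool.Agent.Lib.MP_0016c7_nt.Qls.QDefs
import Pool.Agent.Lib.MP_0016c7_nt.Qls.QJr
import Pool.Agent.Lib.MP_0016c7_nt.Qls.QE2
import Pool.Agent.Lib.MP_0016c7_nt.Qls.QR1
import Pool.Agent.Lib.MP_0016c7_nt.Qls.QS1
import Pool.Agent.Lib.MP_0016c7_nt.Qls.QL1
import Pool.Agent.Lib.MP_0016c7_nt.Qls.QN1
import Pool.Agent.Lib.MP_0016c7_nt.Qls.QT1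
import Pool.Agent.Lib.MP_0016c7_nt.Qls.QI1
import Pool.Agent.Lib.MP_0016c7_nt.Qls.QJ2

set_option autoImplicit false

open Finset MeasureTheory Filter Topology
open scoped Real

namespace Pool.Agent.MP0016c7.Rz

/-- The contribution of a pair. -/
private noncomputable def qzP (M K n₁ n₂ : ℕ) : ℝ :=
  ∑' m : ℕ, jr ((m : ℤ) + 1) (n₁ * n₂) * Real.exp (-π * (((m : ℝ) + 1) / M) ^ 2) -
    ∑ k ∈ sf K, ∑' t : ℕ, jr ((k : ℤ) * ((t : ℤ) + 1) ^ 2) (n₁ * n₂) *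
      Real.exp (-π * ((k : ℝ) * ((t : ℝ) + 1) ^ 2 / M) ^ 2)

private theorem qz_mu (e : ℕ) : |(ArithmeticFunction.moebius e : ℝ)| ≤ 1 := by
  have h : |ArithmeticFunction.moebius e| ≤ 1 := ArithmeticFunction.abs_moebius_le_one
  exact_mod_cast h

private theorem qz_pair (M K n₁ n₂ : ℕ) (hM : 1 ≤ M) (h1 : Odd n₁) (h2 : Odd n₂)
    (s1 : Squarefree n₁) (s2 : Squarefree n₂) (h4 : n₁ % 4 = n₂ % 4) (g q : ℕ)
    (hg : g = Nat.gcd n₁ n₂) (hq : q = n₁ / g * (n₂ / g)) :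
    |qzP M K n₁ n₂ - ∑ k ∈ sf K, (Rt M k g q - Lt M k n₁ n₂)| ≤
      (if n₁ = n₂ then (n₁.divisors.card : ℝ) * M else 0) +
        ∑ e ∈ g.divisors, (M : ℝ) / (e * √(q : ℝ)) * Tl M K e q := by
  have hM0 : (0 : ℝ) < M := by exact_mod_cast hM
  have hn1 : 0 < n₁ := h1.pos
  have hn2 : 0 < n₂ := h2.pos
  have hg0 : 0 < g := by rw [hg]; exact Nat.gcd_pos_of_pos_left _ hn1
  have hg1 : g ∣ n₁ := hg ▸ Nat.gcd_dvd_left _ _
  have hg2 : g ∣ n₂ := hg ▸ Nat.gcd_dvd_right _ _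
  obtain ⟨x, hx⟩ := hg1
  obtain ⟨y, hy⟩ := hg2
  have hxq : n₁ / g = x := by rw [hx]; exact Nat.mul_div_cancel_left _ hg0
  have hyq : n₂ / g = y := by rw [hy]; exact Nat.mul_div_cancel_left _ hg0
  rw [hxq, hyq] at hq
  have hxo : Odd x := by rw [hx] at h1; exact (Nat.odd_mul.1 h1).2
  have hyo : Odd y := by rw [hy] at h2; exact (Nat.odd_mul.1 h2).2
  have hgo : Odd g := by rw [hx] at h1; exact (Nat.odd_mul.1 h1).1
  have hqo : Odd q := hq ▸ hxo.mul hyo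
  have hq0 : 0 < q := hqo.pos
  have hxy : Nat.Coprime x y := by
    have h := Nat.coprime_div_gcd_div_gcd (m := n₁) (n := n₂) (by rw [← hg]; exact hg0)
    rw [← hg, hxq, hyq] at h
    exact h
  have hsx : Squarefree x := by rw [hx] at s1; exact s1.of_mul_right
  have hsy : Squarefree y := by rw [hy] at s2; exact s2.of_mul_right
  have hsg : Squarefree g := by rw [hx] at s1; exact s1.of_mul_left
  have hsq : Squarefree q := by rw [hq]; exact (Nat.squarefree_mul hxy).2 ⟨hsx, hsy⟩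
  have hgx : Nat.Coprime g x := by rw [hx] at s1; exact Nat.coprime_of_squarefree_mul s1
  have hgy : Nat.Coprime g y := by rw [hy] at s2; exact Nat.coprime_of_squarefree_mul s2
  have hgq : Nat.Coprime g q := by rw [hq]; exact Nat.Coprime.mul_right hgx hgy
  have hqs : (0 : ℝ) < √(q : ℝ) := Real.sqrt_pos.2 (by exact_mod_cast hq0)
  -- the pieces
  set H : ℕ → ℝ := fun e => ∑' h : ℕ, jr ((e : ℤ) * ((h : ℤ) + 1)) q *
    Real.exp (-π * (((h : ℝ) + 1) * M / ((e : ℝ) * q)) ^ 2) with hH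
  set H' : ℕ → ℝ := fun e => ∑ k ∈ sf K, jr k q * ∑ d ∈ q.divisors,
    (ArithmeticFunction.moebius d : ℝ) *
      Th ((k : ℝ) * M * (d : ℝ) ^ 2 / ((Nat.gcd e k : ℝ) ^ 2 * q)) with hH'
  have hS := S_right n₁ n₂ h1 h2 s1 s2 h4 (M : ℝ) hM0 g q hg (by rw [hxq, hyq]; exact hq)
  have hL : ∀ k ∈ sf K, ∑' t : ℕ, jr ((k : ℤ) * ((t : ℤ) + 1) ^ 2) (n₁ * n₂) *
      Real.exp (-π * ((k : ℝ) * ((t : ℝ) + 1) ^ 2 / M) ^ 2) = Lt M k n₁ n₂ +
        jr k (n₁ * n₂) * ∑ d ∈ (Nat.lcm n₁ n₂).divisors, (ArithmeticFunction.moebius d : ℝ) *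
        (cE / √((k : ℝ) * (d : ℝ) ^ 2 / M)) := by
    intro k hk
    have hk1 : 1 ≤ k := (mem_Icc.1 (mem_filter.1 hk).1).1
    rw [left_eq k n₁ n₂ hk1 h1 h2 M hM0, Lt, ← mul_add, ← sum_add_distrib]
    congr 1
    refine sum_congr rfl fun d _ => ?_
    rw [EE]
    ring
  have hR : ∑ e ∈ g.divisors, (ArithmeticFunction.moebius e : ℝ) * ((M : ℝ) / (e * √(q : ℝ))) * H' e =
      ∑ k ∈ sf K, (Rt M k g q + jr k (n₁ * n₂) * ∑ d ∈ (Nat.lcm n₁ n₂).divisors,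
        (ArithmeticFunction.moebius d : ℝ) * (cE / √((k : ℝ) * (d : ℝ) ^ 2 / M))) := by
    have e1 : ∀ k ∈ sf K, Rt M k g q + jr k (n₁ * n₂) * ∑ d ∈ (Nat.lcm n₁ n₂).divisors,
        (ArithmeticFunction.moebius d : ℝ) * (cE / √((k : ℝ) * (d : ℝ) ^ 2 / M)) =
        jr k q * ((M : ℝ) / √(q : ℝ)) * ∑ e ∈ g.divisors, (ArithmeticFunction.moebius e : ℝ) / e *
          ∑ d ∈ q.divisors, (ArithmeticFunction.moebius d : ℝ) *
            Th ((k : ℝ) * M * (d : ℝ) ^ 2 / ((Nat.gcd e k : ℝ) ^ 2 * q)) := by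
      intro k hk
      have hks : Squarefree k := (mem_filter.1 hk).2
      rw [← main_cancel k n₁ n₂ hks h1 h2 s1 s2 M hM0 g q hg (by rw [hxq, hyq]; exact hq), Rt,
        ← mul_add, ← sum_add_distrib]
      congr 1
      refine sum_congr rfl fun e _ => ?_
      rw [← mul_add, ← sum_add_distrib]
      congr 1
      refine sum_congr rfl fun d _ => ?_
      rw [EE]
      ring
    rw [sum_congr rfl e1]
    simp only [hH', mul_sum]
    rw [sum_comm]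
    refine sum_congr rfl fun k _ => sum_congr rfl fun e _ => sum_congr rfl fun d _ => ?_
    by_cases he : (e : ℝ) = 0
    · rw [he]; simp
    · field_simp
  have hdiag : |∑ e ∈ g.divisors, (ArithmeticFunction.moebius e : ℝ) *
      (if q = 1 then ((M : ℝ) / e - 1) / 2 else 0)| ≤
      (if n₁ = n₂ then (n₁.divisors.card : ℝ) * M else 0) := by
    by_cases hq1 : q = 1
    · have hx1 : x = 1 := by
        rw [hq1] at hq
        exact Nat.eq_one_of_mul_eq_one_right hq.symm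
      have hy1 : y = 1 := by
        rw [hq1] at hq
        exact Nat.eq_one_of_mul_eq_one_left hq.symm
      have hn12 : n₁ = n₂ := by rw [hx, hy, hx1, hy1]
      have hgn : g = n₁ := by rw [hx, hx1, mul_one]
      rw [if_pos hn12]
      refine (abs_sum_le_sum_abs _ _).trans ?_
      rw [← hgn, ← nsmul_eq_mul, ← sum_const]
      refine sum_le_sum fun e he => ?_
      rw [if_pos hq1, abs_mul]
      have he1 : (1 : ℝ) ≤ e := by
        exact_mod_cast Nat.pos_of_mem_divisors he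
      have hm : |(ArithmeticFunction.moebius e : ℝ)| ≤ 1 := qz_mu e
      have hM1 : (1 : ℝ) ≤ M := by exact_mod_cast hM
      have h5 : |((M : ℝ) / e - 1) / 2| ≤ M := by
        have h6 : (M : ℝ) / e ≤ M := div_le_self hM0.le he1
        have h7 : 0 ≤ (M : ℝ) / e := by (clear * - hM he1; positivity)
        rw [abs_le]
        constructor <;> linarith only [hM0, hM1, h7, h6]
      calc _ ≤ 1 * (M : ℝ) := mul_le_mul hm h5 (abs_nonneg _) zero_le_one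
        _ = M := one_mul _
    · simp only [hq1, if_false, mul_zero, sum_const_zero, abs_zero]
      split_ifs
      · exact mul_nonneg (Nat.cast_nonneg _) hM0.le
      · exact le_rfl
  have htail : |∑ e ∈ g.divisors, (ArithmeticFunction.moebius e : ℝ) *
      ((M : ℝ) / (e * √(q : ℝ))) * (H e - H' e)| ≤
      ∑ e ∈ g.divisors, (M : ℝ) / (e * √(q : ℝ)) * Tl M K e q := by
    refine (abs_sum_le_sum_abs _ _).trans (sum_le_sum fun e he => ?_)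
    have he1 : (1 : ℝ) ≤ e := by exact_mod_cast Nat.pos_of_mem_divisors he
    have heg : e ∣ g := Nat.dvd_of_mem_divisors he
    have hse : Squarefree e := hsg.squarefree_of_dvd heg
    have heq : Nat.Coprime e q := Nat.Coprime.coprime_dvd_left heg hgq
    have hm : |(ArithmeticFunction.moebius e : ℝ)| ≤ 1 := qz_mu e
    have h6 := right_split e q hse hqo hsq heq M K hM
    rw [abs_mul, abs_mul]
    have h7 : 0 ≤ (M : ℝ) / (e * √(q : ℝ)) := by (clear * - hM he1 hq0; positivity)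
    rw [abs_of_nonneg h7]
    calc |(ArithmeticFunction.moebius e : ℝ)| * ((M : ℝ) / (e * √(q : ℝ))) * |H e - H' e|
        ≤ 1 * ((M : ℝ) / (e * √(q : ℝ))) * Tl M K e q := by
          (clear * - hm hM he1 hq0 h6; gcongr)
      _ = _ := by rw [one_mul]
  have hfin : qzP M K n₁ n₂ - ∑ k ∈ sf K, (Rt M k g q - Lt M k n₁ n₂) =
      (∑ e ∈ g.divisors, (ArithmeticFunction.moebius e : ℝ) *
        (if q = 1 then ((M : ℝ) / e - 1) / 2 else 0)) +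
      ∑ e ∈ g.divisors, (ArithmeticFunction.moebius e : ℝ) *
        ((M : ℝ) / (e * √(q : ℝ))) * (H e - H' e) := by
    have e2 : ∑ e ∈ g.divisors, (ArithmeticFunction.moebius e : ℝ) *
        ((M : ℝ) / (e * √(q : ℝ))) * (H e - H' e) =
        ∑ e ∈ g.divisors, (ArithmeticFunction.moebius e : ℝ) * ((M : ℝ) / (e * √(q : ℝ)) * H e) -
        ∑ e ∈ g.divisors, (ArithmeticFunction.moebius e : ℝ) *
          ((M : ℝ) / (e * √(q : ℝ))) * H' e := by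
      rw [← sum_sub_distrib]
      refine sum_congr rfl fun e _ => ?_
      ring
    have e3 : ∑ e ∈ g.divisors, (ArithmeticFunction.moebius e : ℝ) *
        ((M : ℝ) / (e * √(q : ℝ)) * H e + (if q = 1 then ((M : ℝ) / e - 1) / 2 else 0)) =
        ∑ e ∈ g.divisors, (ArithmeticFunction.moebius e : ℝ) * ((M : ℝ) / (e * √(q : ℝ)) * H e) +
        ∑ e ∈ g.divisors, (ArithmeticFunction.moebius e : ℝ) *
          (if q = 1 then ((M : ℝ) / e - 1) / 2 else 0) := by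
      rw [← sum_add_distrib]
      refine sum_congr rfl fun e _ => ?_
      ring
    rw [e3] at hS
    rw [qzP, hS, sum_congr rfl hL, e2, hR, sum_add_distrib, sum_add_distrib, sum_sub_distrib]
    ring
  rw [hfin]
  exact (abs_add_le _ _).trans (add_le_add hdiag htail)

/-- The estimate for a block, before inserting the bounds. -/
private theorem qz_block (M N K j : ℕ) (hM : 1 ≤ M) (a : ℕ → ℝ) (ha : Blk N j a) :
    Real.exp (-π) * ∑ m ∈ (os M).filter (fun m => K < m), (∑ n ∈ os N, a n * jr m n) ^ 2 ≤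
      ∑ n ∈ os N, (n.divisors.card : ℝ) * M * a n ^ 2 +
      ∑ n₁ ∈ os N, ∑ n₂ ∈ os N, |a n₁ * a n₂| * ∑ e ∈ (Nat.gcd n₁ n₂).divisors,
        (M : ℝ) / (e * √((n₁ / Nat.gcd n₁ n₂ * (n₂ / Nat.gcd n₁ n₂) : ℕ) : ℝ)) *
          Tl M K e (n₁ / Nat.gcd n₁ n₂ * (n₂ / Nat.gcd n₁ n₂)) +
      |∑ k ∈ sf K, ∑ n₁ ∈ os N, ∑ n₂ ∈ os N, a n₁ * a n₂ *
        Rt M k (Nat.gcd n₁ n₂) (n₁ / Nat.gcd n₁ n₂ * (n₂ / Nat.gcd n₁ n₂))| +
      |∑ k ∈ sf K, ∑ n₁ ∈ os N, ∑ n₂ ∈ os N, a n₁ * a n₂ * Lt M k n₁ n₂| := by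
  refine (left_bound M K N hM a).2.2.trans ?_
  have h1 : ∀ n₁ ∈ os N, ∀ n₂ ∈ os N, a n₁ * a n₂ * qzP M K n₁ n₂ ≤
      (if n₁ = n₂ then (n₁.divisors.card : ℝ) * M * a n₁ ^ 2 else 0) +
      |a n₁ * a n₂| * (∑ e ∈ (Nat.gcd n₁ n₂).divisors,
        (M : ℝ) / (e * √((n₁ / Nat.gcd n₁ n₂ * (n₂ / Nat.gcd n₁ n₂) : ℕ) : ℝ)) *
          Tl M K e (n₁ / Nat.gcd n₁ n₂ * (n₂ / Nat.gcd n₁ n₂))) +
      ∑ k ∈ sf K, (a n₁ * a n₂ *
        Rt M k (Nat.gcd n₁ n₂) (n₁ / Nat.gcd n₁ n₂ * (n₂ / Nat.gcd n₁ n₂)) -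
        a n₁ * a n₂ * Lt M k n₁ n₂) := by
    intro n₁ hn₁ n₂ hn₂
    by_cases h0 : a n₁ * a n₂ = 0
    · rw [h0]
      simp only [zero_mul, sub_zero, sum_const_zero, add_zero, abs_zero]
      split_ifs
      · (clear * - hM; positivity)
      · exact le_rfl
    · have ha1 : a n₁ ≠ 0 := fun h => h0 (by rw [h, zero_mul])
      have ha2 : a n₂ ≠ 0 := fun h => h0 (by rw [h, mul_zero])
      have b1 := ha n₁ ha1
      have b2 := ha n₂ ha2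
      have c1 := (mem_filter.1 b1.1).2
      have c2 := (mem_filter.1 b2.1).2
      have h := qz_pair M K n₁ n₂ hM c1.1 c2.1 c1.2 c2.2 (b1.2.2.trans b2.2.2.symm) _ _ rfl rfl
      have h2 : a n₁ * a n₂ * (qzP M K n₁ n₂ - ∑ k ∈ sf K,
          (Rt M k (Nat.gcd n₁ n₂) (n₁ / Nat.gcd n₁ n₂ * (n₂ / Nat.gcd n₁ n₂)) -
            Lt M k n₁ n₂)) ≤ |a n₁ * a n₂| * ((if n₁ = n₂ then (n₁.divisors.card : ℝ) * M else 0) +
        ∑ e ∈ (Nat.gcd n₁ n₂).divisors,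
        (M : ℝ) / (e * √((n₁ / Nat.gcd n₁ n₂ * (n₂ / Nat.gcd n₁ n₂) : ℕ) : ℝ)) *
          Tl M K e (n₁ / Nat.gcd n₁ n₂ * (n₂ / Nat.gcd n₁ n₂))) := by
        refine (le_abs_self _).trans ?_
        rw [abs_mul]
        exact mul_le_mul_of_nonneg_left h (abs_nonneg _)
      have h3 : |a n₁ * a n₂| * (if n₁ = n₂ then (n₁.divisors.card : ℝ) * M else 0) =
          if n₁ = n₂ then (n₁.divisors.card : ℝ) * M * a n₁ ^ 2 else 0 := by
        split_ifs with he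
        · rw [← he, ← sq, abs_of_nonneg (sq_nonneg _)]
          ring
        · rw [mul_zero]
      have h4 : ∑ k ∈ sf K, (a n₁ * a n₂ *
        Rt M k (Nat.gcd n₁ n₂) (n₁ / Nat.gcd n₁ n₂ * (n₂ / Nat.gcd n₁ n₂)) -
        a n₁ * a n₂ * Lt M k n₁ n₂) = a n₁ * a n₂ * ∑ k ∈ sf K,
          (Rt M k (Nat.gcd n₁ n₂) (n₁ / Nat.gcd n₁ n₂ * (n₂ / Nat.gcd n₁ n₂)) -
            Lt M k n₁ n₂) := by
        rw [mul_sum]
        refine sum_congr rfl fun k _ => ?_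
        ring
      rw [h4, ← h3]
      linarith only [h2]
  have h2 : ∑ n₁ ∈ os N, ∑ n₂ ∈ os N, a n₁ * a n₂ * qzP M K n₁ n₂ ≤ _ :=
    sum_le_sum fun n₁ hn₁ => sum_le_sum fun n₂ hn₂ => h1 n₁ hn₁ n₂ hn₂
  refine h2.trans ?_
  simp only [sum_add_distrib, sum_sub_distrib]
  have e1 : ∑ n₁ ∈ os N, ∑ n₂ ∈ os N,
      (if n₁ = n₂ then (n₁.divisors.card : ℝ) * M * a n₁ ^ 2 else 0) =
      ∑ n ∈ os N, (n.divisors.card : ℝ) * M * a n ^ 2 := by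
    refine sum_congr rfl fun n hn => ?_
    rw [sum_ite_eq, if_pos hn]
  have e2 : ∑ n₁ ∈ os N, ∑ n₂ ∈ os N, ∑ k ∈ sf K, a n₁ * a n₂ *
        Rt M k (Nat.gcd n₁ n₂) (n₁ / Nat.gcd n₁ n₂ * (n₂ / Nat.gcd n₁ n₂)) =
      ∑ k ∈ sf K, ∑ n₁ ∈ os N, ∑ n₂ ∈ os N, a n₁ * a n₂ *
        Rt M k (Nat.gcd n₁ n₂) (n₁ / Nat.gcd n₁ n₂ * (n₂ / Nat.gcd n₁ n₂)) := by
    rw [sum_comm (s := sf K)]
    refine sum_congr rfl fun n₁ _ => ?_
    rw [sum_comm]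
  have e3 : ∑ n₁ ∈ os N, ∑ n₂ ∈ os N, ∑ k ∈ sf K, a n₁ * a n₂ * Lt M k n₁ n₂ =
      ∑ k ∈ sf K, ∑ n₁ ∈ os N, ∑ n₂ ∈ os N, a n₁ * a n₂ * Lt M k n₁ n₂ := by
    rw [sum_comm (s := sf K)]
    refine sum_congr rfl fun n₁ _ => ?_
    rw [sum_comm]
  rw [e1, e2, e3]
  have h5 := le_abs_self (∑ k ∈ sf K, ∑ n₁ ∈ os N, ∑ n₂ ∈ os N, a n₁ * a n₂ *
        Rt M k (Nat.gcd n₁ n₂) (n₁ / Nat.gcd n₁ n₂ * (n₂ / Nat.gcd n₁ n₂)))
  have h6 := neg_abs_le (∑ k ∈ sf K, ∑ n₁ ∈ os N, ∑ n₂ ∈ os N, a n₁ * a n₂ * Lt M k n₁ n₂)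
  linarith only [h5, h6]

private theorem qz_r1 {D Me F Q x B C S y : ℝ} (hD : 0 ≤ D) (hx : 0 ≤ x) (hB : 0 ≤ B) (hF : 0 ≤ F)
    (hMe0 : 0 ≤ Me) (hMe : Me ≤ x) (hD2 : D ≤ 2 * x * B) (hQ0 : 0 ≤ Q) (hQ : Q ≤ C * x * S)
    (hC : 0 ≤ C) (hS : 0 ≤ S) (hy : x * x * x ≤ y) :
    2 * D * Me * F * Q ≤ 4 * F * C * (y * B * S) := by
  have h1 : 2 * D * Me * F * Q ≤ 2 * (2 * x * B) * x * F * (C * x * S) := by (clear * - hD2 hMe hMe0 hx hB hF hQ hQ0; gcongr)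
  have h2 : 2 * (2 * x * B) * x * F * (C * x * S) = 4 * F * C * (x * x * x * B * S) := by ring
  have h3 : 4 * F * C * (x * x * x * B * S) ≤ 4 * F * C * (y * B * S) := by (clear * - hy hB hS hF hC; gcongr)
  linarith

private theorem qz_r2 {C₂ x4 B Q C x S y : ℝ} (hC₂ : 0 ≤ C₂) (hx4 : 0 ≤ x4) (hB : 0 ≤ B)
    (hC : 0 ≤ C) (hS : 0 ≤ S) (hQ : Q ≤ C * x * S) (hy : x4 * x ≤ y) :
    C₂ * x4 * B * Q ≤ C₂ * C * (y * B * S) := by
  have h1 : C₂ * x4 * B * Q ≤ C₂ * x4 * B * (C * x * S) := by (clear * - hQ hC₂ hx4 hB; gcongr)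
  have h2 : C₂ * x4 * B * (C * x * S) = C₂ * C * (x4 * x * B * S) := by ring
  have h3 : C₂ * C * (x4 * x * B * S) ≤ C₂ * C * (y * B * S) := by (clear * - hy hB hS hC₂ hC; gcongr)
  linarith

private theorem qz_r3 {T T0 e c₁ c₂ c₃ c₄ x y M B S A₁ A₂ A₃ A₄ W : ℝ} (he : 0 ≤ e) (hM : 1 ≤ M)
    (hB : 0 ≤ B) (hS : 0 ≤ S) (hx : 0 ≤ x) (hxy : x ≤ y) (hy : 1 ≤ y) (h1 : 0 ≤ c₁) (h2 : 0 ≤ c₂)
    (h3 : 0 ≤ c₃) (h4 : 0 ≤ c₄) (hT : T = e * W) (hW : W ≤ A₁ + A₂ + A₃ + A₄)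
    (hA₁ : A₁ ≤ c₁ * x * M * S) (hA₂ : A₂ ≤ c₂ * S) (hA₃ : A₃ ≤ c₃ * (y * B * S))
    (hA₄ : A₄ ≤ c₄ * (y * B * S)) (hT0 : T0 ≤ 2 * x * B * S) :
    T0 + T ≤ (2 + e * (c₁ + c₂ + c₃ + c₄)) * y * (M + B) * S := by
  have hMB : B ≤ M + B := by linarith
  have hMM : M ≤ M + B := by linarith
  have b1 : c₁ * x * M * S ≤ c₁ * (y * (M + B) * S) := by
    have : c₁ * x * M * S ≤ c₁ * y * (M + B) * S := by (clear * - hxy h1 hMM hM hy hS; gcongr)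
    linarith
  have b2 : c₂ * S ≤ c₂ * (y * (M + B) * S) := by
    have h5 : 1 ≤ y * (M + B) := by nlinarith only [hy, hM, hx, hxy, hB]
    have h6 : 1 * S ≤ y * (M + B) * S := mul_le_mul_of_nonneg_right h5 hS
    rw [one_mul] at h6
    (clear * - h6 h2; gcongr)
  have b3 : c₃ * (y * B * S) ≤ c₃ * (y * (M + B) * S) := by (clear * - hMB hy hS h3; gcongr)
  have b4 : c₄ * (y * B * S) ≤ c₄ * (y * (M + B) * S) := by (clear * - hMB hy hS h4; gcongr)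
  have b5 : W ≤ (c₁ + c₂ + c₃ + c₄) * (y * (M + B) * S) := by linarith only [hW, hA₁, hA₂, hA₃, hA₄, b1, b2, b3, b4]
  have b6 : T ≤ e * ((c₁ + c₂ + c₃ + c₄) * (y * (M + B) * S)) := by
    rw [hT]
    (clear * - b5 he; gcongr)
  have b7 : 2 * x * B * S ≤ 2 * (y * (M + B) * S) := by
    have : 2 * x * B * S ≤ 2 * y * (M + B) * S := by (clear * - hxy hMB hB hy hS; gcongr)
    linarith
  linarith only [hT0, b6, b7]

/-- The recursion. -/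
theorem qls_rec (ε : ℝ) (hε : 0 < ε) (hε' : ε < 1 / 4) : ∃ C : ℝ, 0 < C ∧
    ∀ M N : ℕ, 1 ≤ N → N ≤ M → ∀ B : ℝ, 0 ≤ B →
    (∀ N' K' : ℕ, 1 ≤ N' → N' ≤ N → 1 ≤ K' →
      (K' : ℝ) ≤ ((M : ℝ) * N) ^ ε * (N : ℝ) ^ 2 / M + 1 →
      ∃ D : ℝ, 0 ≤ D ∧ QL K' N' D ∧ min ((M : ℝ) / N') (√((M : ℝ) / K')) * D ≤ B) →
    QB M N (C * ((M : ℝ) * N) ^ (6 * ε) * (M + B)) := by
  obtain ⟨C₁, hC₁, hdiv⟩ := divisor_bound (ε / 5) (by positivity)
  obtain ⟨C₂, hC₂, hright⟩ := bound_right ε hε hε'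
  obtain ⟨C₃, hC₃, htail⟩ := bound_tail ε hε
  obtain ⟨f, -, hf⟩ := EE_mellin ε hε (by linarith only [hε, hε'])
  set F : ℝ := ∫ τ : ℝ, ‖f τ‖ with hF
  have hF0 : 0 ≤ F := integral_nonneg fun _ => norm_nonneg _
  refine ⟨2 + Real.exp π * (C₁ + C₃ + C₂ * C₁ ^ 5 + 4 * F * C₁ ^ 5), by (clear * - hC₁ hC₃ hC₂; positivity), ?_⟩
  intro M N hN hNM B hB hyp j a ha
  have hM : 1 ≤ M := hN.trans hNM
  have hMr : (1 : ℝ) ≤ M := by exact_mod_cast hM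
  have hNr : (1 : ℝ) ≤ N := by exact_mod_cast hN
  have hNMr : (N : ℝ) ≤ M := by exact_mod_cast hNM
  have hM0 : (0 : ℝ) < M := by linarith only [hε, hε', hMr]
  have hN0 : (0 : ℝ) < N := by linarith only [hε, hε', hNr]
  set X : ℝ := (M : ℝ) * N with hX
  have hX1 : 1 ≤ X := by nlinarith only [hNr, hMr]
  have hX0 : 0 < X := by linarith only [hε, hε', hX1]
  have hXe : 1 ≤ X ^ ε := Real.one_le_rpow hX1 hε.le
  set S : ℝ := ∑ n ∈ os N, a n ^ 2 with hS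
  have hS0 : 0 ≤ S := sum_nonneg fun _ _ => sq_nonneg _
  -- the cut
  set K : ℕ := ⌈X ^ ε * (N : ℝ) ^ 2 / M⌉₊ with hK
  have hKpos : 0 < X ^ ε * (N : ℝ) ^ 2 / M := by (clear * - hM hN; positivity)
  have hK1 : 1 ≤ K := Nat.one_le_iff_ne_zero.2 (by rw [hK]; exact (Nat.ceil_pos.2 hKpos).ne')
  have hKlow : X ^ ε * (N : ℝ) ^ 2 / M ≤ K := Nat.le_ceil _
  have hKup : (K : ℝ) ≤ X ^ ε * (N : ℝ) ^ 2 / M + 1 := (Nat.ceil_lt_add_one hKpos.le).le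
  have hN2M : (N : ℝ) ^ 2 / M ≤ M := by
    rw [div_le_iff₀ hM0]
    nlinarith only [hNMr]
  have hXeM : X ^ ε ≤ M := by
    have h1 : X ≤ (M : ℝ) ^ 2 := by rw [hX]; nlinarith only [hNMr]
    calc X ^ ε ≤ ((M : ℝ) ^ 2) ^ ε := Real.rpow_le_rpow hX0.le h1 hε.le
      _ = (M : ℝ) ^ (2 * ε) := by
        rw [← Real.rpow_natCast, ← Real.rpow_mul hM0.le]
        norm_num
      _ ≤ (M : ℝ) ^ (1 : ℝ) := Real.rpow_le_rpow_of_exponent_le hMr (by linarith only [hε, hε'])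
      _ = M := Real.rpow_one _
  have hKup2 : (K : ℝ) ≤ X ^ ε * M + 1 := by
    refine hKup.trans ?_
    have : X ^ ε * (N : ℝ) ^ 2 / M ≤ X ^ ε * M := by
      rw [mul_div_assoc]
      (clear * - hN2M hM hN; gcongr)
    linarith only [this]
  have hK2 : (K : ℝ) ≤ 2 * (M : ℝ) ^ 2 := by
    have : X ^ ε * M ≤ (M : ℝ) ^ 2 := by nlinarith only [hXeM]
    nlinarith only [hMr, hKup2, this]
  have hK3 : (K : ℝ) ≤ 2 * X ^ ε * M := by nlinarith only [hMr, hKup2, hXe]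
  have hK0 : (0 : ℝ) < K := by exact_mod_cast hK1
  -- divisor bounds
  have hd5 : ∀ n ∈ os N, (n.divisors.card : ℝ) ^ 5 ≤ C₁ ^ 5 * X ^ ε := by
    intro n hn
    have hn1 := mem_Icc.1 (mem_filter.1 hn).1
    have hn0 : (0 : ℝ) ≤ n := by positivity
    have h1 := hdiv n hn1.1
    calc (n.divisors.card : ℝ) ^ 5 ≤ (C₁ * (n : ℝ) ^ (ε / 5)) ^ 5 := by (clear * - h1; gcongr)
      _ = C₁ ^ 5 * (n : ℝ) ^ ε := by
        rw [mul_pow, ← Real.rpow_natCast ((n : ℝ) ^ (ε / 5)), ← Real.rpow_mul hn0]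
        norm_num
      _ ≤ C₁ ^ 5 * X ^ ε := by
        gcongr
        have : (n : ℝ) ≤ N := by exact_mod_cast hn1.2
        nlinarith only [this, hMr]
  have hd1 : ∀ n ∈ os N, (n.divisors.card : ℝ) ≤ C₁ * X ^ ε := by
    intro n hn
    have hn1 := mem_Icc.1 (mem_filter.1 hn).1
    have hn1' : (1 : ℝ) ≤ n := by exact_mod_cast hn1.1
    have h1 := hdiv n hn1.1
    calc (n.divisors.card : ℝ) ≤ C₁ * (n : ℝ) ^ (ε / 5) := h1
      _ ≤ C₁ * (n : ℝ) ^ ε := mul_le_mul_of_nonneg_left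
          (Real.rpow_le_rpow_of_exponent_le hn1' (by linarith only [hε])) hC₁.le
      _ ≤ C₁ * X ^ ε := by
        gcongr
        have : (n : ℝ) ≤ N := by exact_mod_cast hn1.2
        nlinarith only [this, hMr]
  have hsum5 : ∑ n ∈ os N, (n.divisors.card : ℝ) ^ 5 * a n ^ 2 ≤ C₁ ^ 5 * X ^ ε * S := by
    rw [hS, mul_sum]
    exact sum_le_sum fun n hn => mul_le_mul_of_nonneg_right (hd5 n hn) (sq_nonneg _)
  -- the constant at `(K, N)`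
  obtain ⟨D, hD, hQ, hDB⟩ := hyp N K hN le_rfl hK1 hKup
  have hmin : 1 / (2 * X ^ ε) ≤ min ((M : ℝ) / N) (√((M : ℝ) / K)) := by
    have h1 : 1 / (2 * X ^ ε) ≤ 1 := by
      rw [div_le_one (by positivity)]
      linarith
    refine le_min ?_ ?_
    · refine h1.trans ?_
      rw [le_div_iff₀ hN0]
      linarith only [hNMr]
    · refine Real.le_sqrt_of_sq_le ?_
      have h2 : 1 / (2 * X ^ ε) ≤ (M : ℝ) / K := by
        rw [div_le_div_iff₀ (by positivity) hK0]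
        linarith only [hK3]
      have h3 : 0 ≤ 1 / (2 * X ^ ε) := by positivity
      nlinarith only [h2, hε, hε', h1, h3]
  have hD2 : D ≤ 2 * X ^ ε * B := by
    have h1 : 1 / (2 * X ^ ε) * D ≤ B := (mul_le_mul_of_nonneg_right hmin hD).trans hDB
    have h2 : D = 2 * X ^ ε * (1 / (2 * X ^ ε) * D) := by field_simp
    rw [h2]
    gcongr
  -- splitting
  have hsplit : ∑ m ∈ os M, (∑ n ∈ os N, a n * jr m n) ^ 2 ≤
      ∑ m ∈ os K, (∑ n ∈ os N, a n * jr m n) ^ 2 +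
        ∑ m ∈ (os M).filter (fun m => K < m), (∑ n ∈ os N, a n * jr m n) ^ 2 := by
    rw [← sum_filter_not_add_sum_filter (os M) (fun m => K < m)]
    refine add_le_add (sum_le_sum_of_subset_of_nonneg ?_ fun _ _ _ => sq_nonneg _) le_rfl
    intro m hm
    rw [mem_filter] at hm
    have h1 := mem_filter.1 hm.1
    have h2 := mem_Icc.1 h1.1
    exact mem_filter.2 ⟨mem_Icc.2 ⟨h2.1, not_lt.1 hm.2⟩, h1.2⟩
  have hfirst : ∑ m ∈ os K, (∑ n ∈ os N, a n * jr m n) ^ 2 ≤ 2 * X ^ ε * B * S :=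
    (hQ a).trans (mul_le_mul_of_nonneg_right hD2 hS0)
  have hblock := qz_block M N K j hM a ha
  have ht := htail M N hN hNM K (hKlow.trans (by linarith only [hε, hε'])) a
  have hl := bound_left hε hf M N K hM D hD hQ a (fun n hn => (ha n hn).1)
  have hr := hright M N K hN hNM hK1 hK2 B hB
    (fun N' h1 h2 K' h3 h4 => hyp N' K' h1 h2 h3 ((Nat.cast_le.2 h4).trans hKup)) j a ha
  have hdg : ∑ n ∈ os N, (n.divisors.card : ℝ) * M * a n ^ 2 ≤ C₁ * X ^ ε * M * S := by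
    rw [hS, mul_sum]
    refine sum_le_sum fun n hn => ?_
    have := hd1 n hn
    (clear * - this hM; gcongr)
  have hp : ∀ c : ℝ, c ≤ 6 * ε → X ^ c ≤ X ^ (6 * ε) := fun c hc =>
    Real.rpow_le_rpow_of_exponent_le hX1 hc
  have hp1 : X ^ ε ≤ X ^ (6 * ε) := hp _ (by linarith only [hε])
  have hp0 : 1 ≤ X ^ (6 * ε) := hXe.trans hp1
  have hx0 : 0 ≤ X ^ ε := by linarith only [hε, hε', hXe]
  have hp3 : X ^ ε * X ^ ε * X ^ ε ≤ X ^ (6 * ε) := by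
    rw [← Real.rpow_add hX0, ← Real.rpow_add hX0]
    exact hp _ (by linarith only [hε])
  have hp5 : X ^ (4 * ε) * X ^ ε ≤ X ^ (6 * ε) := by
    rw [← Real.rpow_add hX0]
    exact hp _ (by linarith only [hε])
  have hMe : (M : ℝ) ^ ε ≤ X ^ ε :=
    Real.rpow_le_rpow hM0.le (by rw [hX]; exact le_mul_of_one_le_right hM0.le hNr) hε.le
  have hMe0 : 0 ≤ (M : ℝ) ^ ε := Real.rpow_nonneg hM0.le _
  have hQ50 : 0 ≤ ∑ n ∈ os N, (n.divisors.card : ℝ) ^ 5 * a n ^ 2 :=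
    sum_nonneg fun _ _ => mul_nonneg (pow_nonneg (Nat.cast_nonneg _) _) (sq_nonneg _)
  have hC15 : 0 ≤ C₁ ^ 5 := pow_nonneg hC₁.le _
  have hl2 := qz_r1 hD hx0 hB hF0 hMe0 hMe hD2 hQ50 hsum5 hC15 hS0 hp3
  have hr2 := qz_r2 hC₂.le (Real.rpow_nonneg hX0.le (4 * ε)) hB hC15 hS0 hsum5 hp5
  refine hsplit.trans (qz_r3 (Real.exp_nonneg π) hMr hB hS0 hx0 hp1 hp0 hC₁.le hC₃.le
    (mul_nonneg hC₂.le hC15) (mul_nonneg (mul_nonneg (by norm_num) hF0) hC15) ?_ hblock hdg ht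
    (hr.trans hr2) (hl.trans hl2) hfirst)
  rw [← mul_assoc, ← Real.exp_add, add_neg_cancel, Real.exp_zero, one_mul]

end Pool.Agent.MP0016c7.Rz
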