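import Mathlib
import Pool.Agent.Lib.MP_0016c7_nt.Rz.Defs
import Pool.Agent.Lib.MP_0016c7_nt.Qls.QDefs
import Pool.Agent.Lib.MP_0016c7_nt.Qls.QJr
import Pool.Agent.Lib.MP_0016c7_nt.Qls.QA1
import Pool.Agent.Lib.MP_0016c7_nt.Qls.QA2
import Pool.Agent.Lib.MP_0016c7_nt.Qls.QZ1

set_option autoImplicit false

open Finset MeasureTheory Filter Topology
open scoped Real

namespace Pool.Agent.MP0016c7.Rz

private lemma qz2_QB_mono {M N : ℕ} {D D' : ℝ} (h : QB M N D) (hD : D ≤ D') : QB M N D' := by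
  intro j a ha
  refine (h j a ha).trans ?_
  exact mul_le_mul_of_nonneg_right hD (Finset.sum_nonneg fun _ _ => sq_nonneg _)

private lemma qz2_log (δ : ℝ) (hδ : 0 < δ) : ∃ C : ℝ, 0 < C ∧ ∀ N : ℕ, 1 ≤ N →
    (Nat.log 2 N : ℝ) + 1 ≤ C * (N : ℝ) ^ δ := by
  have hl : 0 < Real.log 2 := Real.log_pos one_lt_two
  refine ⟨1 / (δ * Real.log 2) + 1, by positivity, fun N hN => ?_⟩
  have hN1 : (1 : ℝ) ≤ N := by exact_mod_cast hN
  have h1 : (Nat.log 2 N : ℝ) ≤ Real.logb 2 N := by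
    have := Real.natLog_le_logb N 2
    simpa using this
  have h2 : Real.log N ≤ (N : ℝ) ^ δ / δ := Real.log_natCast_le_rpow_div N hδ
  have h3 : (1 : ℝ) ≤ (N : ℝ) ^ δ := Real.one_le_rpow hN1 hδ.le
  have h4 : Real.logb 2 N ≤ 1 / (δ * Real.log 2) * (N : ℝ) ^ δ := by
    unfold Real.logb
    calc Real.log N / Real.log 2 ≤ ((N : ℝ) ^ δ / δ) / Real.log 2 :=
          div_le_div_of_nonneg_right h2 hl.le
      _ = _ := by field_simp
  nlinarith only [h1, h3, h4]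

/-- from blocks to all coefficients, with a power of `X` in the constant -/
private lemma qz2_main (δ : ℝ) (hδ : 0 < δ) : ∃ C : ℝ, 0 < C ∧ ∀ M N : ℕ, 1 ≤ M → 1 ≤ N →
    ∀ D : ℝ, 0 ≤ D → (∀ N', 1 ≤ N' → N' ≤ N → QB M N' D) →
      QL M N (C * ((M : ℝ) * N) ^ δ * D) := by
  obtain ⟨C, hC, hlog⟩ := qz2_log δ hδ
  refine ⟨2 * C, by positivity, fun M N hM hN D hD h => ?_⟩
  refine QL_mono (QL_of_QB hD h) le_rfl le_rfl ?_
  have hN1 : (1 : ℝ) ≤ N := by exact_mod_cast hN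
  have hM1 : (1 : ℝ) ≤ M := by exact_mod_cast hM
  have h1 : (N : ℝ) ^ δ ≤ ((M : ℝ) * N) ^ δ :=
    Real.rpow_le_rpow (by positivity) (by nlinarith only [hM1]) hδ.le
  have h2 := hlog N hN
  have h3 : (Nat.log 2 N : ℝ) + 1 ≤ C * ((M : ℝ) * N) ^ δ :=
    h2.trans (mul_le_mul_of_nonneg_left h1 hC.le)
  refine mul_le_mul_of_nonneg_right ?_ hD
  linarith only [h3]

theorem qls_base (ε : ℝ) (hε : 0 < ε) : ∃ C : ℝ, 0 < C ∧ ∀ M N : ℕ, 1 ≤ M → 1 ≤ N →
    QL M N (C * ((M : ℝ) * N) ^ ε * (M + (N : ℝ) ^ (2 : ℝ))) := by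
  set δ : ℝ := min (ε / 8) (1 / 8) with hδdef
  have hδ : 0 < δ := lt_min (by positivity) (by norm_num)
  have hδ1 : δ < 1 / 4 := lt_of_le_of_lt (min_le_right _ _) (by norm_num)
  have hδ2 : 8 * δ ≤ ε := by
    have := min_le_left (ε / 8) (1 / 8)
    rw [← hδdef] at this
    linarith
  obtain ⟨C₁, hC₁, hrec⟩ := qls_rec δ hδ hδ1
  obtain ⟨C₂, hC₂, hmain⟩ := qz2_main δ hδ
  refine ⟨max 1 (2 * C₁ * C₂), lt_max_of_lt_left one_pos, fun M N hM hN => ?_⟩
  have hN1 : (1 : ℝ) ≤ N := by exact_mod_cast hN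
  have hM1 : (1 : ℝ) ≤ M := by exact_mod_cast hM
  have hX : (1 : ℝ) ≤ (M : ℝ) * N := one_le_mul_of_one_le_of_one_le hM1 hN1
  have hN2 : (N : ℝ) ^ (2 : ℝ) = (N : ℝ) ^ (2 : ℕ) := Real.rpow_natCast N 2
  rw [hN2]
  have hXε : (1 : ℝ) ≤ ((M : ℝ) * N) ^ ε := Real.one_le_rpow hX hε.le
  by_cases hNM : N ≤ M
  · -- the recursion
    have hB : ∀ N', 1 ≤ N' → N' ≤ N →
        QB M N' (2 * C₁ * ((M : ℝ) * N) ^ (7 * δ) * (M + (N : ℝ) ^ 2)) := by
      intro N' h1 h2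
      have h1' : (1 : ℝ) ≤ N' := by exact_mod_cast h1
      have h2' : (N' : ℝ) ≤ N := by exact_mod_cast h2
      have hX' : (M : ℝ) * N' ≤ (M : ℝ) * N := mul_le_mul_of_nonneg_left h2' (by positivity)
      have hpow : ((M : ℝ) * N') ^ δ ≤ ((M : ℝ) * N) ^ δ :=
        Real.rpow_le_rpow (by positivity) hX' hδ.le
      have hpow6 : ((M : ℝ) * N') ^ (6 * δ) ≤ ((M : ℝ) * N) ^ (6 * δ) :=
        Real.rpow_le_rpow (by positivity) hX' (by positivity)
      have hXδ : (1 : ℝ) ≤ ((M : ℝ) * N) ^ δ := Real.one_le_rpow hX hδ.le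
      refine qz2_QB_mono (hrec M N' h1 (h2.trans hNM) (((M : ℝ) * N) ^ δ * N ^ 2 + M)
        (by positivity) ?_) ?_
      · intro N'' K' h3 h4 h5 h6
        have h3' : (1 : ℝ) ≤ N'' := by exact_mod_cast h3
        have h5' : (1 : ℝ) ≤ K' := by exact_mod_cast h5
        refine ⟨(K' : ℝ) * N'', by positivity, QL_trivial K' N'', ?_⟩
        calc min ((M : ℝ) / N'') (√((M : ℝ) / K')) * ((K' : ℝ) * N'')
            ≤ ((M : ℝ) / N'') * ((K' : ℝ) * N'') :=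
              mul_le_mul_of_nonneg_right (min_le_left _ _) (by positivity)
          _ = M * K' := by field_simp
          _ ≤ M * (((M : ℝ) * N') ^ δ * (N' : ℝ) ^ 2 / M + 1) :=
              mul_le_mul_of_nonneg_left h6 (by positivity)
          _ = ((M : ℝ) * N') ^ δ * (N' : ℝ) ^ 2 + M := by field_simp
          _ ≤ ((M : ℝ) * N) ^ δ * N ^ 2 + M := by (clear * - hpow h1 h2' hM hN; gcongr)
      · have e1 : ((M : ℝ) * N) ^ (7 * δ) = ((M : ℝ) * N) ^ (6 * δ) * ((M : ℝ) * N) ^ δ := by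
          rw [← Real.rpow_add (by positivity)]
          congr 1
          ring
        rw [e1]
        have h7 : (M : ℝ) + (((M : ℝ) * N) ^ δ * N ^ 2 + M) ≤
            2 * ((M : ℝ) * N) ^ δ * (M + (N : ℝ) ^ 2) := by
          have : (M : ℝ) ≤ ((M : ℝ) * N) ^ δ * M := le_mul_of_one_le_left (by positivity) hXδ
          have h8 : 0 ≤ ((M : ℝ) * N) ^ δ * (N : ℝ) ^ 2 := by positivity
          nlinarith only [this, h8]
        calc C₁ * ((M : ℝ) * N') ^ (6 * δ) * (M + (((M : ℝ) * N) ^ δ * N ^ 2 + M))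
            ≤ C₁ * ((M : ℝ) * N) ^ (6 * δ) * (2 * ((M : ℝ) * N) ^ δ * (M + (N : ℝ) ^ 2)) := by
              refine mul_le_mul (mul_le_mul_of_nonneg_left hpow6 hC₁.le) h7 (by positivity)
                (by positivity)
          _ = _ := by ring
    refine QL_mono (hmain M N hM hN _ (by positivity) hB) le_rfl le_rfl ?_
    have e2 : ((M : ℝ) * N) ^ δ * ((M : ℝ) * N) ^ (7 * δ) = ((M : ℝ) * N) ^ (8 * δ) := by
      rw [← Real.rpow_add (by positivity)]
      congr 1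
      ring
    have e3 : ((M : ℝ) * N) ^ (8 * δ) ≤ ((M : ℝ) * N) ^ ε :=
      Real.rpow_le_rpow_of_exponent_le hX hδ2
    calc C₂ * ((M : ℝ) * N) ^ δ * (2 * C₁ * ((M : ℝ) * N) ^ (7 * δ) * (M + (N : ℝ) ^ 2))
        = 2 * C₁ * C₂ * (((M : ℝ) * N) ^ δ * ((M : ℝ) * N) ^ (7 * δ)) * (M + (N : ℝ) ^ 2) := by
          ring
      _ ≤ max 1 (2 * C₁ * C₂) * ((M : ℝ) * N) ^ ε * (M + (N : ℝ) ^ 2) := by
          rw [e2]
          refine mul_le_mul_of_nonneg_right ?_ (by positivity)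
          exact mul_le_mul (le_max_right _ _) e3 (by positivity) (by positivity)
  · push Not at hNM
    have hNM' : (M : ℝ) ≤ N := by exact_mod_cast hNM.le
    refine QL_mono (QL_trivial M N) le_rfl le_rfl ?_
    calc (M : ℝ) * N ≤ (N : ℝ) ^ 2 := by nlinarith only [hNM']
      _ ≤ M + (N : ℝ) ^ 2 := by linarith only [hδ, hδ1, hM1]
      _ = 1 * 1 * (M + (N : ℝ) ^ 2) := by ring
      _ ≤ max 1 (2 * C₁ * C₂) * ((M : ℝ) * N) ^ ε * (M + (N : ℝ) ^ 2) := by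
          refine mul_le_mul_of_nonneg_right ?_ (by positivity)
          exact mul_le_mul (le_max_left _ _) hXε (by norm_num) (by positivity)

/-- The numerical estimate used in the step. -/
private lemma qz2_num (α δ : ℝ) (h1 : 1 ≤ α) (h2 : α ≤ 2) (hδ : 0 < δ) (M N K : ℝ)
    (hN : 1 ≤ N) (hK : 1 ≤ K) (hMN : N ^ (2 - 1 / α) ≤ M)
    (hKle : K ≤ (M * N) ^ δ * N ^ 2 / M + 1) :
    √M * K ^ (α - 1 / 2) ≤ 8 * (M * N) ^ (2 * δ) * M := by
  have hα : 0 < α := by linarith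
  have hβ : 1 ≤ 2 - 1 / α := by
    have : 1 / α ≤ 1 := by rw [div_le_one hα]; exact h1
    linarith only [this]
  have hM : 1 ≤ M := by
    refine le_trans ?_ hMN
    exact Real.one_le_rpow hN (by linarith only [hβ])
  have hM0 : 0 < M := by linarith
  have hN0 : 0 < N := by linarith
  have hX : 1 ≤ M * N := one_le_mul_of_one_le_of_one_le hM hN
  have hXδ : 1 ≤ (M * N) ^ δ := Real.one_le_rpow hX hδ.le
  have hX2δ : 1 ≤ (M * N) ^ (2 * δ) := Real.one_le_rpow hX (by positivity)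
  have ha0 : 0 ≤ α - 1 / 2 := by linarith
  have ha2 : α - 1 / 2 ≤ 3 / 2 := by linarith
  have hsq : √M ≤ M := by
    have := Real.sqrt_le_sqrt (show M ≤ M ^ 2 by nlinarith only [hM])
    rwa [Real.sqrt_sq hM0.le] at this
  set A : ℝ := (M * N) ^ δ * N ^ 2 / M with hA
  have hA0 : 0 < A := by positivity
  -- power of a sum
  have hKp : K ^ (α - 1 / 2) ≤ 4 * (A ^ (α - 1 / 2) + 1) := by
    have h22 : (2 : ℝ) ^ (α - 1 / 2) ≤ 4 := by
      calc (2 : ℝ) ^ (α - 1 / 2) ≤ (2 : ℝ) ^ (2 : ℝ) :=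
            Real.rpow_le_rpow_of_exponent_le one_le_two (by linarith)
        _ = 4 := by norm_num
    rcases le_total A 1 with hA1 | hA1
    · calc K ^ (α - 1 / 2) ≤ 2 ^ (α - 1 / 2) :=
            Real.rpow_le_rpow (by linarith) (by linarith) ha0
        _ ≤ 4 := h22
        _ ≤ 4 * (A ^ (α - 1 / 2) + 1) := by
            have : 0 ≤ A ^ (α - 1 / 2) := by positivity
            linarith only [this]
    · calc K ^ (α - 1 / 2) ≤ (2 * A) ^ (α - 1 / 2) :=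
            Real.rpow_le_rpow (by linarith) (by linarith only [hKle, hA1]) ha0
        _ = 2 ^ (α - 1 / 2) * A ^ (α - 1 / 2) := Real.mul_rpow (by norm_num) hA0.le
        _ ≤ 4 * A ^ (α - 1 / 2) := mul_le_mul_of_nonneg_right h22 (by positivity)
        _ ≤ 4 * (A ^ (α - 1 / 2) + 1) := by linarith
  -- the power of `A`
  have hAp : √M * A ^ (α - 1 / 2) ≤ (M * N) ^ (2 * δ) * M := by
    have e1 : A ^ (α - 1 / 2) = (M * N) ^ (δ * (α - 1 / 2)) * (N ^ 2 / M) ^ (α - 1 / 2) := by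
      rw [hA, mul_div_assoc, Real.mul_rpow (by positivity) (by positivity),
        ← Real.rpow_mul (by positivity)]
    have e2 : (M * N) ^ (δ * (α - 1 / 2)) ≤ (M * N) ^ (2 * δ) :=
      Real.rpow_le_rpow_of_exponent_le hX (by nlinarith only [hδ, h2])
    have e3 : √M * (N ^ 2 / M) ^ (α - 1 / 2) ≤ M := by
      have hs : √M = M ^ (1 / 2 : ℝ) := Real.sqrt_eq_rpow M
      have hn : (N ^ 2 / M) ^ (α - 1 / 2) = N ^ (2 * α - 1) * M ^ (-(α - 1 / 2)) := by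
        rw [div_eq_mul_inv, Real.mul_rpow (by positivity) (by positivity),
          Real.inv_rpow hM0.le, ← Real.rpow_neg hM0.le,
          ← Real.rpow_natCast N 2, ← Real.rpow_mul hN0.le]
        congr 2
        push_cast
        ring
      rw [hs, hn]
      have hk : N ^ (2 * α - 1) ≤ M ^ α := by
        have : N ^ (2 * α - 1) = (N ^ (2 - 1 / α)) ^ α := by
          rw [← Real.rpow_mul hN0.le]
          congr 1
          field_simp
        rw [this]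
        exact Real.rpow_le_rpow (by positivity) hMN hα.le
      calc M ^ (1 / 2 : ℝ) * (N ^ (2 * α - 1) * M ^ (-(α - 1 / 2)))
          ≤ M ^ (1 / 2 : ℝ) * (M ^ α * M ^ (-(α - 1 / 2))) := by (clear * - hk hM; gcongr)
        _ = M := by
            rw [← Real.rpow_add hM0, ← Real.rpow_add hM0]
            rw [show (1 / 2 : ℝ) + (α + -(α - 1 / 2)) = 1 by ring, Real.rpow_one]
    rw [e1]
    calc √M * ((M * N) ^ (δ * (α - 1 / 2)) * (N ^ 2 / M) ^ (α - 1 / 2))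
        = (M * N) ^ (δ * (α - 1 / 2)) * (√M * (N ^ 2 / M) ^ (α - 1 / 2)) := by ring
      _ ≤ (M * N) ^ (2 * δ) * M := mul_le_mul e2 e3 (by positivity) (by positivity)
  calc √M * K ^ (α - 1 / 2) ≤ √M * (4 * (A ^ (α - 1 / 2) + 1)) :=
        mul_le_mul_of_nonneg_left hKp (by positivity)
    _ = 4 * (√M * A ^ (α - 1 / 2)) + 4 * √M := by ring
    _ ≤ 4 * ((M * N) ^ (2 * δ) * M) + 4 * M := by linarith only [hsq, hAp]
    _ ≤ 8 * (M * N) ^ (2 * δ) * M := by nlinarith only [hX2δ, hM]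

theorem qls_step (α : ℝ) (h1 : 1 ≤ α) (h2 : α ≤ 2)
    (H : ∀ ε : ℝ, 0 < ε → ∃ C : ℝ, 0 < C ∧ ∀ M N : ℕ, 1 ≤ M → 1 ≤ N →
      QL M N (C * ((M : ℝ) * N) ^ ε * (M + (N : ℝ) ^ α))) :
    ∀ ε : ℝ, 0 < ε → ∃ C : ℝ, 0 < C ∧ ∀ M N : ℕ, 1 ≤ M → 1 ≤ N →
      QL M N (C * ((M : ℝ) * N) ^ ε * (M + (N : ℝ) ^ (2 - 1 / α))) := by
  intro ε hε
  set δ : ℝ := min (ε / 39) (1 / 8) with hδdef
  have hδ : 0 < δ := lt_min (by positivity) (by norm_num)
  have hδ8 : δ ≤ 1 / 8 := min_le_right _ _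
  have hδ1 : δ < 1 / 4 := lt_of_le_of_lt hδ8 (by norm_num)
  have hδ2 : 39 * δ ≤ ε := by
    have := min_le_left (ε / 39) (1 / 8)
    rw [← hδdef] at this
    linarith
  have hα : 0 < α := by linarith
  set β : ℝ := 2 - 1 / α with hβdef
  have hβ1 : 1 ≤ β := by
    have : 1 / α ≤ 1 := by rw [div_le_one hα]; exact h1
    linarith
  have hβ2 : β ≤ 2 := by
    have : 0 < 1 / α := by positivity
    linarith
  obtain ⟨C₁, hC₁, hrec⟩ := qls_rec δ hδ hδ1
  obtain ⟨C₂, hC₂, hmain⟩ := qz2_main δ hδ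
  obtain ⟨C₃, hC₃, hH⟩ := H δ hδ
  refine ⟨32 * (C₂ * (C₁ * (1 + 36 * C₃))), by positivity, fun M N hM hN => ?_⟩
  have hN1 : (1 : ℝ) ≤ N := by exact_mod_cast hN
  have hM1 : (1 : ℝ) ≤ M := by exact_mod_cast hM
  have hX : (1 : ℝ) ≤ (M : ℝ) * N := one_le_mul_of_one_le_of_one_le hM1 hN1
  set L : ℕ := max M ⌈(N : ℝ) ^ β⌉₊ with hLdef
  have hNβ1 : (N : ℝ) ≤ (N : ℝ) ^ β := by
    calc (N : ℝ) = (N : ℝ) ^ (1 : ℝ) := (Real.rpow_one _).symm
      _ ≤ _ := Real.rpow_le_rpow_of_exponent_le hN1 hβ1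
  have hNL0 : (N : ℝ) ^ β ≤ L := by
    have a1 : (N : ℝ) ^ β ≤ (⌈(N : ℝ) ^ β⌉₊ : ℝ) := Nat.le_ceil _
    have a2 : ((⌈(N : ℝ) ^ β⌉₊ : ℕ) : ℝ) ≤ (L : ℝ) := by
      exact_mod_cast le_max_right M ⌈(N : ℝ) ^ β⌉₊
    linarith only [a1, a2]
  have hNL : N ≤ L := by
    have : (N : ℝ) ≤ L := hNβ1.trans hNL0
    exact_mod_cast this
  have hML : M ≤ L := le_max_left _ _
  have hL1 : 1 ≤ L := hM.trans hML
  have hL1' : (1 : ℝ) ≤ L := by exact_mod_cast hL1
  have hLle : (L : ℝ) ≤ 2 * (M + (N : ℝ) ^ β) := by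
    have a1 : ((⌈(N : ℝ) ^ β⌉₊ : ℕ) : ℝ) ≤ (N : ℝ) ^ β + 1 := (Nat.ceil_lt_add_one (by positivity)).le
    have a2 : (L : ℝ) ≤ (M : ℝ) + (⌈(N : ℝ) ^ β⌉₊ : ℝ) := by
      have : L ≤ M + ⌈(N : ℝ) ^ β⌉₊ := max_le (Nat.le_add_right _ _) (Nat.le_add_left _ _)
      exact_mod_cast this
    linarith only [hδ, hδ8, hN1, hM1, hNβ1, a1, a2]
  have hLX : 1 ≤ (L : ℝ) * N := one_le_mul_of_one_le_of_one_le hL1' hN1
  have hLN : (L : ℝ) * N ≤ 4 * ((M : ℝ) * N) ^ 3 := by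
    have b1 : (N : ℝ) ^ β ≤ (N : ℝ) ^ 2 := by
      calc (N : ℝ) ^ β ≤ (N : ℝ) ^ (2 : ℝ) := Real.rpow_le_rpow_of_exponent_le hN1 hβ2
        _ = _ := Real.rpow_natCast _ 2
    have b2 : (L : ℝ) * N ≤ 2 * ((M : ℝ) + (N : ℝ) ^ 2) * N := by
      refine mul_le_mul_of_nonneg_right ?_ (by positivity)
      linarith only [hLle, b1]
    have b3 : (M : ℝ) * N ≤ ((M : ℝ) * N) ^ 3 := by
      calc (M : ℝ) * N = ((M : ℝ) * N) ^ 1 := (pow_one _).symm
        _ ≤ _ := pow_le_pow_right₀ hX (by norm_num)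
    have b4 : (N : ℝ) ^ 3 ≤ ((M : ℝ) * N) ^ 3 :=
      pow_le_pow_left₀ (by positivity) (by nlinarith only [hM1]) 3
    calc (L : ℝ) * N ≤ 2 * ((M : ℝ) + (N : ℝ) ^ 2) * N := b2
      _ = 2 * ((M : ℝ) * N) + 2 * (N : ℝ) ^ 3 := by ring
      _ ≤ _ := by linarith only [b3, b4]
  -- the blocks
  have hB : ∀ N', 1 ≤ N' → N' ≤ N →
      QB L N' (C₁ * (1 + 36 * C₃) * ((L : ℝ) * N) ^ (12 * δ) * L) := by
    intro N' h3 h4
    have h3' : (1 : ℝ) ≤ N' := by exact_mod_cast h3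
    have h4' : (N' : ℝ) ≤ N := by exact_mod_cast h4
    have hX' : (L : ℝ) * N' ≤ (L : ℝ) * N := mul_le_mul_of_nonneg_left h4' (by positivity)
    have hpow : ((L : ℝ) * N') ^ δ ≤ ((L : ℝ) * N) ^ δ :=
      Real.rpow_le_rpow (by positivity) hX' hδ.le
    have hpow6 : ((L : ℝ) * N') ^ (6 * δ) ≤ ((L : ℝ) * N) ^ (6 * δ) :=
      Real.rpow_le_rpow (by positivity) hX' (by positivity)
    have hL6 : 1 ≤ ((L : ℝ) * N) ^ (6 * δ) := Real.one_le_rpow hLX (by positivity)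
    refine qz2_QB_mono (hrec L N' h3 (h4.trans hNL) (36 * C₃ * ((L : ℝ) * N) ^ (6 * δ) * L)
      (by positivity) ?_) ?_
    · intro N'' K' h5 h6 h7 h8
      have h5' : (1 : ℝ) ≤ N'' := by exact_mod_cast h5
      have h6' : (N'' : ℝ) ≤ N := by exact_mod_cast h6.trans h4
      have h7' : (1 : ℝ) ≤ K' := by exact_mod_cast h7
      have hK : (K' : ℝ) ≤ ((L : ℝ) * N) ^ δ * (N : ℝ) ^ 2 / L + 1 := by
        refine h8.trans ?_
        (clear * - hpow h3 h4' hM hN; gcongr)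
      refine ⟨2 * (C₃ * ((N'' : ℝ) * K') ^ δ * (N'' + (K' : ℝ) ^ α)), by (clear * - hC₃ h5 h7; positivity),
        QL_symm (by positivity) (hH N'' K' h5 h7), ?_⟩
      -- size of `N'' K'`
      have c1 : ((N'' : ℝ) * K') ^ δ ≤ 2 * ((L : ℝ) * N) ^ (4 * δ) := by
        have d1 : (K' : ℝ) ≤ 2 * ((L : ℝ) * N) ^ 3 := by
          have d2 : ((L : ℝ) * N) ^ δ ≤ (L : ℝ) * N := by
            calc ((L : ℝ) * N) ^ δ ≤ ((L : ℝ) * N) ^ (1 : ℝ) :=
                  Real.rpow_le_rpow_of_exponent_le hLX (by linarith only [hδ, hδ8])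
              _ = _ := Real.rpow_one _
          have d3 : ((L : ℝ) * N) ^ δ * (N : ℝ) ^ 2 / L ≤ ((L : ℝ) * N) ^ 3 := by
            rw [div_le_iff₀ (by positivity)]
            calc ((L : ℝ) * N) ^ δ * (N : ℝ) ^ 2 ≤ ((L : ℝ) * N) * (N : ℝ) ^ 2 := by (clear * - d2 hN; gcongr)
              _ ≤ ((L : ℝ) * N) * ((L : ℝ) * N) ^ 2 := by
                  gcongr
                  nlinarith only [hN1, hNβ1, hNL0]
              _ = ((L : ℝ) * N) ^ 3 * 1 := by ring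
              _ ≤ ((L : ℝ) * N) ^ 3 * L := by gcongr
          have d4 : (1 : ℝ) ≤ ((L : ℝ) * N) ^ 3 := one_le_pow₀ hLX
          linarith only [hK, d3, d4]
        have d5 : (N'' : ℝ) * K' ≤ 2 * ((L : ℝ) * N) ^ 4 := by
          calc (N'' : ℝ) * K' ≤ ((L : ℝ) * N) * (2 * ((L : ℝ) * N) ^ 3) := by
                refine mul_le_mul (h6'.trans ?_) d1 (by positivity) (by positivity)
                nlinarith only [hN1, hNβ1, hNL0]
            _ = _ := by ring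
        calc ((N'' : ℝ) * K') ^ δ ≤ (2 * ((L : ℝ) * N) ^ 4) ^ δ :=
              Real.rpow_le_rpow (by positivity) d5 hδ.le
          _ = 2 ^ δ * (((L : ℝ) * N) ^ (4 : ℕ)) ^ δ :=
              Real.mul_rpow (by norm_num) (by positivity)
          _ = 2 ^ δ * ((L : ℝ) * N) ^ (4 * δ) := by
              rw [← Real.rpow_natCast, ← Real.rpow_mul (by positivity)]
              norm_num
          _ ≤ 2 * ((L : ℝ) * N) ^ (4 * δ) := by
              refine mul_le_mul_of_nonneg_right ?_ (by positivity)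
              calc (2 : ℝ) ^ δ ≤ 2 ^ (1 : ℝ) :=
                    Real.rpow_le_rpow_of_exponent_le one_le_two (by linarith only [hδ, hδ8])
                _ = 2 := Real.rpow_one _
      -- the minimum
      have c2 : min ((L : ℝ) / N'') (√((L : ℝ) / K')) * (N'' + (K' : ℝ) ^ α) ≤
          9 * ((L : ℝ) * N) ^ (2 * δ) * L := by
        have d1 : min ((L : ℝ) / N'') (√((L : ℝ) / K')) * N'' ≤ L := by
          calc min ((L : ℝ) / N'') (√((L : ℝ) / K')) * N'' ≤ ((L : ℝ) / N'') * N'' :=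
                mul_le_mul_of_nonneg_right (min_le_left _ _) (by positivity)
            _ = L := by field_simp
        have d2 : min ((L : ℝ) / N'') (√((L : ℝ) / K')) * (K' : ℝ) ^ α ≤
            √(L : ℝ) * (K' : ℝ) ^ (α - 1 / 2) := by
          calc min ((L : ℝ) / N'') (√((L : ℝ) / K')) * (K' : ℝ) ^ α
              ≤ √((L : ℝ) / K') * (K' : ℝ) ^ α :=
                mul_le_mul_of_nonneg_right (min_le_right _ _) (by positivity)
            _ = √(L : ℝ) * (K' : ℝ) ^ (α - 1 / 2) := by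
                rw [Real.sqrt_div (by positivity), Real.rpow_sub (by positivity),
                  ← Real.sqrt_eq_rpow]
                ring
        have d3 := qz2_num α δ h1 h2 hδ L N K' hN1 h7' hNL0 hK
        have d4 : (L : ℝ) ≤ ((L : ℝ) * N) ^ (2 * δ) * L :=
          le_mul_of_one_le_left (by positivity) (Real.one_le_rpow hLX (by positivity))
        rw [mul_add]
        linarith only [d1, d2, d3, d4]
      calc min ((L : ℝ) / N'') (√((L : ℝ) / K')) *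
            (2 * (C₃ * ((N'' : ℝ) * K') ^ δ * (N'' + (K' : ℝ) ^ α)))
          = 2 * C₃ * ((N'' : ℝ) * K') ^ δ *
            (min ((L : ℝ) / N'') (√((L : ℝ) / K')) * (N'' + (K' : ℝ) ^ α)) := by ring
        _ ≤ 2 * C₃ * (2 * ((L : ℝ) * N) ^ (4 * δ)) * (9 * ((L : ℝ) * N) ^ (2 * δ) * L) := by
            refine mul_le_mul (mul_le_mul_of_nonneg_left c1 (by positivity)) c2 ?_ (by positivity)
            positivity
        _ = 36 * C₃ * (((L : ℝ) * N) ^ (4 * δ) * ((L : ℝ) * N) ^ (2 * δ)) * L := by ring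
        _ = 36 * C₃ * ((L : ℝ) * N) ^ (6 * δ) * L := by
            rw [← Real.rpow_add (by positivity)]
            congr 3
            ring
    · have e1 : ((L : ℝ) * N) ^ (12 * δ) = ((L : ℝ) * N) ^ (6 * δ) * ((L : ℝ) * N) ^ (6 * δ) := by
        rw [← Real.rpow_add (by positivity)]
        congr 1
        ring
      rw [e1]
      have h7 : (L : ℝ) + 36 * C₃ * ((L : ℝ) * N) ^ (6 * δ) * L ≤
          (1 + 36 * C₃) * ((L : ℝ) * N) ^ (6 * δ) * L := by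
        have : (L : ℝ) ≤ ((L : ℝ) * N) ^ (6 * δ) * L := le_mul_of_one_le_left (by positivity) hL6
        nlinarith only [this]
      calc C₁ * ((L : ℝ) * N') ^ (6 * δ) * (L + 36 * C₃ * ((L : ℝ) * N) ^ (6 * δ) * L)
          ≤ C₁ * ((L : ℝ) * N) ^ (6 * δ) * ((1 + 36 * C₃) * ((L : ℝ) * N) ^ (6 * δ) * L) := by
            refine mul_le_mul (mul_le_mul_of_nonneg_left hpow6 hC₁.le) h7 (by positivity)
              (by positivity)
        _ = _ := by ring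
  refine QL_mono (hmain L N hL1 hN _ (by positivity) hB) hML le_rfl ?_
  have e2 : ((L : ℝ) * N) ^ δ * ((L : ℝ) * N) ^ (12 * δ) = ((L : ℝ) * N) ^ (13 * δ) := by
    rw [← Real.rpow_add (by positivity)]
    congr 1
    ring
  have e3 : ((L : ℝ) * N) ^ (13 * δ) ≤ 16 * ((M : ℝ) * N) ^ ε := by
    calc ((L : ℝ) * N) ^ (13 * δ) ≤ (4 * ((M : ℝ) * N) ^ (3 : ℕ)) ^ (13 * δ) :=
          Real.rpow_le_rpow (by positivity) hLN (by positivity)
      _ = 4 ^ (13 * δ) * ((M : ℝ) * N) ^ (39 * δ) := by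
          rw [Real.mul_rpow (by norm_num) (by positivity), ← Real.rpow_natCast ((M : ℝ) * N) 3,
            ← Real.rpow_mul (by positivity)]
          congr 2
          push_cast
          ring
      _ ≤ 16 * ((M : ℝ) * N) ^ ε := by
          refine mul_le_mul ?_ (Real.rpow_le_rpow_of_exponent_le hX hδ2) (by positivity)
            (by norm_num)
          calc (4 : ℝ) ^ (13 * δ) ≤ 4 ^ (2 : ℝ) :=
                Real.rpow_le_rpow_of_exponent_le (by norm_num) (by linarith only [hδ, hδ8])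
            _ = 16 := by norm_num
  calc C₂ * ((L : ℝ) * N) ^ δ * (C₁ * (1 + 36 * C₃) * ((L : ℝ) * N) ^ (12 * δ) * L)
      = C₂ * (C₁ * (1 + 36 * C₃)) * (((L : ℝ) * N) ^ δ * ((L : ℝ) * N) ^ (12 * δ)) * L := by ring
    _ ≤ C₂ * (C₁ * (1 + 36 * C₃)) * (16 * ((M : ℝ) * N) ^ ε) * (2 * (M + (N : ℝ) ^ β)) := by
        rw [e2]
        refine mul_le_mul (mul_le_mul_of_nonneg_left e3 (by positivity)) hLle (by positivity)
          (by positivity)
    _ = 32 * (C₂ * (C₁ * (1 + 36 * C₃))) * ((M : ℝ) * N) ^ ε * (M + (N : ℝ) ^ β) := by ring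

end Pool.Agent.MP0016c7.Rz
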