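import Mathlib
import Pool.Agent.Lib.MP_0016c7_nt.Rz.Defs
import Pool.Agent.Lib.MP_0016c7_nt.Qls.QDefs
import Pool.Agent.Lib.MP_0016c7_nt.Qls.QJr
import Pool.Agent.Lib.MP_0016c7_nt.Qls.QA1
import Pool.Agent.Lib.MP_0016c7_nt.Qls.QA2
import Pool.Agent.Lib.MP_0016c7_nt.Qls.QZ2

set_option autoImplicit false

open Finset MeasureTheory Filter Topology
open scoped Real

namespace Pool.Agent.MP0016c7.Rz

private theorem qls_iter (k : ℕ) : ∀ ε : ℝ, 0 < ε → ∃ C : ℝ, 0 < C ∧ ∀ M N : ℕ, 1 ≤ M → 1 ≤ N →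
    QL M N (C * ((M : ℝ) * N) ^ ε * (M + (N : ℝ) ^ (1 + 1 / ((k : ℝ) + 1)))) := by
  induction k with
  | zero =>
    intro ε hε
    have h : (1 + 1 / (((0 : ℕ) : ℝ) + 1) : ℝ) = 2 := by norm_num
    rw [h]
    exact qls_base ε hε
  | succ k ih =>
    have hk : (0 : ℝ) < (k : ℝ) + 1 := by positivity
    have h1 : (1 : ℝ) ≤ 1 + 1 / ((k : ℝ) + 1) := by
      have : 0 < 1 / ((k : ℝ) + 1) := by positivity
      linarith
    have h2 : 1 + 1 / ((k : ℝ) + 1) ≤ 2 := by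
      have : 1 / ((k : ℝ) + 1) ≤ 1 := by
        rw [div_le_one hk]
        have : (0 : ℝ) ≤ k := Nat.cast_nonneg k
        linarith
      linarith
    have h3 := qls_step _ h1 h2 ih
    have h4 : 2 - 1 / (1 + 1 / ((k : ℝ) + 1)) = 1 + 1 / (((k + 1 : ℕ) : ℝ) + 1) := by
      have h5 : (k : ℝ) + 1 + 1 ≠ 0 := by positivity
      have h6 : 1 + 1 / ((k : ℝ) + 1) = ((k : ℝ) + 1 + 1) / ((k : ℝ) + 1) := by
        field_simp
      rw [h6]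
      push_cast
      field_simp
      ring
    rw [h4] at h3
    exact h3

/-- The quadratic large sieve. -/
theorem qls_real (ε : ℝ) (hε : 0 < ε) : ∃ C : ℝ, 0 < C ∧ ∀ M N : ℕ, 1 ≤ M → 1 ≤ N →
    QL M N (C * ((M : ℝ) * N) ^ ε * (M + N)) := by
  obtain ⟨k, hk⟩ := exists_nat_gt (2 / ε)
  obtain ⟨C, hC, h⟩ := qls_iter k (ε / 2) (by positivity)
  refine ⟨C, hC, fun M N hM hN => ?_⟩
  refine QL_mono (h M N hM hN) le_rfl le_rfl ?_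
  have hM1 : (1 : ℝ) ≤ M := by exact_mod_cast hM
  have hN1 : (1 : ℝ) ≤ N := by exact_mod_cast hN
  have hX : (1 : ℝ) ≤ (M : ℝ) * N := by nlinarith
  have hNX : (N : ℝ) ≤ (M : ℝ) * N := by nlinarith
  set X := (M : ℝ) * N with hXd
  have hX0 : 0 < X := by linarith
  have hkk : 1 / ((k : ℝ) + 1) ≤ ε / 2 := by
    rw [div_le_div_iff₀ (by positivity) (by norm_num)]
    rw [div_lt_iff₀ hε] at hk
    nlinarith
  have h1 : (N : ℝ) ^ (1 + 1 / ((k : ℝ) + 1)) ≤ N * X ^ (ε / 2) := by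
    rw [Real.rpow_add (by linarith), Real.rpow_one]
    apply mul_le_mul_of_nonneg_left _ (by linarith)
    calc (N : ℝ) ^ (1 / ((k : ℝ) + 1)) ≤ X ^ (1 / ((k : ℝ) + 1)) :=
          Real.rpow_le_rpow (by linarith) hNX (by positivity)
      _ ≤ X ^ (ε / 2) := Real.rpow_le_rpow_of_exponent_le hX hkk
  have h2 : (1 : ℝ) ≤ X ^ (ε / 2) := Real.one_le_rpow hX (by positivity)
  have h3 : X ^ ε = X ^ (ε / 2) * X ^ (ε / 2) := by
    rw [← Real.rpow_add hX0]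
    congr 1
    ring
  have h4 : (M : ℝ) + (N : ℝ) ^ (1 + 1 / ((k : ℝ) + 1)) ≤ X ^ (ε / 2) * (M + N) := by
    nlinarith
  calc C * X ^ (ε / 2) * (M + (N : ℝ) ^ (1 + 1 / ((k : ℝ) + 1))) ≤
      C * X ^ (ε / 2) * (X ^ (ε / 2) * (M + N)) :=
        mul_le_mul_of_nonneg_left h4 (by positivity)
    _ = _ := by rw [h3]; ring

theorem qls (ε : ℝ) (hε : 0 < ε) : ∃ C : ℝ, 0 < C ∧ ∀ M N : ℕ, 1 ≤ M → 1 ≤ N → ∀ a : ℕ → ℂ,
    ∑ m ∈ (Icc 1 M).filter (fun m => Odd m ∧ Squarefree m),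
      ‖∑ n ∈ (Icc 1 N).filter (fun n => Odd n ∧ Squarefree n), a n * (jr n m : ℂ)‖ ^ 2 ≤
    C * ((M : ℝ) * N) ^ ε * (M + N) *
      ∑ n ∈ (Icc 1 N).filter (fun n => Odd n ∧ Squarefree n), ‖a n‖ ^ 2 := by
  obtain ⟨C, hC, h⟩ := qls_real ε hε
  refine ⟨C, hC, fun M N hM hN a => ?_⟩
  have h1 := QL_dual_complex (M := M) (N := N)
    (D := C * ((N : ℝ) * M) ^ ε * (N + M)) (by positivity) (h N M hN hM) a
  rw [mul_comm (N : ℝ) (M : ℝ), add_comm (N : ℝ) (M : ℝ)] at h1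
  exact h1

/-- Rows `k`: all positive squarefree numbers, the symbol `(k / n)`. -/
theorem qls_sf (ε : ℝ) (hε : 0 < ε) : ∃ C : ℝ, 0 < C ∧ ∀ M N : ℕ, 1 ≤ M → 1 ≤ N → ∀ b : ℕ → ℂ,
    ∑ k ∈ sf M, ‖∑ n ∈ os N, b n * (jr k n : ℂ)‖ ^ 2 ≤
      C * ((M : ℝ) * N) ^ ε * (M + N) * ∑ n ∈ os N, ‖b n‖ ^ 2 := by
  obtain ⟨C, hC, h⟩ := qls_real ε hε
  refine ⟨2 * C, by positivity, fun M N hM hN b => ?_⟩
  have h1 := QL_complex (D := C * ((M : ℝ) * N) ^ ε * (M + N)) (by positivity) (h M N hM hN) b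
  calc _ ≤ _ := h1
    _ = _ := by ring

end Pool.Agent.MP0016c7.Rz
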