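import Mathlib
import Pool.Agent.Lib.MP_0016c7_nt.Rz.Defs
import Pool.Agent.Lib.MP_0016c7_nt.Qls.QDefs
import Pool.Agent.Lib.MP_0016c7_nt.Qls.QJr

set_option autoImplicit false

open Finset MeasureTheory Filter Topology
open scoped Real

namespace Pool.Agent.MP0016c7.Rz

private lemma qt1_exp (B : ℕ) {z : ℝ} (hz : 1 ≤ z) :
    Real.exp (-π * z ^ 2) ≤ (B.factorial : ℝ) / z ^ B := by
  have h1 : Real.exp (-π * z ^ 2) ≤ Real.exp (-z) := by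
    apply Real.exp_le_exp.2
    have := Real.pi_gt_three
    nlinarith
  have h2 := Real.pow_div_factorial_le_exp z (by linarith) B
  have hf : (0 : ℝ) < B.factorial := by exact_mod_cast Nat.factorial_pos B
  have hzB : 0 < z ^ B := by positivity
  refine h1.trans ?_
  rw [Real.exp_neg, le_div_iff₀ hzB, inv_mul_le_iff₀ (Real.exp_pos _)]
  rw [div_le_iff₀ hf] at h2
  linarith

private lemma qt1_summ : Summable (fun h : ℕ => 1 / ((h : ℝ) + 1) ^ 2) := by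
  have := (summable_nat_add_iff 1).2 (Real.summable_one_div_nat_pow.2 (by norm_num : 1 < 2))
  refine this.congr fun h => ?_
  push_cast
  rfl

private lemma qt1_z {X M N K e q h P : ℝ} (hP : 1 ≤ P) (hN : 1 ≤ N) (hMN : N ≤ M)
    (he : 1 ≤ e) (hq : 1 ≤ q) (heq : e ^ 2 * q ≤ N ^ 2) (hh : 0 ≤ h)
    (hK : P * N ^ 2 / M ≤ K + 1) (h1 : K + 1 ≤ e * (h + 1)) (hX : X = M * N) :
    P ≤ (h + 1) * M / (e * q) ∧
      (h + 1) ^ 2 ≤ ((h + 1) * M / (e * q)) ^ 2 * X ^ 2 := by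
  have hM : 1 ≤ M := hN.trans hMN
  have heq0 : 0 < e * q := by positivity
  have hz1 : P ≤ (h + 1) * M / (e * q) := by
    rw [le_div_iff₀ heq0]
    rw [div_le_iff₀ (by linarith)] at hK
    have h2 : P * (e ^ 2 * q) ≤ P * N ^ 2 :=
      mul_le_mul_of_nonneg_left heq (by linarith)
    have h3 : (K + 1) * M ≤ e * (h + 1) * M :=
      mul_le_mul_of_nonneg_right h1 (by linarith)
    have h4 : e * (P * (e * q)) ≤ e * ((h + 1) * M) := by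
      nlinarith
    exact le_of_mul_le_mul_left h4 (by linarith)
  refine ⟨hz1, ?_⟩
  set z : ℝ := (h + 1) * M / (e * q) with hz
  have hz0 : 0 < z := by linarith
  have h7 : e * q ≤ N ^ 2 := by nlinarith
  have h9 : z * (e * q) = (h + 1) * M := by
    rw [hz]
    field_simp
  have h8 : h + 1 ≤ z * N := by
    have h10 : (h + 1) * M ≤ z * (N * N) := by
      rw [← h9]
      nlinarith
    have h11 : (h + 1) * N ≤ (h + 1) * M :=
      mul_le_mul_of_nonneg_left hMN (by positivity)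
    have h12 : (h + 1) * N ≤ (z * N) * N := by linarith
    exact le_of_mul_le_mul_right h12 (by linarith)
  have h13 : N ≤ X := by
    rw [hX]
    nlinarith
  have h14 : h + 1 ≤ z * X := h8.trans (mul_le_mul_of_nonneg_left h13 hz0.le)
  calc (h + 1) ^ 2 ≤ (z * X) ^ 2 := pow_le_pow_left₀ (by positivity) h14 2
    _ = z ^ 2 * X ^ 2 := by ring

private lemma qt1_term {F P X z w : ℝ} {B : ℕ} (hF : 0 < F) (hX : 1 ≤ X) (hP : 1 ≤ P)
    (hPz : P ≤ z) (hPB : X ^ (8 : ℝ) ≤ P ^ B) (hw : 0 < w) (h6 : w ^ 2 ≤ z ^ 2 * X ^ 2) :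
    F / z ^ (B + 2) ≤ (F * X ^ (-6 : ℝ)) * (1 / w ^ 2) := by
  have hX0 : 0 < X := by linarith
  have hz0 : 0 < z := by linarith
  have hX8p : 0 < X ^ (8 : ℝ) := Real.rpow_pos_of_pos hX0 _
  have h5 : X ^ (8 : ℝ) ≤ z ^ B := hPB.trans (pow_le_pow_left₀ (by linarith) hPz B)
  have h8 : X ^ (-6 : ℝ) = X ^ (2 : ℕ) / X ^ (8 : ℝ) := by
    rw [← Real.rpow_natCast X 2, ← Real.rpow_sub hX0]
    norm_num
  have hzB : 0 < z ^ B := by positivity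
  have hz2 : 0 < z ^ 2 := by positivity
  have hw2 : 0 < w ^ 2 := by positivity
  rw [h8, div_eq_mul_one_div F, mul_assoc]
  refine mul_le_mul_of_nonneg_left ?_ hF.le
  rw [pow_add, div_mul_div_comm, mul_one]
  rw [div_le_div_iff₀ (mul_pos hzB hz2) (mul_pos hX8p hw2), one_mul]
  calc X ^ (8 : ℝ) * w ^ 2 ≤ z ^ B * (z ^ 2 * X ^ 2) :=
        mul_le_mul h5 h6 hw2.le hzB.le
    _ = X ^ 2 * (z ^ B * z ^ 2) := by ring

theorem tail_bound (ε : ℝ) (hε : 0 < ε) : ∃ C : ℝ, 0 < C ∧ ∀ M N : ℕ, 1 ≤ N → N ≤ M → ∀ K : ℕ,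
    ((M : ℝ) * N) ^ ε * (N : ℝ) ^ 2 / M ≤ K + 1 → ∀ e q : ℕ, 1 ≤ e → 1 ≤ q → e ^ 2 * q ≤ N ^ 2 →
    Tl M K e q ≤ C * ((M : ℝ) * N) ^ (-6 : ℝ) := by
  obtain ⟨B, hB⟩ := exists_nat_gt (8 / ε)
  have hB8 : 8 ≤ ε * B := by
    rw [div_lt_iff₀ hε] at hB
    linarith
  set S : ℝ := ∑' h : ℕ, 1 / ((h : ℝ) + 1) ^ 2 with hS
  have hS0 : 0 ≤ S := tsum_nonneg fun h => by positivity
  obtain ⟨F, hF⟩ : ∃ F : ℝ, F = ((B + 2).factorial : ℝ) := ⟨_, rfl⟩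
  have hf : 0 < F := by
    rw [hF]
    exact_mod_cast Nat.factorial_pos _
  refine ⟨F * (S + 1), by positivity, ?_⟩
  intro M N hN hNM K hK e q he hq heq
  have hNr : (1 : ℝ) ≤ N := by exact_mod_cast hN
  have hMN : (N : ℝ) ≤ M := by exact_mod_cast hNM
  have hMr : (1 : ℝ) ≤ M := hNr.trans hMN
  have her : (1 : ℝ) ≤ e := by exact_mod_cast he
  have hqr : (1 : ℝ) ≤ q := by exact_mod_cast hq
  have heqr : (e : ℝ) ^ 2 * q ≤ (N : ℝ) ^ 2 := by exact_mod_cast heq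
  have hX1 : 1 ≤ (M : ℝ) * N := by nlinarith
  have hX0 : 0 < (M : ℝ) * N := by linarith
  have hXε : 1 ≤ ((M : ℝ) * N) ^ ε := Real.one_le_rpow hX1 hε.le
  have hX8 : ((M : ℝ) * N) ^ (8 : ℝ) ≤ (((M : ℝ) * N) ^ ε) ^ B := by
    rw [← Real.rpow_natCast (((M : ℝ) * N) ^ ε) B, ← Real.rpow_mul hX0.le]
    exact Real.rpow_le_rpow_of_exponent_le hX1 hB8
  have hX6 : 0 < ((M : ℝ) * N) ^ (-6 : ℝ) := Real.rpow_pos_of_pos hX0 _
  have hterm : ∀ h : ℕ, (if K < e * (h + 1) then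
      Real.exp (-π * ((((h : ℝ) + 1) * M / ((e : ℝ) * q)) ^ 2)) else 0) ≤
      (F * ((M : ℝ) * N) ^ (-6 : ℝ)) * (1 / ((h : ℝ) + 1) ^ 2) := by
    intro h
    split_ifs with hh
    · have h1 : ((K : ℝ) + 1) ≤ e * ((h : ℝ) + 1) := by exact_mod_cast hh
      obtain ⟨h2, h3⟩ := qt1_z (X := (M : ℝ) * N) hXε hNr hMN her hqr heqr (Nat.cast_nonneg h)
        hK h1 rfl
      refine (qt1_exp (B + 2) (hXε.trans h2)).trans ?_
      rw [← hF]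
      exact qt1_term hf hX1 hXε h2 hX8 (by positivity) h3
    · exact mul_nonneg (mul_nonneg hf.le hX6.le) (by positivity)
  have hsb : Summable (fun h : ℕ =>
      (F * ((M : ℝ) * N) ^ (-6 : ℝ)) * (1 / ((h : ℝ) + 1) ^ 2)) := qt1_summ.mul_left _
  have hsa : Summable (fun h : ℕ => if K < e * (h + 1) then
      Real.exp (-π * ((((h : ℝ) + 1) * M / ((e : ℝ) * q)) ^ 2)) else 0) := by
    refine Summable.of_nonneg_of_le (fun h => ?_) hterm hsb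
    split_ifs
    · exact (Real.exp_pos _).le
    · exact le_rfl
  unfold Tl
  refine (hsa.tsum_le_tsum hterm hsb).trans ?_
  rw [tsum_mul_left, ← hS]
  have := mul_pos hf hX6
  have h2 : F * (S + 1) * ((M : ℝ) * N) ^ (-6 : ℝ) = F * ((M : ℝ) * N) ^ (-6 : ℝ) * S +
      F * ((M : ℝ) * N) ^ (-6 : ℝ) := by ring
  linarith

theorem bound_tail (ε : ℝ) (hε : 0 < ε) : ∃ C : ℝ, 0 < C ∧ ∀ M N : ℕ, 1 ≤ N → N ≤ M → ∀ K : ℕ,
    ((M : ℝ) * N) ^ ε * (N : ℝ) ^ 2 / M ≤ K + 1 → ∀ a : ℕ → ℝ,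
    ∑ n₁ ∈ os N, ∑ n₂ ∈ os N, |a n₁ * a n₂| * ∑ e ∈ (Nat.gcd n₁ n₂).divisors,
      (M : ℝ) / (e * √((n₁ / Nat.gcd n₁ n₂ * (n₂ / Nat.gcd n₁ n₂) : ℕ) : ℝ)) *
        Tl M K e (n₁ / Nat.gcd n₁ n₂ * (n₂ / Nat.gcd n₁ n₂)) ≤ C * ∑ n ∈ os N, a n ^ 2 := by
  obtain ⟨C, hC, hb⟩ := tail_bound ε hε
  refine ⟨C, hC, ?_⟩
  intro M N hN hNM K hK a
  have hNr : (1 : ℝ) ≤ N := by exact_mod_cast hN
  have hMN : (N : ℝ) ≤ M := by exact_mod_cast hNM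
  have hMr : (1 : ℝ) ≤ M := hNr.trans hMN
  have hX1 : 1 ≤ (M : ℝ) * N := by nlinarith
  have hX0 : 0 < (M : ℝ) * N := by linarith
  have hX6 : 0 < ((M : ℝ) * N) ^ (-6 : ℝ) := Real.rpow_pos_of_pos hX0 _
  have hin : ∀ n₁ ∈ os N, ∀ n₂ ∈ os N, ∑ e ∈ (Nat.gcd n₁ n₂).divisors,
      (M : ℝ) / (e * √((n₁ / Nat.gcd n₁ n₂ * (n₂ / Nat.gcd n₁ n₂) : ℕ) : ℝ)) *
        Tl M K e (n₁ / Nat.gcd n₁ n₂ * (n₂ / Nat.gcd n₁ n₂)) ≤
      N * (M * (C * ((M : ℝ) * N) ^ (-6 : ℝ))) := by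
    intro n₁ h₁ n₂ h₂
    simp only [os, mem_filter, mem_Icc] at h₁ h₂
    set g := Nat.gcd n₁ n₂ with hg
    have hg0 : 0 < g := Nat.gcd_pos_of_pos_left _ (by omega)
    have hgN : g ≤ N := (Nat.gcd_le_left _ (by omega)).trans h₁.1.2
    have hd1 : g ∣ n₁ := Nat.gcd_dvd_left _ _
    have hd2 : g ∣ n₂ := Nat.gcd_dvd_right _ _
    have hq1 : 1 ≤ n₁ / g := (Nat.one_le_div_iff hg0).2 (Nat.le_of_dvd (by omega) hd1)
    have hq2 : 1 ≤ n₂ / g := (Nat.one_le_div_iff hg0).2 (Nat.le_of_dvd (by omega) hd2)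
    have hq : 1 ≤ n₁ / g * (n₂ / g) := Nat.one_le_iff_ne_zero.2 (by positivity)
    set q := n₁ / g * (n₂ / g) with hqd
    have hgq : g ^ 2 * q = n₁ * n₂ := by
      rw [hqd]
      calc g ^ 2 * (n₁ / g * (n₂ / g)) = (g * (n₁ / g)) * (g * (n₂ / g)) := by ring
        _ = n₁ * n₂ := by rw [Nat.mul_div_cancel' hd1, Nat.mul_div_cancel' hd2]
    have hgqN : g ^ 2 * q ≤ N ^ 2 := by
      rw [hgq, sq]
      exact Nat.mul_le_mul h₁.1.2 h₂.1.2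
    have hterm : ∀ e ∈ g.divisors, (M : ℝ) / (e * √(q : ℝ)) * Tl M K e q ≤
        M * (C * ((M : ℝ) * N) ^ (-6 : ℝ)) := by
      intro e he
      have he1 : 1 ≤ e := Nat.pos_of_mem_divisors he
      have heg : e ≤ g := Nat.divisor_le he
      have her : (1 : ℝ) ≤ e := by exact_mod_cast he1
      have hqr : (1 : ℝ) ≤ √(q : ℝ) := by
        rw [Real.one_le_sqrt]
        exact_mod_cast hq
      have h1 : e ^ 2 * q ≤ N ^ 2 :=
        (Nat.mul_le_mul_right _ (Nat.pow_le_pow_left heg 2)).trans hgqN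
      have h2 := hb M N hN hNM K hK e q he1 hq h1
      have h3 : (M : ℝ) / (e * √(q : ℝ)) ≤ M := by
        apply div_le_self (by linarith)
        nlinarith
      have h4 : 0 ≤ (M : ℝ) / (e * √(q : ℝ)) := by positivity
      calc (M : ℝ) / (e * √(q : ℝ)) * Tl M K e q ≤
          (M : ℝ) / (e * √(q : ℝ)) * (C * ((M : ℝ) * N) ^ (-6 : ℝ)) :=
            mul_le_mul_of_nonneg_left h2 h4
        _ ≤ M * (C * ((M : ℝ) * N) ^ (-6 : ℝ)) :=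
            mul_le_mul_of_nonneg_right h3 (by positivity)
    refine (Finset.sum_le_card_nsmul _ _ _ hterm).trans ?_
    rw [nsmul_eq_mul]
    refine mul_le_mul_of_nonneg_right ?_ (by positivity)
    have h5 : #g.divisors ≤ g := Nat.card_divisors_le_self g
    exact_mod_cast h5.trans hgN
  have h1 : ∑ n₁ ∈ os N, ∑ n₂ ∈ os N, |a n₁ * a n₂| * ∑ e ∈ (Nat.gcd n₁ n₂).divisors,
      (M : ℝ) / (e * √((n₁ / Nat.gcd n₁ n₂ * (n₂ / Nat.gcd n₁ n₂) : ℕ) : ℝ)) *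
        Tl M K e (n₁ / Nat.gcd n₁ n₂ * (n₂ / Nat.gcd n₁ n₂)) ≤
      ∑ n₁ ∈ os N, ∑ n₂ ∈ os N, |a n₁ * a n₂| * (N * (M * (C * ((M : ℝ) * N) ^ (-6 : ℝ)))) := by
    refine Finset.sum_le_sum fun n₁ h₁ => Finset.sum_le_sum fun n₂ h₂ => ?_
    exact mul_le_mul_of_nonneg_left (hin n₁ h₁ n₂ h₂) (abs_nonneg _)
  refine h1.trans ?_
  have h2 : ∑ n₁ ∈ os N, ∑ n₂ ∈ os N, |a n₁ * a n₂| * (N * (M * (C * ((M : ℝ) * N) ^ (-6 : ℝ)))) =
      (∑ n ∈ os N, |a n|) ^ 2 * (N * (M * (C * ((M : ℝ) * N) ^ (-6 : ℝ)))) := by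
    rw [sq, Finset.sum_mul_sum, Finset.sum_mul]
    refine Finset.sum_congr rfl fun n₁ _ => ?_
    rw [Finset.sum_mul]
    refine Finset.sum_congr rfl fun n₂ _ => ?_
    rw [abs_mul]
  rw [h2]
  have h3 : (∑ n ∈ os N, |a n|) ^ 2 ≤ N * ∑ n ∈ os N, a n ^ 2 := by
    have h4 := sq_sum_le_card_mul_sum_sq (s := os N) (f := fun n => |a n|)
    simp only [sq_abs] at h4
    refine h4.trans ?_
    refine mul_le_mul_of_nonneg_right ?_ (Finset.sum_nonneg fun n _ => sq_nonneg _)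
    have h5 : #(os N) ≤ N := by
      unfold os
      refine (Finset.card_filter_le _ _).trans ?_
      simp
    exact_mod_cast h5
  have hs0 : 0 ≤ ∑ n ∈ os N, a n ^ 2 := Finset.sum_nonneg fun n _ => sq_nonneg _
  have h6 : (N : ℝ) * (N * (M * ((M : ℝ) * N) ^ (-6 : ℝ))) ≤ 1 := by
    have h7 : (N : ℝ) * (N * (M * ((M : ℝ) * N) ^ (-6 : ℝ))) =
        N * (((M : ℝ) * N) * ((M : ℝ) * N) ^ (-6 : ℝ)) := by ring
    have h8 : ((M : ℝ) * N) * ((M : ℝ) * N) ^ (-6 : ℝ) = ((M : ℝ) * N) ^ (-5 : ℝ) := by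
      nth_rw 1 [← Real.rpow_one ((M : ℝ) * N)]
      rw [← Real.rpow_add hX0]
      norm_num
    have h9 : ((M : ℝ) * N) ^ (-5 : ℝ) ≤ ((M : ℝ) * N) ^ (-1 : ℝ) :=
      Real.rpow_le_rpow_of_exponent_le hX1 (by norm_num)
    rw [h7, h8]
    calc (N : ℝ) * ((M : ℝ) * N) ^ (-5 : ℝ) ≤ (N : ℝ) * ((M : ℝ) * N) ^ (-1 : ℝ) := by gcongr
      _ = N / (M * N) := by rw [Real.rpow_neg_one, div_eq_mul_inv]
      _ ≤ 1 := by
        rw [div_le_one hX0]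
        nlinarith
  calc (∑ n ∈ os N, |a n|) ^ 2 * (N * (M * (C * ((M : ℝ) * N) ^ (-6 : ℝ)))) ≤
      (N * ∑ n ∈ os N, a n ^ 2) * (N * (M * (C * ((M : ℝ) * N) ^ (-6 : ℝ)))) :=
        mul_le_mul_of_nonneg_right h3 (by positivity)
    _ = (N * (N * (M * ((M : ℝ) * N) ^ (-6 : ℝ)))) * (C * ∑ n ∈ os N, a n ^ 2) := by ring
    _ ≤ 1 * (C * ∑ n ∈ os N, a n ^ 2) :=
        mul_le_mul_of_nonneg_right h6 (by positivity)
    _ = C * ∑ n ∈ os N, a n ^ 2 := one_mul _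

end Pool.Agent.MP0016c7.Rz
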